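import Pool.Agent.GAP.Alph
import Pool.Agent.HEP.GSys

/-!
Project GAP, geometry, module ISys: the system `hsI` of the honeycomb lattice WITHOUT bound for the number of steps of the blocks (displacements are the
true ones, `Av` is true avoidance). Otherwise it is `hs n` of HEP/GSys; the chains of `hs n` are chains of `hsI`.
-/

namespace Pool.Agent.HEP

open Pool.Agent.Hhelper14.SAW Pool.Agent.HHP
open scoped ENNReal

/-- Avoidance of the two legs. -/
def AvI (l s : List Blk) : Prop := l = [] ∨ s = [] ∨ (V (fw (jn l.reverse) (jn s))).Nodup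

lemma AvI_pre {l l' s s' : List Blk} (h2 : AvI (l ++ l') (s ++ s')) : AvI l s := by
  by_cases hl : l = []
  · exact Or.inl hl
  by_cases hs : s = []
  · exact Or.inr (Or.inl hs)
  right; right
  have h3 : (V (fw (jn (l ++ l').reverse) (jn (s ++ s')))).Nodup := by
    rcases h2 with h2 | h2 | h2
    · exact absurd (List.append_eq_nil_iff.1 h2).1 hl
    · exact absurd (List.append_eq_nil_iff.1 h2).1 hs
    · exact h2
  rw [List.reverse_append] at h3
  have hlr : l.reverse ≠ [] := by simpa using hl
  by_cases hl' : l' = []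
  · subst hl'
    rw [List.reverse_nil, List.nil_append] at h3
    by_cases hs' : s' = []
    · subst hs'
      rwa [List.append_nil] at h3
    · rw [jn_append hs hs'] at h3
      exact fw_subr (jn_Br hlr) (jn_Br hs) (jn_Br hs') h3
  · have hlr' : l'.reverse ≠ [] := by simpa using hl'
    rw [jn_append hlr' hlr] at h3
    by_cases hs' : s' = []
    · subst hs'
      rw [List.append_nil] at h3
      exact fw_subl (jn_Br hlr') (jn_Br hlr) h3
    · rw [jn_append hs hs'] at h3
      exact fw_sub (jn_Br hlr') (jn_Br hlr) (jn_Br hs) (jn_Br hs') h3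

/-- The system of the honeycomb lattice, all blocks. -/
noncomputable def hsI : Sys where
  B := Blk
  ht c := htw c.1
  dx c := (E c.1).2
  ee c := (tn (!rt c.1) (Dr c.1)).2
  wt c := xE ^ (c.1.length + 1)
  rf c := ⟨c.1.map (! ·), Irr_not c.2⟩
  ht_pos c := htw_pos c.1
  ee_le := ee_abs
  rf_rf c := by
    apply Subtype.ext
    simp only [List.map_map]
    conv_rhs => rw [← List.map_id c.1]
    refine List.map_congr_left fun b _ => ?_
    simp
  ht_rf c := htw_not c
  wt_rf c := by simp
  dx_rf c := by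
    simp only
    rw [E_not]
    rfl
  tot := blk_tot
  Av := AvI
  Av_pre _ _ _ _ h := AvI_pre h
  hi σ l j := if σ then sSup (rowT l j) else sSup (rowF l j)
  lo σ l j := if σ then sInf (rowT l j) else sInf (rowF l j)

lemma hsI_h (l : List Blk) : hsI.h l = hj l := rfl

lemma hsI_w (l : List Blk) : hsI.w l = wj l := rfl

lemma hsI_x (l : List Blk) : hsI.x l = xj l := rfl

lemma hsI_b_zero : hsI.b 0 = 1 := hs_b_zero (n := 0)

lemma hsI_b (k : ℕ) : hsI.b (k + 1) = ms xE (Br k) := hs_b (n := 0) k

/-- The position of the end of leg 1. -/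
lemma hsI_p1 {l : List Blk} (hl : l ≠ []) : hsI.p1 l = (fe (jn l.reverse)).2 := by
  obtain ⟨c, l, rfl⟩ := List.exists_cons_of_ne_nil hl
  have h1 : hsI.p1 (c :: l) = (tn (!rt c.1) (Dr c.1)).2 + xj (c :: l) := rfl
  have h2 := jn_snoc l.reverse c
  refine h1.trans ?_
  rw [fe_eq, List.reverse_cons, h2.1, h2.2, Prod.snd_add, jn_E (by simp)]
  have h3 : xj (l.reverse ++ [c]) = xj (c :: l) := by
    unfold xj
    rw [List.map_append, List.sum_append, List.map_reverse, List.sum_reverse]
    simp [add_comm]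
  rw [h3]; ring

/-- The position of the end of leg 2. -/
lemma hsI_x_eq {l : List Blk} (hl : l ≠ []) : hsI.x l = (E (jn l)).2 := by
  rw [hsI_x, jn_E hl]

/-- The chains of short blocks are chains. -/
lemma hs_Chn {n : ℕ} : ∀ c : List (List Blk), (hs n).Chn c → hsI.Chn c
  | [], _ => trivial
  | [_], _ => trivial
  | W :: W' :: c, h => ⟨⟨h.1.1, h.1.2.2⟩, hs_Chn (W' :: c) h.2⟩

lemma chm_hs_le (n N : ℕ) : (hs n).chm N ≤ hsI.chm N := by
  refine ENNReal.tsum_le_tsum fun c => ?_
  exact mul_le_mul' (ind_mono fun h => ⟨hs_Chn c h.1, h.2⟩) (le_refl ((c.map wj).prod))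

end Pool.Agent.HEP
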