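import Pool.Agent.GAP.SXi
import Pool.Agent.Hhelper14.SAW.Low

/-!
Project GAP, geometry, module SGap: the gap inequality and the anti-concentration for words.

PAPER PROOF. `gap_le`, `δ ≥ 1`. Let `W` be in `GapT T δ G`, `1 ≤ G`. Append the step `(-1, 0)` (letter `lt W`: `lt_spec`, as `F0 (E W) = 3 δ` and `¬ hz (Dr W)`): `W' = W ++ [lt W]`, `E W' = E W + (-1, 0)`, `F0 (E W') = 3 (δ - 1) + 1`,
`(E W').2 = (E W).2`. Nodup: a vertex `z` of `W` equal to `E W'` would be in the row `F0 z = 3 δ - 2` with `z.2 = (E W).2`, against the last clause of `GapT` (`G ≥ 1`).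
CLAIM: `W'` is in `FT T (δ - 1) τ` for every `τ` with `(E W).2 - G + 2 ≤ τ ≤ (E W).2 + 1`. Only `Row (δ - 1) τ W'` is to be shown: let `z ∈ V W'`, `F0 z = 3 (δ - 1)`; `z ≠ E W'`, `z ≠ E W` (`F0 = 3 δ`), so `z ∈ V W` is not the
last vertex and has a next vertex, and a previous one (which is `o'` if `z = (0, 0)` is the first). The neighbours of `z` (residue 0) are `z + (-1, 0)`, `z + (0, 1)`, `z + (1, -1)`; the next and the previous vertex are different (nodup, turns), so one of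
them is `z' = z + (0, 1)` or `z' = z + (1, -1)`, with `F0 z' = 3 δ - 2`, hence not `o'` (`F0 o' = -2`, `δ ≥ 1`), so `z' ∈ V W` and `z'.2 + G ≤ (E W).2`, `z'.2 ≥ z.2 - 1`: `z.2 ≤ (E W).2 - G + 1 < τ`. (Simplest in words: split `V W` at `z`, `gd_std`.)
These are `G` values of `τ`. The map `W ↦ W'` is injective with one more letter: `G * ms (GapT T δ G) * xE ≤ ∑' τ, ms (FT T (δ - 1) τ) ≤ 4 * ms xE (Br T)` (`ft_sum`, `δ - 1 ≤ T`), and `4 ≤ 8 * xE` (`1 ≤ 2 * xE`: `GC1_two_xE` (private) in HEP/GC1, copy).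
`δ = 0`: the last clause for `z = o'` (`F0 o' = -2 = 3 * 0 - 2`, `o'.2 = 0`) gives `G ≤ (E W).2`, and `W` is in `AT T`: `disp_le`.
`ac_le`. For `W` in `Br M` with `(E W).2 = D` append the steps `(1, 0)` (letter `rt W`, `Br.tn_rt`) and `(0, 1)`: `W'`, two more letters, vertices `E W + (1, 0)` (`F0 = 3 (M + 1)`), `E W + (1, 1)` (`F0 = 3 (M + 1) + 1`, second coordinate `D + 1`).
`W'` is in `FT (M + 1) (M + 1) (D + 2)`: the row `F0 z = 3 (M + 1)` consists of `E W + (1, 0)`, `z.2 = D < D + 2`; `D + 2 ≤ (D + 1) + 1`. So `xE ^ 2 * ms (Br M, (E W).2 = D) ≤ ms (FT (M + 1) (M + 1) (D + 2)) ≤ 2 * ms xE (AT (M + 1))`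
(`ft_le`); sum over `M ≥ j` (`at_sum`): `xE ^ 2 * (..) ≤ 6 * ms xE (Br j)`, and `6 ≤ 24 * xE ^ 2`.
-/

namespace Pool.Agent.HEP

open Pool.Agent.Hhelper14.SAW Pool.Agent.HHP
open scoped ENNReal

private lemma SGap_ms (y : ℝ≥0∞) (P : List Bool → Prop) : ms y P = ∑' W, ind (P W) * y ^ (W.length + 1) := by
  classical
  unfold ms
  refine (tsum_subtype {W | P W} (fun W : List Bool => y ^ (W.length + 1))).trans (tsum_congr fun W => ?_)
  by_cases h : P W
  · rw [Set.indicator_of_mem (by exact h), ind_true h, one_mul]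
  · rw [Set.indicator_of_notMem (by exact h), ind_false h, zero_mul]

private lemma SGap_two_xE : 1 ≤ 2 * xE := by
  have h1 := mu_bounds.2
  have h2 : (1 : ℝ) ≤ 2 * xc := by
    unfold xc
    have := mu_pos
    rw [mul_one_div, le_div_iff₀ this]
    linarith
  unfold xE
  rw [← ENNReal.ofReal_ofNat, ← ENNReal.ofReal_mul (by norm_num), ENNReal.one_le_ofReal]
  exact h2

/-- A vertex at a left border has a neighbour on the word at the right border of the same column, unless it is the last one. -/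
private lemma SGap_nbr (W : List Bool) : ∀ z ∈ V W, F0 z % 3 = 0 → (z = E W ∧ Dr W = (1, 0)) ∨
    ∃ z' ∈ V W, F0 z' = F0 z + 1 ∧ z.2 - 1 ≤ z'.2 := by
  induction W using List.reverseRecOn with
  | nil =>
    intro z hz _
    rw [V_nil, List.mem_singleton] at hz
    exact Or.inl ⟨hz, rfl⟩
  | append_singleton W b ih =>
    intro z hz h0
    rw [V_snoc, List.mem_append, List.mem_singleton] at hz
    rcases hz with hz | hz
    · right
      rcases ih z hz h0 with ⟨rfl, h1⟩ | ⟨z', h1, h2, h3⟩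
      · refine ⟨E W + tn b (Dr W), by rw [V_snoc]; simp, ?_, ?_⟩
        · rw [F0_add, h1]
          cases b <;> simp [tn, L, R, F0]
        · rw [h1]
          cases b
          · simp [tn, R]
          · simp only [tn, L, R, if_true, Prod.snd_add]
            omega
      · exact ⟨z', by rw [V_snoc]; exact List.mem_append_left _ h1, h2, h3⟩
    · have hg := gd_std (W ++ [b])
      rw [E_snoc, Dr_snoc, ← hz] at hg
      rcases hg with ⟨-, h1 | h1 | h1⟩ | ⟨h1, -⟩
      · left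
        rw [E_snoc, Dr_snoc]
        exact ⟨hz, h1⟩
      · right
        rw [h1] at hz
        refine ⟨E W, by rw [V_snoc]; exact List.mem_append_left _ (E_mem W), ?_, ?_⟩
        · rw [hz, F0_add]
          simp [F0]
        · rw [hz]
          simp
      · right
        rw [h1] at hz
        refine ⟨E W, by rw [V_snoc]; exact List.mem_append_left _ (E_mem W), ?_, ?_⟩
        · rw [hz, F0_add]
          simp [F0]
        · rw [hz]
          simp
      · omega

private lemma SGap_ft {T d G : ℕ} (hδ : d ≤ T) (hG : 1 ≤ G) {W : List Bool} (h : GapT T (d + 1) G W) {τ : ℤ}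
    (h1 : (E W).2 - G + 1 < τ) (h2 : τ ≤ (E W).2 + 1) : FT T d τ (W ++ [lt W]) := by
  obtain ⟨a1, a2, a3, a4, a5, a6⟩ := h
  push_cast at a4 a6
  have hlt : tn (lt W) (Dr W) = (-1, 0) := lt_spec (by rw [a4]; omega) a5
  have hV : V (W ++ [lt W]) = V W ++ [E W + (-1, 0)] := by rw [V_snoc, hlt]
  have hE : E (W ++ [lt W]) = E W + (-1, 0) := by rw [E_snoc, hlt]
  have hF : F0 (E W + (-1, 0)) = 3 * (d : ℤ) + 1 := by
    rw [F0_add, a4]
    simp [F0]
    ring
  have h22 : (E W + (-1, 0)).2 = (E W).2 := by simp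
  refine ⟨?_, ?_, ?_, ?_, ?_, ?_⟩
  · rw [hV, List.nodup_append]
    refine ⟨a1, by simp, ?_⟩
    intro x hx y hy hxy
    rw [List.mem_singleton] at hy
    have h3 := a6 x (Or.inr hx) (by rw [hxy, hy, hF]; ring)
    rw [hxy, hy, h22] at h3
    omega
  · intro z hz
    rw [hV, List.mem_append, List.mem_singleton] at hz
    rcases hz with hz | rfl
    · exact a2 z hz
    · rw [hF]
      constructor <;> omega
  · obtain ⟨z, hz, h3⟩ := a3
    exact ⟨z, by rw [hV]; exact List.mem_append_left _ hz, h3⟩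
  · intro z hz h3
    rw [hV, List.mem_append, List.mem_singleton] at hz
    rcases hz with hz | rfl
    · rcases SGap_nbr W z hz (by omega) with ⟨rfl, -⟩ | ⟨z', h4, h5, h6⟩
      · omega
      · have h7 := a6 z' (Or.inr h4) (by rw [h5, h3]; ring)
        omega
    · omega
  · rw [hE, hF]
  · rw [hE, h22]
    exact h2

private lemma SGap_pos (T d G : ℕ) (hδ : d ≤ T) (hG : 1 ≤ G) :
    (G : ℝ≥0∞) * ms xE (GapT T (d + 1) G) * xE ≤ ∑' τ : ℤ, ms xE (FT T d τ) := by
  classical
  have h1 : ∀ W : List Bool, (G : ℝ≥0∞) * (ind (GapT T (d + 1) G W) * xE ^ (W.length + 1)) * xE ≤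
      ∑' τ : ℤ, ind (FT T d τ (W ++ [lt W])) * xE ^ ((W ++ [lt W]).length + 1) := by
    intro W
    by_cases h : GapT T (d + 1) G W
    · rw [ind_true h, one_mul]
      refine le_trans ?_ (ENNReal.sum_le_tsum (Finset.Ioc ((E W).2 - G + 1) ((E W).2 + 1)))
      rw [Finset.sum_congr rfl (g := fun _ => xE ^ ((W ++ [lt W]).length + 1))]
      · rw [Finset.sum_const, Int.card_Ioc, nsmul_eq_mul, List.length_append, List.length_singleton,
          pow_succ xE (W.length + 1), mul_assoc]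
        refine mul_le_mul_left (le_of_eq ?_) _
        congr 1
        omega
      · intro τ hτ
        rw [Finset.mem_Ioc] at hτ
        rw [ind_true (SGap_ft hδ hG h hτ.1 hτ.2), one_mul]
    · rw [ind_false h, zero_mul, mul_zero, zero_mul]
      exact zero_le
  rw [SGap_ms, ← ENNReal.tsum_mul_left, ← ENNReal.tsum_mul_right]
  refine (ENNReal.tsum_le_tsum h1).trans ?_
  rw [ENNReal.tsum_comm]
  refine ENNReal.tsum_le_tsum fun τ => ?_
  rw [SGap_ms]
  refine ENNReal.tsum_comp_le_tsum_of_injective (f := fun W : List Bool => W ++ [lt W]) ?_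
    (fun W => ind (FT T d τ W) * xE ^ (W.length + 1))
  intro W W' h
  exact (List.append_inj' (h : W ++ [lt W] = W' ++ [lt W']) rfl).1

theorem gap_le (T δ G : ℕ) (hδ : δ ≤ T + 1) (hG : 1 ≤ G) :
    (G : ℝ≥0∞) * ms xE (GapT T δ G) ≤ 8 * ms xE (Br T) := by
  cases δ with
  | zero =>
    have h1 : ms xE (GapT T 0 G) ≤ ms xE (fun W => AT T W ∧ (G : ℤ) ≤ (E W).2) := by
      refine ms_mono fun W h => ?_
      obtain ⟨a1, a2, a3, a4, a5, a6⟩ := h
      refine ⟨⟨a1, a2, a3, by simpa using a4, a5⟩, ?_⟩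
      have h2 := a6 o' (Or.inl rfl) (by decide)
      have h3 : (o').2 = 0 := by decide
      omega
    refine (mul_le_mul_right h1 _).trans ((disp_le T G).trans ?_)
    exact mul_le_mul_left (by norm_num) _
  | succ d =>
    have h1 := (SGap_pos T d G (by omega) hG).trans (ft_sum T d (by omega))
    calc (G : ℝ≥0∞) * ms xE (GapT T (d + 1) G) = 1 * ((G : ℝ≥0∞) * ms xE (GapT T (d + 1) G)) := (one_mul _).symm
      _ ≤ (2 * xE) * ((G : ℝ≥0∞) * ms xE (GapT T (d + 1) G)) := mul_le_mul_left SGap_two_xE _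
      _ = 2 * ((G : ℝ≥0∞) * ms xE (GapT T (d + 1) G) * xE) := by ring
      _ ≤ 2 * (4 * ms xE (Br T)) := mul_le_mul_right h1 _
      _ = 8 * ms xE (Br T) := by ring

private lemma SGap_br {M : ℕ} {D : ℤ} {W : List Bool} (h : Br M W) (hD : (E W).2 = D) :
    FT (M + 1) (M + 1) (D + 2) (W ++ [rt W, true]) := by
  have hB := join_Br h Br_true
  obtain ⟨e1, e2, -⟩ := app_right (Q := [true]) h.tn_rt
  have e3 : V [true] = [(0, 0), (0, 1)] := by decide
  have e4 : E [true] = (0, 1) := by decide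
  change V (W ++ [rt W, true]) = _ at e1
  change E (W ++ [rt W, true]) = _ at e2
  have hB' : Br (M + 1) (W ++ [rt W, true]) := hB
  have hE2 : (E (W ++ [rt W, true])).2 = D + 1 := by
    rw [e2, e4]
    simp [hD]
  refine ⟨hB'.1.1, hB'.1.2, ⟨_, E_mem _, by rw [hB'.2]; omega⟩, ?_, hB'.2, ?_⟩
  · intro z hz h3
    rw [e1, e3, List.mem_append] at hz
    rcases hz with hz | hz
    · have := (h.1.2 z hz).2
      push_cast at h3
      omega
    · simp only [List.map_cons, List.map_nil, List.mem_cons, List.not_mem_nil, or_false] at hz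
      rcases hz with rfl | rfl <;> simp [hD]
  · rw [hE2]
    omega

private lemma SGap_ac (M : ℕ) (D : ℤ) :
    xE ^ 2 * ms xE (fun W => Br M W ∧ (E W).2 = D) ≤ 2 * ms xE (AT (M + 1)) := by
  refine le_trans ?_ (ft_le (M + 1) (M + 1) (D + 2) le_rfl)
  rw [SGap_ms, SGap_ms, ← ENNReal.tsum_mul_left]
  refine le_trans (ENNReal.tsum_le_tsum fun W => ?_)
    (ENNReal.tsum_comp_le_tsum_of_injective (f := fun W : List Bool => W ++ [rt W, true]) ?_
      (fun W => ind (FT (M + 1) (M + 1) (D + 2) W) * xE ^ (W.length + 1)))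
  · by_cases h : Br M W ∧ (E W).2 = D
    · rw [ind_true h, ind_true (SGap_br h.1 h.2), one_mul, one_mul, ← pow_add]
      refine le_of_eq ?_
      congr 1
      simp
      ring
    · rw [ind_false h, zero_mul, mul_zero]
      exact zero_le
  · intro W W' h
    exact (List.append_inj' (h : W ++ [rt W, true] = W' ++ [rt W', true]) rfl).1

theorem ac_le (j : ℕ) (D : ℕ → ℤ) :
    ∑' M : ℕ, ind (j ≤ M) * ms xE (fun W => Br M W ∧ (E W).2 = D M) ≤ 24 * ms xE (Br j) := by
  have h1 : xE ^ 2 * ∑' M : ℕ, ind (j ≤ M) * ms xE (fun W => Br M W ∧ (E W).2 = D M) ≤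
      2 * ∑' M : ℕ, ind (j ≤ M) * ms xE (AT (M + 1)) := by
    rw [← ENNReal.tsum_mul_left, ← ENNReal.tsum_mul_left]
    refine ENNReal.tsum_le_tsum fun M => ?_
    calc xE ^ 2 * (ind (j ≤ M) * ms xE (fun W => Br M W ∧ (E W).2 = D M))
        = ind (j ≤ M) * (xE ^ 2 * ms xE (fun W => Br M W ∧ (E W).2 = D M)) := by ring
      _ ≤ ind (j ≤ M) * (2 * ms xE (AT (M + 1))) := mul_le_mul_right (SGap_ac M (D M)) _
      _ = 2 * (ind (j ≤ M) * ms xE (AT (M + 1))) := by ring
  have h2 : (1 : ℝ≥0∞) ≤ 4 * xE ^ 2 := by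
    have h4 := SGap_two_xE
    calc (1 : ℝ≥0∞) = 1 * 1 := (one_mul 1).symm
      _ ≤ (2 * xE) * (2 * xE) := mul_le_mul' h4 h4
      _ = 4 * xE ^ 2 := by ring
  set S : ℝ≥0∞ := ∑' M : ℕ, ind (j ≤ M) * ms xE (fun W => Br M W ∧ (E W).2 = D M)
  calc S = 1 * S := (one_mul _).symm
    _ ≤ 4 * xE ^ 2 * S := mul_le_mul_left h2 _
    _ = 4 * (xE ^ 2 * S) := by ring
    _ ≤ 4 * (2 * ∑' M : ℕ, ind (j ≤ M) * ms xE (AT (M + 1))) := mul_le_mul_right h1 _
    _ ≤ 4 * (2 * (3 * ms xE (Br j))) := mul_le_mul_right (mul_le_mul_right (at_sum j) _) _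
    _ = 24 * ms xE (Br j) := by ring

end Pool.Agent.HEP
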