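import Pool.Agent.GAP.ISys
import Pool.Agent.GAP.SGap
import Pool.Agent.HEP.GC1

/-!
Project GAP, geometry, module IAc: anti-concentration for the system `hsI`, and monotonicity.

PAPER PROOF. `hsI_anti`: `hsI.b` and `(hs 0).b` are the same function by `rfl` (heights and weights coincide): `hs_anti 0`.
`hsI_ac`: the words `l` with `h l = M + 1` are in bijection with the words `W = jn l` of `Br M` (`jn_Br`, `jn_inj`, `jn_surj`), `w l = xE ^ (W.length + 1)` (`jn_length`), `x l = (E W).2` (`hsI_x_eq`); see `ms_Br` in HEP. So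
`∑' l, ind (h l = M + 1 ∧ x l = D') * w l = ms xE (fun W => Br M W ∧ (E W).2 = D')`. For `j ≥ 1` the sum over `M ≥ j` is (`M = M' + 1`) the sum over `M' ≥ j - 1` of `ms xE (fun W => Br M' W ∧ (E W).2 = D (M' + 1))`, by `ac_le` at most
`24 * ms xE (Br (j - 1)) = 24 * hsI.b j`. For `j = 0` the term `M = 0` (only `l = []`, mass at most 1) comes in addition: `1 + 24 * ms xE (Br 0) ≤ 25 = 25 * hsI.b 0` (`Br_one`, `hsI_b_zero`).
-/

namespace Pool.Agent.HEP

open Pool.Agent.Hhelper14.SAW Pool.Agent.HHP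
open scoped ENNReal

theorem hsI_anti : Antitone hsI.b := hs_anti 0

theorem hsI_ac (j : ℕ) (D : ℕ → ℤ) :
    ∑' M : ℕ, ∑' l : List Blk, ind (j ≤ M ∧ hsI.h l = M ∧ hsI.x l = D M) * hsI.w l ≤ ((32 : ℕ) : ℝ≥0∞) * hsI.b j := by
  have h1 : ∀ M : ℕ, ∑' l : List Blk, ind (j ≤ M + 1 ∧ hsI.h l = M + 1 ∧ hsI.x l = D (M + 1)) * hsI.w l =
      ind (j - 1 ≤ M) * ms xE (fun W => Br M W ∧ (E W).2 = D (M + 1)) := by
    intro M
    rw [← tsum_jn M (fun W => (E W).2 = D (M + 1)), ← ENNReal.tsum_mul_left]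
    refine tsum_congr fun l => ?_
    rw [← mul_assoc, ← ind_and]
    change ind (j ≤ M + 1 ∧ hj l = M + 1 ∧ xj l = D (M + 1)) * wj l = _
    congr 1
    refine ind_congr ⟨?_, ?_⟩
    · rintro ⟨g1, g2, g3⟩
      have hl : l ≠ [] := fun h => by rw [h, hj_nil] at g2; omega
      exact ⟨by omega, hl, g2, by rw [jn_E hl]; exact g3⟩
    · rintro ⟨g1, hl, g2, g3⟩
      exact ⟨by omega, g2, by rw [← jn_E hl]; exact g3⟩
  have h0 : ∑' l : List Blk, ind (j ≤ 0 ∧ hsI.h l = 0 ∧ hsI.x l = D 0) * hsI.w l ≤ ind (j = 0) := by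
    change ∑' l : List Blk, ind (j ≤ 0 ∧ hj l = 0 ∧ xj l = D 0) * wj l ≤ _
    rw [tsum_eq_single ([] : List Blk)]
    · rw [wj_nil, mul_one]
      exact ind_mono fun h => by omega
    · intro l hl
      rw [ind_false (by have := hj_pos hl; omega), zero_mul]
  have h2 : ∑' M : ℕ, ind (j - 1 ≤ M) * ms xE (fun W => Br M W ∧ (E W).2 = D (M + 1)) ≤ 24 * ms xE (Br (j - 1)) :=
    ac_le (j - 1) (fun M => D (M + 1))
  rw [tsum_eq_zero_add' ENNReal.summable]
  simp only [h1]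
  refine (add_le_add h0 h2).trans ?_
  rcases Nat.eq_zero_or_pos j with rfl | hj
  · rw [ind_true rfl, hsI_b_zero, mul_one]
    calc (1 : ℝ≥0∞) + 24 * ms xE (Br (0 - 1)) ≤ 1 + 24 * 1 := by gcongr; exact Br_one _
      _ ≤ _ := by norm_num
  · obtain ⟨k, rfl⟩ : ∃ k, j = k + 1 := ⟨j - 1, by omega⟩
    rw [ind_false (by omega), zero_add, hsI_b, Nat.add_sub_cancel]
    gcongr
    norm_num

end Pool.Agent.HEP
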