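import Pool.Agent.HEP.Alph

/-!
Project GAP (MP_8c6f77_pr, honeycomb lattice, `a_n ≤ μ^n exp (C (log n)^A)`): THE ABSTRACT SETTING.
The alphabet, the systems and the functions `a`, `b`, `U`, `Lam`, `TT`, `chm` are those of HEP/Alph; only the hypotheses change:
`Sys.Hyp` of HEP is replaced by `Sys.Gyp K` (the geometry supplies ONE system `hsI`, without any bound for the number of steps of the
blocks, with an absolute constant `K`).

* `fp σ q l`: the long leg `l` is in first passage over the end level of the short legs of height `q`.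
* `mu σ q`: mass of the pairs (long leg in first passage over `q`, short leg of height `q`), not meeting, one-sided. `V M` = sum of both
  sides over `1 ≤ q ≤ M` (the short leg of height `0` is trivial: `mu σ 0 ≤ 1`).
* `Gyp.gap` is the gap inequality (one long leg height `N`, one short leg height `q`, gap at least `G`), `Gyp.ac` the anti-concentration.
-/

namespace Pool.Agent.HEP

open scoped ENNReal

namespace Sys

variable (S : Sys)

/-- First passage over the level of the short legs of height `q`. -/
def fp (σ : Bool) (q : ℕ) (l : List S.B) : Prop :=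
  q ≤ S.h l - d σ ∧ ∀ l' c r, l = l' ++ c :: r → S.h l' - d σ < q

/-- Mass of the one-sided pairs, short leg of height `q`, long leg in first passage. -/
noncomputable def mu (σ : Bool) (q : ℕ) : ℝ≥0∞ :=
  ∑' l, ∑' s, ind (S.good σ 1 l s ∧ S.fp σ q l ∧ S.h s = q) * (S.w l * S.w s)

/-- The function `V`. -/
noncomputable def V (M : ℕ) : ℝ≥0∞ := ∑ q ∈ Finset.Icc 1 M, (S.mu true q + S.mu false q)

/-- The hypotheses which the geometry supplies (`K` absolute). -/
structure Gyp (K : ℕ) : Prop where
  /-- `b` is nonincreasing -/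
  anti : Antitone S.b
  /-- planarity: the younger leg is the longer one (any renewal of it) -/
  pl1 : ∀ l s s', S.Av l (s ++ s') → S.h l ≤ S.h (s ++ s') → S.h s + 1 ≤ S.h l → S.os true 1 l s
  /-- planarity: the older leg is the longer one (any renewal of it) -/
  pl2 : ∀ l s s', S.Av (s ++ s') l → S.h l < S.h (s ++ s') → S.h s ≤ S.h l → S.os false 1 l s
  /-- the long leg may be extended (strictly above the level) -/
  ext : ∀ σ G l l' s, S.good σ G l s → S.h s < S.h l - d σ → S.good σ G (l ++ l') s
  /-- the long leg may be shortened (down to the level) -/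
  res : ∀ σ G l l' s, S.good σ G (l ++ l') s → S.h s ≤ S.h l - d σ → S.good σ G l s
  /-- the gap inequality -/
  gap : ∀ (σ : Bool) (G N q : ℕ), 1 ≤ G → 1 ≤ q → (G : ℝ≥0∞) *
    ∑' l, ∑' s, ind (S.good σ G l s ∧ S.h l = N ∧ S.h s = q) * (S.w l * S.w s) ≤ K * S.b N
  /-- anti-concentration -/
  ac : ∀ (j : ℕ) (D : ℕ → ℤ), ∑' M, ∑' l, ind (j ≤ M ∧ S.h l = M ∧ S.x l = D M) * S.w l ≤ K * S.b j

end Sys

end Pool.Agent.HEP
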