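import Pool.Agent.GAP.ISys
import Pool.Agent.HEP.GFin

/-!
Project GAP: from a bound for the chains of the system `hsI` to the number of walks of the honeycomb lattice.

* `fin_of`: a bound `G n` for the mass of the chains gives `a_n ≤ μ^n B`, `P_n ≥ B ^ (-2)`, `B = 8 (1 + 6 G n) ^ 2`.
* `fin_poly`: polynomial bounds. * `fin_log`: bounds `exp (C (log (n + 2)) ^ A)`.
-/

namespace Pool.Agent.HEP

open Pool.Agent.Hhelper14.SAW Pool.Agent.Hhelper63.HW Pool.Agent.HHP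
open scoped ENNReal

/-- The mass of the short words of the strip. -/
lemma short_le_chm (n : ℕ) {G : ℝ} (h : hsI.chm (n + 2) ≤ ENNReal.ofReal G) :
    ms xE (fun W => In (n + 1) W ∧ W.length < n + 1) ≤ ENNReal.ofReal (6 * G) := by
  calc ms xE (fun W => In (n + 1) W ∧ W.length < n + 1)
      ≤ ms xE (fun W => In (n + 1) W ∧ W.length ≤ n + 1) := ms_mono fun W hW => ⟨hW.1, hW.2.le⟩
    _ ≤ (1 + xE) * ms xE (fun W => SS (n + 1) W ∧ W.length ≤ n + 1) := In_le_short _ _ _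
    _ ≤ (1 + 1) * (3 * (hs (n + 1 + 1)).chm (n + 1 + 1)) := by
        gcongr
        · exact xE_le
        · exact ss_chm (n + 1)
    _ ≤ (1 + 1) * (3 * ENNReal.ofReal G) :=
        mul_le_mul_of_nonneg_left (mul_le_mul_of_nonneg_left ((chm_hs_le _ _).trans h) bot_le) bot_le
    _ = ENNReal.ofReal (6 * G) := by
        rw [ENNReal.ofReal_mul (by norm_num), ← mul_assoc]
        congr 1
        norm_num

/-- The general form. -/
theorem fin_of {n : ℕ} (hn : 1 ≤ n) {G : ℝ} (hG : 0 ≤ G) (h : hsI.chm (n + 2) ≤ ENNReal.ofReal G) :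
    (Pool.Agent.Hhelper14.Honeycomb.a n : ℝ) ≤
      Pool.Agent.Hhelper14.Honeycomb.muL ^ n * (8 * (1 + 6 * G) ^ 2) ∧
    ((8 * (1 + 6 * G) ^ 2) ^ 2)⁻¹ ≤ Pool.Agent.Hhelper14.Honeycomb.P n := by
  have h1 := an_le_mass (n := n) (G := 6 * G) (by positivity) (short_le_chm n h)
  have hmuL := muL_eq hw_quant
  have hmun : 0 < mu ^ n := pow_pos mu_pos n
  set B : ℝ := 8 * (1 + 6 * G) ^ 2 with hB
  have hB0 : 0 < B := by positivity
  constructor
  · rw [hmuL, a_eq]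
    exact h1
  · rw [P_eq, a_eq, a_eq]
    have h2 := mu_pow_le (2 * n) (by omega)
    have han : (0 : ℝ) < an n := lt_of_lt_of_le hmun (mu_pow_le n hn)
    rw [le_div_iff₀ (by positivity)]
    have h3 : (an n : ℝ) ^ 2 ≤ (mu ^ n * B) ^ 2 := pow_le_pow_left₀ han.le h1 2
    calc (B ^ 2)⁻¹ * (an n : ℝ) ^ 2 ≤ (B ^ 2)⁻¹ * (mu ^ n * B) ^ 2 :=
          mul_le_mul_of_nonneg_left h3 (by positivity)
      _ = mu ^ (2 * n) := by
          have e : (B ^ 2)⁻¹ * (mu ^ n * B) ^ 2 = (mu ^ n) ^ 2 * (B ^ 2 * (B ^ 2)⁻¹) := by ring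
          rw [e, mul_inv_cancel₀ (by positivity), mul_one, ← pow_mul, mul_comm n 2]
      _ ≤ _ := h2

/-- Polynomial bounds. -/
theorem fin_poly (h : ∃ C D : ℕ, ∀ n : ℕ, hsI.chm n ≤ (C : ℝ≥0∞) * ((n : ℝ≥0∞) + 1) ^ D) :
    ∃ C : ℝ, 0 < C ∧ ∀ n : ℕ, 1 ≤ n →
    (Pool.Agent.Hhelper14.Honeycomb.a n : ℝ) ≤
      C * (n : ℝ) ^ C * Pool.Agent.Hhelper14.Honeycomb.muL ^ n ∧
    (C * (n : ℝ) ^ C)⁻¹ ≤ Pool.Agent.Hhelper14.Honeycomb.P n := by
  obtain ⟨C, D, h⟩ := h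
  -- `G n = C (n + 3) ^ D ≤ C 4 ^ D n ^ D`
  set A : ℝ := 8 * (1 + 6 * (C * 4 ^ D)) ^ 2 with hA
  have hA8 : 8 ≤ A := by
    have h1 : (0 : ℝ) ≤ 6 * (C * 4 ^ D) := by positivity
    have : 1 ≤ (1 + 6 * ((C : ℝ) * 4 ^ D)) ^ 2 := one_le_pow₀ (by linarith)
    linarith
  refine ⟨max (A ^ 2) (4 * D), lt_max_of_lt_left (by positivity), fun n hn => ?_⟩
  set E : ℝ := max (A ^ 2) (4 * D) with hE
  have hn1 : (1 : ℝ) ≤ n := by exact_mod_cast hn
  have hn0 : (0 : ℝ) < n := by linarith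
  have hG : hsI.chm (n + 2) ≤ ENNReal.ofReal ((C : ℝ) * ((n : ℝ) + 3) ^ D) := by
    refine (h (n + 2)).trans (le_of_eq ?_)
    rw [ENNReal.ofReal_mul (by positivity), ENNReal.ofReal_pow (by positivity), ENNReal.ofReal_natCast]
    congr 2
    have : ((n : ℝ) + 3) = ((n + 3 : ℕ) : ℝ) := by push_cast; ring
    rw [this, ENNReal.ofReal_natCast]
    push_cast
    rw [add_assoc]
    norm_num
  obtain ⟨h1, h2⟩ := fin_of hn (by positivity) hG
  set B : ℝ := 8 * (1 + 6 * ((C : ℝ) * ((n : ℝ) + 3) ^ D)) ^ 2 with hB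
  have hB0 : 0 < B := by positivity
  have e1 : (C : ℝ) * ((n : ℝ) + 3) ^ D ≤ C * 4 ^ D * (n : ℝ) ^ D := by
    rw [mul_assoc, ← mul_pow]
    gcongr
    linarith
  have hnD : (1 : ℝ) ≤ (n : ℝ) ^ D := one_le_pow₀ hn1
  have e2 : B ≤ A * (n : ℝ) ^ (2 * D) := by
    have e3 : 1 + 6 * ((C : ℝ) * ((n : ℝ) + 3) ^ D) ≤ (1 + 6 * (C * 4 ^ D)) * (n : ℝ) ^ D := by
      have : (1 + 6 * ((C : ℝ) * 4 ^ D)) * (n : ℝ) ^ D = (n : ℝ) ^ D + 6 * (C * 4 ^ D * (n : ℝ) ^ D) := by ring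
      rw [this]
      linarith
    calc B ≤ 8 * ((1 + 6 * (C * 4 ^ D)) * (n : ℝ) ^ D) ^ 2 := by
          rw [hB]; gcongr
      _ = A * (n : ℝ) ^ (2 * D) := by rw [hA]; ring
  have e4 : (n : ℝ) ^ (4 * D) ≤ (n : ℝ) ^ E := by
    rw [← Real.rpow_natCast (n : ℝ) (4 * D)]
    apply Real.rpow_le_rpow_of_exponent_le hn1
    push_cast
    exact le_max_right _ _
  have e5 : B ^ 2 ≤ E * (n : ℝ) ^ E := by
    calc B ^ 2 ≤ (A * (n : ℝ) ^ (2 * D)) ^ 2 := by gcongr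
      _ = A ^ 2 * (n : ℝ) ^ (4 * D) := by ring
      _ ≤ E * (n : ℝ) ^ E := mul_le_mul (le_max_left _ _) e4 (by positivity) (by positivity)
  have hB1 : 1 ≤ B := by
    have h3 : (0 : ℝ) ≤ 6 * ((C : ℝ) * ((n : ℝ) + 3) ^ D) := by positivity
    have : 1 ≤ (1 + 6 * ((C : ℝ) * ((n : ℝ) + 3) ^ D)) ^ 2 := one_le_pow₀ (by linarith)
    rw [hB]; linarith
  constructor
  · refine h1.trans ?_
    rw [mul_comm]
    have hmu : 0 < Pool.Agent.Hhelper14.Honeycomb.muL := by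
      rw [muL_eq hw_quant]; exact mu_pos
    refine mul_le_mul_of_nonneg_right ?_ (by positivity)
    exact le_trans (by nlinarith) e5
  · refine le_trans ?_ h2
    exact inv_anti₀ (by positivity) e5

/-- Bounds `exp (C (log (n + 2)) ^ A)`. -/
theorem fin_log (A : ℕ) (h : ∃ C : ℝ, 0 < C ∧ ∀ n : ℕ, 1 ≤ n →
      hsI.chm n ≤ ENNReal.ofReal (Real.exp (C * (1 + Real.log n) ^ A))) :
    ∃ C : ℝ, 0 < C ∧ ∀ n : ℕ, 1 ≤ n →
    (Pool.Agent.Hhelper14.Honeycomb.a n : ℝ) ≤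
      Pool.Agent.Hhelper14.Honeycomb.muL ^ n * Real.exp (C * (Real.log (n + 1)) ^ A) ∧
    Real.exp (-(C * (Real.log (n + 1)) ^ A)) ≤ Pool.Agent.Hhelper14.Honeycomb.P n := by
  obtain ⟨C, hC, h⟩ := h
  have hl2 : 0 < Real.log 2 := Real.log_pos (by norm_num)
  -- `1 + log (n + 2) ≤ K log (n + 1)`
  set K : ℝ := 2 + 1 / Real.log 2 with hK
  have hK0 : 0 < K := by positivity
  set D : ℝ := Real.log 392 / (Real.log 2) ^ A with hD
  have hD0 : 0 < D := div_pos (Real.log_pos (by norm_num)) (by positivity)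
  refine ⟨2 * (2 * C * K ^ A + D), by positivity, fun n hn => ?_⟩
  have hn1 : (1 : ℝ) ≤ n := by exact_mod_cast hn
  set t : ℝ := Real.log (n + 1) with ht
  have ht2 : Real.log 2 ≤ t := Real.log_le_log (by norm_num) (by linarith)
  have ht0 : 0 < t := by linarith
  have e1 : 1 + Real.log ((n + 2 : ℕ) : ℝ) ≤ K * t := by
    have e2 : Real.log ((n + 2 : ℕ) : ℝ) ≤ 2 * t := by
      have : Real.log (((n : ℝ) + 1) ^ 2) = 2 * t := by rw [Real.log_pow]; norm_num [ht]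
      rw [← this]
      apply Real.log_le_log (by positivity)
      push_cast
      nlinarith
    have e3 : 1 ≤ 1 / Real.log 2 * t := by
      rw [one_div, inv_mul_eq_div, le_div_iff₀ hl2]; linarith
    rw [hK]; linarith
  have hlog0 : 0 ≤ Real.log ((n + 2 : ℕ) : ℝ) := Real.log_nonneg (by push_cast; linarith)
  have e4 : (1 + Real.log ((n + 2 : ℕ) : ℝ)) ^ A ≤ K ^ A * t ^ A := by
    rw [← mul_pow]
    exact pow_le_pow_left₀ (by linarith) e1 A
  set g : ℝ := C * (K ^ A * t ^ A) with hg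
  have hg0 : 0 ≤ g := by positivity
  have hG : hsI.chm (n + 2) ≤ ENNReal.ofReal (Real.exp g) :=
    (h (n + 2) (by omega)).trans (ENNReal.ofReal_le_ofReal (Real.exp_le_exp.2 (mul_le_mul_of_nonneg_left e4 hC.le)))
  obtain ⟨h1, h2⟩ := fin_of hn (Real.exp_pos _).le hG
  set B : ℝ := 8 * (1 + 6 * Real.exp g) ^ 2 with hB
  have hB0 : 0 < B := by positivity
  have hE : 1 ≤ Real.exp g := Real.one_le_exp hg0
  have e5 : B ≤ Real.exp ((2 * C * K ^ A + D) * t ^ A) := by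
    calc B ≤ 8 * (7 * Real.exp g) ^ 2 := by rw [hB]; gcongr; linarith
      _ = 392 * Real.exp (2 * g) := by
          have : Real.exp (2 * g) = Real.exp g ^ 2 := by
            rw [← Real.exp_nat_mul]; norm_num
          rw [this]; ring
      _ = Real.exp (Real.log 392) * Real.exp (2 * g) := by rw [Real.exp_log (by norm_num)]
      _ ≤ Real.exp ((2 * C * K ^ A + D) * t ^ A) := by
          rw [← Real.exp_add]
          apply Real.exp_le_exp.2
          have e6 : Real.log 392 ≤ D * t ^ A := by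
            have h3 : (Real.log 2) ^ A ≤ t ^ A := pow_le_pow_left₀ hl2.le ht2 A
            calc Real.log 392 = D * (Real.log 2) ^ A := by rw [hD]; field_simp
              _ ≤ D * t ^ A := mul_le_mul_of_nonneg_left h3 hD0.le
          have : (2 * C * K ^ A + D) * t ^ A = 2 * g + D * t ^ A := by rw [hg]; ring
          rw [this]; linarith
  have hQ0 : 0 ≤ (2 * C * K ^ A + D) * t ^ A := by positivity
  constructor
  · refine h1.trans (mul_le_mul_of_nonneg_left (e5.trans (Real.exp_le_exp.2 ?_)) ?_)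
    · nlinarith
    · rw [muL_eq hw_quant]; exact (pow_pos mu_pos n).le
  · refine le_trans ?_ h2
    rw [Real.exp_neg]
    refine inv_anti₀ (by positivity) ?_
    calc B ^ 2 ≤ (Real.exp ((2 * C * K ^ A + D) * t ^ A)) ^ 2 := by gcongr
      _ = Real.exp (2 * (2 * C * K ^ A + D) * t ^ A) := by
          rw [← Real.exp_nat_mul]; congr 1; push_cast; ring

end Pool.Agent.HEP
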