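import Pool.Agent.GAP.ISys

/-!
Project GAP, geometry, module IExt: the long leg of a good pair may be extended (strictly above the level of the short leg) and shortened.

PAPER PROOF. Conventions of HEP/GSys. `d true = 1`, `d false = 0` (natural subtraction `h l - d σ`).
FRAMES. `l ≠ []`, `l' ≠ []`: `X = jn l.reverse` in `Br a`, `a + 1 = hj l`; `X' = jn l'.reverse` in `Br a'`; `jn (l ++ l').reverse = X' ++ rt X' :: X` (`List.reverse_append`, `jn_append`). By `app_right` (see GPLA, GPLB):
`V (X' ++ rt X' :: X) = V X' ++ (V X).map (E X' + (1, 0) + ·)`, `fe (X' ++ rt X' :: X) = (E X' + (1, 0)) + fe X` (private `GPLB_fe`, copy). In the frame of `X` the points of `X'` have `F0 ≤ -2`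
(`F0 z ≤ 3 a' + 1`, minus `3 a' + 3`), and `E X'` is the point `o' = (-1, 0)`.
`σ = true` (`l` = leg 1). `rowT (l ++ l') j`: the point `z'` contributes if `F0 (fe' + (-1, 0) - z') = 3 j`. For `z' = E X' + (1, 0) + z`, `z ∈ V X`: `fe' + (-1, 0) - z' = fe X + (-1, 0) - z`: the same values as in `rowT l j`.
For the points `z'` of `X'` (and `o'` behind the beginning of `X'`): `F0 (fe' + (-1, 0) - z') = 3 a - 2 - F0 (z' in the frame of X) ≥ 3 a`, with equality iff the point is in the row `F0 = -2` of the frame of `X`.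
(EXT) If `h s < h l - 1`, i.e. `h s ≤ a - 1`: `3 (h s) < 3 a`, so `rowT (l ++ l') (h s) = rowT l (h s)` (the point `o'` of `rowT l` gives `3 a`, too): `hi`, `lo` do not change, `ps` neither. Avoidance: `V (fw (jn (l ++ l').reverse) (jn s))`
= points of `X'`, then (shifted) the points of `fw X (jn s)` (`fw_V`); the latter have `F0 ≥ 0` in the frame of `X` (`jn s` in `Br (h s - 1)`: its points are `fe X + (-1, 0) - w`, `F0 = 3 a - 2 - F0 w ≥ 3 a - 2 - (3 (h s - 1) + 1) ≥ 3`), the former `≤ -2`; each list is nodup (`X'` is a bridge).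
Cases: `l' = []` trivial; `s = []`: `good` is `Av` (true by definition of `AvI`), `h s = 0`, and `os` by its first clause; `l = []` impossible (`h s < 0`).
(RES) `h s ≤ h l - 1`. `av` by `AvI_pre`. If `s = []` trivial. Then `h s ≥ 1`, so `l ≠ []`. `rowT l (h s) ⊆ rowT (l ++ l') (h s)` (the point `o'` of the frame of `X` is `E X'`, a vertex of `X'`, if `l' ≠ []`), nonempty and finite (bounded): so `sSup`, `sInf` compare in the right direction
(`csSup_le_csSup`, `csInf_le_csInf`); boundedness: finite sets (image of `o' :: V (..)`, see GPL), nonempty: `GPL_cross` of HEP/GPL (private, copy) or `o'` if `h s = a`.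
`σ = false` (`l` = leg 2, `s` = leg 1): `V (jn (l ++ l')) = V (jn l) ++ (V (jn l')).map (E (jn l) + (1, 0) + ·)`, the second part has `F0 ≥ 3 hj l`. `rowF (l ++ l') (h s)`: `F0 z = 3 (h s) - 3 < 3 hj l` (as `h s ≤ h l`), so `rowF (l ++ l') (h s) = rowF l (h s)`: `os` is the same statement for
`l` and `l ++ l'`. Avoidance (EXT), `Z = jn s.reverse` in `Br (h s - 1)`: the points of `jn l'` are, in the frame of `Z`, `fe Z + (-1, 0) - w`, `F0 = 3 (h s - 1) - 2 - F0 w ≤ 3 (h s - 1) - 2 - 3 (h l) < 0`: different from `V Z`, `fe Z`, and from the points of `jn l` by nodup of `V (jn (l ++ l'))`.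
(This also holds for `h s ≤ h l`.)
-/

namespace Pool.Agent.HEP

open Pool.Agent.Hhelper14.SAW Pool.Agent.HHP
open scoped ENNReal

private lemma IExt_fe {a' : ℕ} {X' X : List Bool} (hX' : Br a' X') :
    fe (X' ++ rt X' :: X) = (E X' + (1, 0)) + fe X := by
  obtain ⟨-, h2, h3⟩ := app_right (Q := X) hX'.tn_rt
  have hrt : rt (X' ++ rt X' :: X) = rt X := by
    change decide (Dr (X' ++ rt X' :: X) = (1, -1)) = decide (Dr X = (1, -1))
    rw [h3]
  rw [fe_eq, fe_eq, hrt, h2, h3, add_assoc]

/-- The frame of a fold word with a longer first leg. -/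
private lemma IExt_shift {a' a : ℕ} {X' X : List Bool} (hX' : Br a' X') (hX : Br a X) (Y : List Bool) :
    V (fw (X' ++ rt X' :: X) Y) = V X' ++ (V (fw X Y)).map (fun z => (E X' + (1, 0)) + z) := by
  obtain ⟨h1, -, -⟩ := app_right (Q := X) hX'.tn_rt
  rw [(fw_V (join_Br hX' hX) Y).1, (fw_V hX Y).1, h1, IExt_fe hX']
  simp only [List.map_append, List.map_cons, List.map_map, List.append_assoc]
  congr 3
  refine List.map_congr_left fun z _ => ?_
  simp only [Function.comp_apply]
  ring

private lemma IExt_pre {a c : ℕ} {X Y : List Bool} (hX : Br a X) (hY : Br c Y) (Y' : List Bool) :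
    V (fw X (Y ++ rt Y :: Y')) = V (fw X Y) ++ (V Y').map (fun z => (fe X + (-1, 0)) - ((E Y + (1, 0)) + z)) := by
  rw [(fw_V hX _).1, (fw_V hX _).1, (app_right (Q := Y') hY.tn_rt).1]
  simp

/-- Crossings of a line. -/
private lemma IExt_cross {c m : ℕ} {Y : List Bool} (hY : Br c Y) (h1 : 1 ≤ m) (h2 : m ≤ c) :
    (∃ z ∈ V Y, F0 z = 3 * (m : ℤ) - 2) ∧ ∃ z ∈ V Y, F0 z = 3 * (m : ℤ) := by
  rcases split_last (fun z => F0 z < 3 * (m : ℤ)) (W := Y) ⟨(0, 0), o_mem Y, by
      simp only [F0]; omega⟩ with h3 | ⟨P, b, Q, rfl, h3, h4⟩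
  · have := hY.2
    omega
  · have h5 := cross_right (gd_std P) h3 (not_lt.1 (h4 _ (head_mem _ _ _)))
    refine ⟨⟨E P, ?_, h5.2.1⟩, ⟨E P + tn b (Dr P), ?_, h5.2.2⟩⟩
    · rw [V_append]
      exact List.mem_append_left _ (E_mem P)
    · rw [V_append]
      exact List.mem_append_right _ (head_mem _ _ _)

private lemma IExt_finT (l : List Blk) (j : ℕ) : (rowT l j).Finite := by
  refine (((List.finite_toSet (o' :: V (jn l.reverse))).image
      (fun z => (fe (jn l.reverse) + (-1, 0) - z).2))).subset ?_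
  rintro y ⟨z, hz, -, rfl⟩
  refine ⟨z, ?_, rfl⟩
  rcases hz with rfl | hz
  · exact List.mem_cons_self
  · exact List.mem_cons_of_mem _ hz

/-- The bridge of the older leg. -/
private lemma IExt_br {l : List Blk} (hl : l ≠ []) : Br (hj l - 1) (jn l.reverse) := by
  have hlr : l.reverse ≠ [] := by simpa using hl
  have := jn_Br hlr
  have hhr : hj l.reverse = hj l := hsI.h_reverse l
  rwa [hhr] at this

/-- Short rows of the older leg, nonempty. -/
private lemma IExt_neT {l : List Blk} {j : ℕ} (hl : l ≠ []) (hj1 : j ≤ hj l - 1) (hj0 : 1 ≤ j) : (rowT l j).Nonempty := by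
  have hX := IExt_br hl
  have hfe := fe_F0 hX
  have hoF : F0 o' = -2 := by decide
  rcases Nat.eq_or_lt_of_le hj1 with hm | hm
  · refine ⟨_, o', Or.inl rfl, ?_, rfl⟩
    rw [F0_sub, F0_add, hfe, hoF]
    simp only [F0]
    omega
  · obtain ⟨⟨z, hz, hr⟩, -⟩ := IExt_cross (m := hj l - 1 - j) hX (by omega) (by omega)
    refine ⟨_, z, Or.inr hz, ?_, rfl⟩
    rw [F0_sub, F0_add, hfe, hr]
    simp only [F0]
    omega

/-- The rows grow with the older leg. -/
private lemma IExt_subT {l l' : List Blk} (hl : l ≠ []) (j : ℕ) : rowT l j ⊆ rowT (l ++ l') j := by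
  by_cases hl' : l' = []
  · subst hl'
    rw [List.append_nil]
  · have hX := IExt_br hl
    have hX' := IExt_br hl'
    have hlr : l.reverse ≠ [] := by simpa using hl
    have hlr' : l'.reverse ≠ [] := by simpa using hl'
    have hw := (app_right (Q := jn l.reverse) hX'.tn_rt).1
    rintro y ⟨z, hz, hF, rfl⟩
    have hd : fe (jn (l ++ l').reverse) + (-1, 0) - ((E (jn l'.reverse) + (1, 0)) + z) =
        fe (jn l.reverse) + (-1, 0) - z := by
      rw [List.reverse_append, jn_append hlr' hlr, IExt_fe hX']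
      ring
    refine ⟨(E (jn l'.reverse) + (1, 0)) + z, ?_, ?_, ?_⟩
    · right
      rw [List.reverse_append, jn_append hlr' hlr, hw, List.mem_append]
      rcases hz with rfl | hz
      · left
        have : E (jn l'.reverse) + (1, 0) + o' = E (jn l'.reverse) := by
          rw [add_assoc]
          have : ((1, 0) : ℤ × ℤ) + o' = 0 := by decide
          rw [this, add_zero]
        rw [this]
        exact E_mem _
      · right
        exact List.mem_map_of_mem hz
    · rw [hd]; exact hF
    · rw [hd]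

/-- Below the end of the older leg the rows do not grow. -/
private lemma IExt_eqT {l l' : List Blk} {j : ℕ} (hl : l ≠ []) (hlt : j < hj l - 1) : rowT (l ++ l') j = rowT l j := by
  refine Set.Subset.antisymm ?_ (IExt_subT hl j)
  by_cases hl' : l' = []
  · subst hl'
    rw [List.append_nil]
  · have hX := IExt_br hl
    have hX' := IExt_br hl'
    have hlr : l.reverse ≠ [] := by simpa using hl
    have hlr' : l'.reverse ≠ [] := by simpa using hl'
    have hw := (app_right (Q := jn l.reverse) hX'.tn_rt).1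
    have hfe := fe_F0 hX
    have hEX' := hX'.2
    rintro y ⟨z, hz, hF, rfl⟩
    rw [List.reverse_append, jn_append hlr' hlr, IExt_fe hX'] at hF ⊢
    rw [List.reverse_append, jn_append hlr' hlr, hw, List.mem_append, List.mem_map] at hz
    have hFz : F0 z = 3 * ((hj l' - 1 : ℕ) : ℤ) + 3 * ((hj l - 1 : ℕ) : ℤ) + 1 - 3 * j := by
      rw [F0_sub, F0_add, F0_add, F0_add, hfe, hEX'] at hF
      simp only [F0] at hF ⊢
      omega
    have hoF : F0 o' = -2 := by decide
    rcases hz with rfl | hz | ⟨w, hw, rfl⟩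
    · omega
    · have := (hX'.1.2 z hz).2
      omega
    · have hd : E (jn l'.reverse) + (1, 0) + fe (jn l.reverse) + (-1, 0) - (E (jn l'.reverse) + (1, 0) + w) =
          fe (jn l.reverse) + (-1, 0) - w := by ring
      rw [hd] at hF ⊢
      exact ⟨w, Or.inr hw, hF, rfl⟩

/-- Rows of the younger leg. -/
private lemma IExt_eqF {l l' : List Blk} {j : ℕ} (hlt : j ≤ hj l) (hj0 : 1 ≤ j) : rowF (l ++ l') j = rowF l j := by
  by_cases hl' : l' = []
  · subst hl'
    rw [List.append_nil]
  have hl : l ≠ [] := by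
    rintro rfl
    rw [hj_nil] at hlt
    omega
  have hY := jn_Br hl
  have hY' := jn_Br hl'
  have hw := (app_right (Q := jn l') hY.tn_rt).1
  have hE := hY.2
  have hp := hj_pos hl
  ext y
  constructor
  · rintro ⟨z, hz, hF, rfl⟩
    rw [jn_append hl hl', hw, List.mem_append, List.mem_map] at hz
    rcases hz with hz | ⟨w, hw, rfl⟩
    · exact ⟨z, hz, hF, rfl⟩
    · exfalso
      have := (hY'.1.2 w hw).1
      rw [F0_add, F0_add, hE] at hF
      simp only [F0] at hF this
      omega
  · rintro ⟨z, hz, hF, rfl⟩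
    refine ⟨z, ?_, hF, rfl⟩
    rw [jn_append hl hl', hw]
    exact List.mem_append_left _ hz

private lemma IExt_avT {l l' s : List Blk} (h : AvI l s) (h1 : hj s < hj l - 1) : AvI (l ++ l') s := by
  by_cases hs : s = []
  · exact Or.inr (Or.inl hs)
  have hl : l ≠ [] := by
    rintro rfl
    rw [hj_nil] at h1
    omega
  by_cases hl' : l' = []
  · subst hl'
    rwa [List.append_nil]
  have hN : (V (fw (jn l.reverse) (jn s))).Nodup := by
    rcases h with h | h | h
    · exact absurd h hl
    · exact absurd h hs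
    · exact h
  have hX := IExt_br hl
  have hX' := IExt_br hl'
  have hY := jn_Br hs
  have hlr : l.reverse ≠ [] := by simpa using hl
  have hlr' : l'.reverse ≠ [] := by simpa using hl'
  have hfe := fe_F0 hX
  have hEX' := hX'.2
  have hsp := hj_pos hs
  right; right
  rw [List.reverse_append, jn_append hlr' hlr, IExt_shift hX' hX, List.nodup_append]
  refine ⟨hX'.1.1, hN.map (add_right_injective _), ?_⟩
  intro z hz z' hz' he
  subst he
  rw [List.mem_map] at hz'
  obtain ⟨w, hw, he⟩ := hz'
  have h2 := (hX'.1.2 z hz).2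
  rw [← he, F0_add, F0_add, hEX'] at h2
  have h3 : 0 ≤ F0 w := by
    rw [(fw_V hX _).1, List.mem_append, List.mem_cons, List.mem_map] at hw
    rcases hw with hw | rfl | ⟨u, hu, rfl⟩
    · exact (hX.1.2 w hw).1
    · rw [hfe]; omega
    · have h4 := (hY.1.2 u hu).2
      rw [F0_sub, F0_add, hfe]
      simp only [F0] at h4 ⊢
      omega
  simp only [F0] at h2 h3
  omega

private lemma IExt_avF {l l' s : List Blk} (h : AvI s l) (h1 : hj s ≤ hj l) : AvI s (l ++ l') := by
  by_cases hs : s = []
  · exact Or.inl hs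
  have hsp := hj_pos hs
  have hl : l ≠ [] := by
    rintro rfl
    rw [hj_nil] at h1
    omega
  by_cases hl' : l' = []
  · subst hl'
    rwa [List.append_nil]
  have hN : (V (fw (jn s.reverse) (jn l))).Nodup := by
    rcases h with h | h | h
    · exact absurd h hs
    · exact absurd h hl
    · exact h
  have hZ := IExt_br hs
  have hY := jn_Br hl
  have hY' := jn_Br hl'
  have hlp := hj_pos hl
  have hfe := fe_F0 hZ
  have hE := hY.2
  right; right
  rw [jn_append hl hl', IExt_pre hZ hY, List.nodup_append]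
  refine ⟨hN, hY'.1.1.map ?_, ?_⟩
  · intro x y hxy
    simpa using hxy
  intro z hz z' hz' he
  subst he
  rw [List.mem_map] at hz'
  obtain ⟨w, hw, he⟩ := hz'
  have h2 := (hY'.1.2 w hw).1
  have h3 : 3 * ((hj s - 1 : ℕ) : ℤ) - 2 - (3 * ((hj l - 1 : ℕ) : ℤ) + 1) ≤ F0 z := by
    rw [(fw_V hZ _).1, List.mem_append, List.mem_cons, List.mem_map] at hz
    rcases hz with hz | rfl | ⟨u, hu, rfl⟩
    · have := (hZ.1.2 z hz).1
      omega
    · rw [hfe]; omega
    · have h4 := (hY.1.2 u hu).2
      rw [F0_sub, F0_add, hfe]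
      simp only [F0] at h4 ⊢
      omega
  rw [← he, F0_sub, F0_add, F0_add, F0_add, hfe, hE] at h3
  simp only [F0] at h2 h3
  omega

theorem hsI_ext (σ : Bool) (G : ℕ) (l l' s : List Blk) (h : hsI.good σ G l s) (h1 : hsI.h s < hsI.h l - Sys.d σ) :
    hsI.good σ G (l ++ l') s := by
  obtain ⟨hav, hh, hos⟩ := h
  have hle : hsI.h s ≤ hsI.h (l ++ l') - Sys.d σ := by
    have : hsI.h (l ++ l') = hsI.h l + hsI.h l' := hsI.h_append l l'
    omega
  cases σ with
  | true =>
    have h1' : hj s < hj l - 1 := h1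
    have hl : l ≠ [] := by
      rintro rfl
      rw [hj_nil] at h1'
      omega
    refine ⟨IExt_avT hav h1', hle, ?_⟩
    rcases hos with hos | hos
    · exact Or.inl hos
    · right
      have e := IExt_eqT (l' := l') hl h1'
      change sSup (rowT l (hj s)) + G ≤ hsI.x s ∨ hsI.x s + G ≤ sInf (rowT l (hj s)) at hos
      change sSup (rowT (l ++ l') (hj s)) + G ≤ hsI.x s ∨ hsI.x s + G ≤ sInf (rowT (l ++ l') (hj s))
      rw [e]
      exact hos
  | false =>
    have h1' : hj s < hj l := h1
    refine ⟨IExt_avF hav h1'.le, hle, ?_⟩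
    rcases hos with hos | hos
    · exact Or.inl hos
    · by_cases hs : s = []
      · exact Or.inl hs
      right
      have e := IExt_eqF (l' := l') h1'.le (hj_pos hs)
      change sSup (rowF l (hj s)) + G ≤ hsI.p1 s ∨ hsI.p1 s + G ≤ sInf (rowF l (hj s)) at hos
      change sSup (rowF (l ++ l') (hj s)) + G ≤ hsI.p1 s ∨ hsI.p1 s + G ≤ sInf (rowF (l ++ l') (hj s))
      rw [e]
      exact hos

theorem hsI_res (σ : Bool) (G : ℕ) (l l' s : List Blk) (h : hsI.good σ G (l ++ l') s) (h1 : hsI.h s ≤ hsI.h l - Sys.d σ) :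
    hsI.good σ G l s := by
  obtain ⟨hav, hh, hos⟩ := h
  have hav' : hsI.av σ l s := by
    cases σ
    · exact AvI_pre (l := s) (l' := []) (s := l) (s' := l') (by rw [List.append_nil]; exact hav)
    · exact AvI_pre (l := l) (l' := l') (s := s) (s' := []) (by rw [List.append_nil]; exact hav)
  refine ⟨hav', h1, ?_⟩
  by_cases hs : s = []
  · exact Or.inl hs
  have hsp := hj_pos hs
  cases σ with
  | true =>
    have h1' : hj s ≤ hj l - 1 := h1
    have hl : l ≠ [] := by
      rintro rfl
      rw [hj_nil] at h1'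
      omega
    rcases hos with hos | hos
    · exact Or.inl hos
    · right
      have hsub := IExt_subT (l' := l') hl (hj s)
      have hne := IExt_neT hl h1' hsp
      have hfin := IExt_finT (l ++ l') (hj s)
      have h2 := csSup_le_csSup hfin.bddAbove hne hsub
      have h3 := csInf_le_csInf hfin.bddBelow hne hsub
      change sSup (rowT (l ++ l') (hj s)) + G ≤ hsI.x s ∨ hsI.x s + G ≤ sInf (rowT (l ++ l') (hj s)) at hos
      change sSup (rowT l (hj s)) + G ≤ hsI.x s ∨ hsI.x s + G ≤ sInf (rowT l (hj s))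
      omega
  | false =>
    have h1' : hj s ≤ hj l := h1
    rcases hos with hos | hos
    · exact Or.inl hos
    · right
      have e := IExt_eqF (l' := l') h1' hsp
      change sSup (rowF (l ++ l') (hj s)) + G ≤ hsI.p1 s ∨ hsI.p1 s + G ≤ sInf (rowF (l ++ l') (hj s)) at hos
      change sSup (rowF l (hj s)) + G ≤ hsI.p1 s ∨ hsI.p1 s + G ≤ sInf (rowF l (hj s))
      rw [e] at hos
      exact hos

end Pool.Agent.HEP
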