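import Pool.Agent.GAP.ISys
import Pool.Agent.GAP.SGap
import Pool.Agent.HEP.GC1

/-!
Project GAP, geometry, module IGap: the gap inequality for the pairs of legs.

PAPER PROOF. Adapt HEP/GC1 (`arc_gapT`, `arc_gapF`, `GC1_two`, `GC1_not` and the private lemmas which they use: copy them with new names; `arc`, `arc_inj`, `arc_mass`, `pair_ms` are public and do not depend on `n`).
`q = h s ≥ 1`, `N = h l ≥ q + d σ`, so `s ≠ []`, `l ≠ []`.
(T) `σ = true`: `W = arc true l s = fw X Y`, `X = jn l.reverse` in `Br (N - 1)`, `Y = jn s` in `Br (q - 1)`. Claim: `W` or `W.map (! ·)` is in `GapT (N - 1) (N - 1 - q) G`: `fw_V`: the vertices are those of `X` (`0 ≤ F0 ≤ 3 (N - 1) + 1`), `fe X` (`F0 = 3 (N - 1)`), and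
`fe X + (-1, 0) - w`, `w ∈ V Y` (`F0 = 3 (N - 1) - 2 - F0 w`, between `3 (N - 1 - q)` and `3 (N - 1) - 2`); `E X` has `F0 = 3 (N - 1) + 1` (visit of the column `N - 1`); `F0 (E W) = 3 (N - 1 - q)`, `¬ hz (Dr W)` (`GC1_fwE`). The row `F0 z = 3 (N - 1 - q) - 2`, `z = o'` or `z ∈ V W`: `z` is `o'` or in
`V X` and `(fe X).2 - z.2 ∈ rowT l q`; `(E W).2 = (fe X).2 - (E Y).2`, `ps = (E Y).2` (`hsI_x_eq`). `hi + G ≤ ps` gives `(E W).2 + G ≤ z.2` for all these `z` (`le_csSup`, bounded as finite), then `W.map (! ·)` is in `GapT`; `ps + G ≤ lo` gives `z.2 + G ≤ (E W).2`.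
(In contrast to HEP the row includes `z = o'`, which is in `rowT`; reflection fixes `o'`, `o'.2 = 0`.)
(F) `σ = false`: `W = arc false l s = rvw (fw X Y)`, `X = jn s.reverse` in `Br (q - 1)`, `Y = jn l` in `Br (N - 1)`. Claim: `W` or `W.map (! ·)` is in `GapT N (N + 1 - q) G`: `V W` = (reverse of) `V (fw X Y)` shifted by `- E (fw X Y)`, `F0 (E (fw X Y)) = 3 (q - 1) - 2 - (3 (N - 1) + 1) = - 3 (N + 1 - q)`:
points of `X`: `F0 ∈ [3 (N + 1 - q), 3 N + 1]`, the point `E X` has `F0 = 3 N + 1`; `fe X`: `3 N`; points of `Y`: `3 N - 2 - F0 w ∈ [0, 3 N - 2]`; `F0 (E W) = 3 (N + 1 - q)`. Row `F0 z = 3 (N + 1 - q) - 2`: `z = o'` impossible (`N + 1 - q ≥ 1`); `z` comes from `w ∈ V Y`, `F0 w = 3 q - 3`, and `(E Y).2 - z.2 ∈ rowF l q`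
(the `X` part has `F0 ≥ 3 (N + 1 - q)`). As in `arc_gapF`.
SUM. `∑' l, ∑' s, ind (good ∧ h l = N ∧ h s = q) * (w l * w s) ≤ ∑' l, ∑' s, ind (l ≠ [] ∧ s ≠ [] ∧ P (arc σ l s)) * (wj l * wj s) ≤ 2 * ms xE P` (`pair_ms`), `P W = GapT T δ G W ∨ GapT T δ G (W.map (! ·))`, `ms xE P ≤ 2 * ms xE (GapT T δ G)` (reflection is an involution which keeps the length),
`G * ms xE (GapT T δ G) ≤ 8 * ms xE (Br T)` (`gap_le`; `δ ≤ T + 1`). `T = N - 1`: `ms xE (Br (N - 1)) = hsI.b N` (`hsI_b`, `N ≥ 1`). `T = N`: `ms xE (Br N) = hsI.b (N + 1) ≤ hsI.b N` (`br_anti`, `hsI_b`; `N ≥ 1`). If no pair exists (`N < q + d σ`) the sum is 0. Total `32 * hsI.b N`.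
-/

namespace Pool.Agent.HEP

open Pool.Agent.Hhelper14.SAW Pool.Agent.HHP
open scoped ENNReal

private lemma IGap_hj (l : List Blk) : hj l.reverse = hj l := by
  unfold hj; rw [List.map_reverse, List.sum_reverse]

private lemma IGap_rne {l : List Blk} (hl : l ≠ []) : l.reverse ≠ [] := by simpa using hl

private lemma IGap_brr {l : List Blk} (hl : l ≠ []) : Br (hj l - 1) (jn l.reverse) := by
  have := jn_Br (IGap_rne hl)
  rwa [IGap_hj] at this

private lemma IGap_fwE {a c : ℕ} {X Y : List Bool} (hX : Br a X) (hY : Br c Y) :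
    F0 (E (fw X Y)) = 3 * ((a : ℤ) - c - 1) ∧ ¬ hz (Dr (fw X Y)) := by
  obtain ⟨-, h2, h3, -⟩ := fw_V hX Y
  constructor
  · rw [h2, F0_sub, F0_add, fe_F0 hX, hY.2]
    simp only [F0]
    ring
  · rw [h3, hz_neg]
    exact hY.not_hz

private lemma IGap_rvw {a c : ℕ} {X Y : List Bool} (hX : Br a X) (hY : Br c Y) :
    V (rvw (fw X Y)) = ((V (fw X Y)).reverse).map (fun z => z - E (fw X Y)) ∧ E (rvw (fw X Y)) = - E (fw X Y) ∧
      ¬ hz (Dr (rvw (fw X Y))) ∧ (rvw (fw X Y)).length = (fw X Y).length ∧ rvw (rvw (fw X Y)) = fw X Y := by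
  obtain ⟨h1, h2⟩ := IGap_fwE hX hY
  exact rvw_spec (by rw [h1]; omega) h2

/-- Finite rows. -/
private lemma IGap_fin {α : Type} (L : List α) (f : α → ℤ) (S : Set ℤ) (h : ∀ y ∈ S, ∃ z ∈ L, y = f z) :
    BddAbove S ∧ BddBelow S := by
  have : S ⊆ (f '' {z | z ∈ L}) := by
    intro y hy
    obtain ⟨z, hz, rfl⟩ := h y hy
    exact ⟨z, hz, rfl⟩
  have h1 : S.Finite := Set.Finite.subset (Set.Finite.image f (List.finite_toSet L)) this
  exact ⟨h1.bddAbove, h1.bddBelow⟩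

private lemma IGap_rowT (l : List Blk) (j : ℕ) : BddAbove (rowT l j) ∧ BddBelow (rowT l j) := by
  refine IGap_fin (o' :: V (jn l.reverse)) (fun z => (fe (jn l.reverse) + (-1, 0) - z).2) _ ?_
  rintro y ⟨z, h1, -, h2⟩
  exact ⟨z, by simpa using h1, h2⟩

private lemma IGap_rowF (l : List Blk) (j : ℕ) : BddAbove (rowF l j) ∧ BddBelow (rowF l j) := by
  refine IGap_fin (V (jn l)) (fun z => z.2) _ ?_
  rintro y ⟨z, h1, -, h2⟩
  exact ⟨z, h1, h2⟩

private lemma IGap_not {T δ G : ℕ} {W : List Bool} (a1 : (V W).Nodup)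
    (a2 : ∀ z ∈ V W, 0 ≤ F0 z ∧ F0 z ≤ 3 * (T : ℤ) + 1) (a3 : ∃ z ∈ V W, 3 * (T : ℤ) ≤ F0 z)
    (a4 : F0 (E W) = 3 * (δ : ℤ)) (a5 : ¬ hz (Dr W))
    (a6 : ∀ z, (z = o' ∨ z ∈ V W) → F0 z = 3 * (δ : ℤ) - 2 → (E W).2 + G ≤ z.2) :
    GapT T δ G (W.map (! ·)) := by
  refine ⟨?_, ?_, ?_, ?_, ?_, ?_⟩
  · rw [V_not]; exact a1.map sg_inj
  · intro z hz
    rw [V_not, List.mem_map] at hz
    obtain ⟨y, hy, rfl⟩ := hz
    rw [F0_sg]; exact a2 y hy
  · obtain ⟨z, hz, h⟩ := a3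
    refine ⟨sg z, ?_, by rw [F0_sg]; exact h⟩
    rw [V_not]; exact List.mem_map_of_mem hz
  · rw [E_not, F0_sg]; exact a4
  · rw [Dr_not, hz_sg]; exact a5
  · rintro z (rfl | hz) h
    · have h1 := a6 o' (Or.inl rfl) h
      have h2 : (o').2 = 0 := by decide
      rw [E_not]
      change (o').2 + G ≤ -(E W).2
      omega
    · rw [V_not, List.mem_map] at hz
      obtain ⟨y, hy, rfl⟩ := hz
      rw [F0_sg] at h
      have := a6 y (Or.inr hy) h
      rw [E_not]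
      change -y.2 + G ≤ -(E W).2
      omega

private lemma IGap_two {T δ G : ℕ} {W : List Bool} (a1 : (V W).Nodup)
    (a2 : ∀ z ∈ V W, 0 ≤ F0 z ∧ F0 z ≤ 3 * (T : ℤ) + 1) (a3 : ∃ z ∈ V W, 3 * (T : ℤ) ≤ F0 z)
    (a4 : F0 (E W) = 3 * (δ : ℤ)) (a5 : ¬ hz (Dr W))
    (a6 : (∀ z, (z = o' ∨ z ∈ V W) → F0 z = 3 * (δ : ℤ) - 2 → (E W).2 + G ≤ z.2) ∨
      ∀ z, (z = o' ∨ z ∈ V W) → F0 z = 3 * (δ : ℤ) - 2 → z.2 + G ≤ (E W).2) :
    GapT T δ G W ∨ GapT T δ G (W.map (! ·)) := by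
  rcases a6 with a6 | a6
  · exact Or.inr (IGap_not a1 a2 a3 a4 a5 a6)
  · exact Or.inl ⟨a1, a2, a3, a4, a5, a6⟩

private lemma IGap_T {G : ℕ} {l s : List Blk} (hl0 : l ≠ []) (hs0 : s ≠ []) (hg : hsI.good true G l s) :
    GapT (hj l - 1) (hj l - 1 - hj s) G (arc true l s) ∨
      GapT (hj l - 1) (hj l - 1 - hj s) G ((arc true l s).map (! ·)) := by
  have hg' : AvI l s ∧ hj s ≤ hj l - 1 ∧ (s = [] ∨ sSup (rowT l (hj s)) + G ≤ hsI.x s ∨
      hsI.x s + G ≤ sInf (rowT l (hj s))) := hg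
  obtain ⟨hav, hle, hos⟩ := hg'
  have hN : (V (fw (jn l.reverse) (jn s))).Nodup := by
    rcases hav with h | h | h
    · exact absurd h hl0
    · exact absurd h hs0
    · exact h
  have hx : hsI.x s = (E (jn s)).2 := hsI_x_eq hs0
  rw [hx] at hos
  have hBX := IGap_brr hl0
  have hBY := jn_Br hs0
  have hfe := fe_F0 hBX
  obtain ⟨v1, v2, v3, -⟩ := fw_V hBX (jn s)
  obtain ⟨u1, u2⟩ := IGap_fwE hBX hBY
  have hE2 : (E (arc true l s)).2 = (fe (jn l.reverse)).2 - (E (jn s)).2 := by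
    change (E (fw (jn l.reverse) (jn s))).2 = _
    rw [v2]
    simp
  have p1 := hj_pos hs0
  have p2 := hj_pos hl0
  have hac : ((hj l - 1 : ℕ) : ℤ) = ((hj s - 1 : ℕ) : ℤ) + 1 + ((hj l - 1 - hj s : ℕ) : ℤ) := by omega
  have hY : ∀ w ∈ V (jn s), 0 ≤ F0 w ∧ F0 w ≤ 3 * ((hj s - 1 : ℕ) : ℤ) + 1 := hBY.1.2
  have hXV : ∀ w ∈ V (jn l.reverse), 0 ≤ F0 w ∧ F0 w ≤ 3 * ((hj l - 1 : ℕ) : ℤ) + 1 := hBX.1.2
  have hFw : ∀ w : ℤ × ℤ, F0 (fe (jn l.reverse) + (-1, 0) - w) = 3 * ((hj l - 1 : ℕ) : ℤ) - 2 - F0 w := by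
    intro w
    rw [F0_sub, F0_add, hfe]
    simp only [F0]
    ring
  have hrow : ∀ z, (z = o' ∨ z ∈ V (arc true l s)) → F0 z = 3 * ((hj l - 1 - hj s : ℕ) : ℤ) - 2 →
      (fe (jn l.reverse)).2 - z.2 ∈ rowT l (hj s) := by
    intro z hz h
    rcases hz with hz | hz
    · refine ⟨z, Or.inl hz, ?_, by simp⟩
      rw [hFw, h]; omega
    have hz' : z ∈ V (fw (jn l.reverse) (jn s)) := hz
    rw [v1, List.mem_append, List.mem_cons, List.mem_map] at hz'
    rcases hz' with hz' | rfl | ⟨w, hw, rfl⟩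
    · refine ⟨z, Or.inr hz', ?_, by simp⟩
      rw [hFw, h]; omega
    · rw [hfe] at h; omega
    · rw [hFw] at h
      have := hY w hw
      omega
  refine IGap_two hN ?_ ?_ ?_ u2 ?_
  · intro z hz
    have hz' : z ∈ V (fw (jn l.reverse) (jn s)) := hz
    rw [v1, List.mem_append, List.mem_cons, List.mem_map] at hz'
    rcases hz' with hz' | rfl | ⟨w, hw, rfl⟩
    · exact hXV z hz'
    · rw [hfe]
      constructor
      · positivity
      · omega
    · rw [hFw]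
      have := hY w hw
      constructor <;> omega
  · refine ⟨E (jn l.reverse), ?_, ?_⟩
    · change _ ∈ V (fw (jn l.reverse) (jn s))
      rw [v1]; exact List.mem_append_left _ (E_mem _)
    · rw [hBX.2]; omega
  · change F0 (E (fw (jn l.reverse) (jn s))) = _
    rw [u1]; omega
  · rw [hE2]
    rcases hos with h | h | h
    · exact absurd h hs0
    · left
      intro z hz hF
      have := le_csSup (IGap_rowT l (hj s)).1 (hrow z hz hF)
      omega
    · right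
      intro z hz hF
      have := csInf_le (IGap_rowT l (hj s)).2 (hrow z hz hF)
      omega

private lemma IGap_F {G : ℕ} {l s : List Blk} (hl0 : l ≠ []) (hs0 : s ≠ []) (hg : hsI.good false G l s) :
    GapT (hj l) (hj l + 1 - hj s) G (arc false l s) ∨
      GapT (hj l) (hj l + 1 - hj s) G ((arc false l s).map (! ·)) := by
  have hg' : AvI s l ∧ hj s ≤ hj l - 0 ∧ (s = [] ∨ sSup (rowF l (hj s)) + G ≤ hsI.p1 s ∨
      hsI.p1 s + G ≤ sInf (rowF l (hj s))) := hg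
  obtain ⟨hav, hle, hos⟩ := hg'
  have hN : (V (fw (jn s.reverse) (jn l))).Nodup := by
    rcases hav with h | h | h
    · exact absurd h hs0
    · exact absurd h hl0
    · exact h
  have hx : hsI.p1 s = (fe (jn s.reverse)).2 := hsI_p1 hs0
  rw [hx] at hos
  have hBX := IGap_brr hs0
  have hBY := jn_Br hl0
  have hfe := fe_F0 hBX
  obtain ⟨v1, v2, v3, -⟩ := fw_V hBX (jn l)
  obtain ⟨u1, u2⟩ := IGap_fwE hBX hBY
  obtain ⟨r1, r2, r3, -, -⟩ := IGap_rvw hBX hBY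
  have hE2 : (E (arc false l s)).2 = (E (jn l)).2 - (fe (jn s.reverse)).2 := by
    change (E (rvw (fw (jn s.reverse) (jn l)))).2 = _
    rw [r2, v2]
    simp
  have p1 := hj_pos hs0
  have p2 := hj_pos hl0
  have hac : ((hj l + 1 - hj s : ℕ) : ℤ) = ((hj l - 1 : ℕ) : ℤ) + 1 - ((hj s - 1 : ℕ) : ℤ) := by omega
  have hlq : ((hj l - 1 : ℕ) : ℤ) = (hj l : ℤ) - 1 := by omega
  have hsq : ((hj s - 1 : ℕ) : ℤ) = (hj s : ℤ) - 1 := by omega
  have hY : ∀ w ∈ V (jn l), 0 ≤ F0 w ∧ F0 w ≤ 3 * ((hj l - 1 : ℕ) : ℤ) + 1 := hBY.1.2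
  have hXV : ∀ w ∈ V (jn s.reverse), 0 ≤ F0 w ∧ F0 w ≤ 3 * ((hj s - 1 : ℕ) : ℤ) + 1 := hBX.1.2
  have hFw : ∀ w : ℤ × ℤ, F0 (fe (jn s.reverse) + (-1, 0) - w) = 3 * ((hj s - 1 : ℕ) : ℤ) - 2 - F0 w := by
    intro w
    rw [F0_sub, F0_add, hfe]
    simp only [F0]
    ring
  have hmem : ∀ z ∈ V (arc false l s), (3 * ((hj l + 1 - hj s : ℕ) : ℤ) ≤ F0 z ∧ F0 z ≤ 3 * (hj l : ℤ) + 1) ∨
      ∃ w ∈ V (jn l), F0 z = 3 * ((hj l - 1 : ℕ) : ℤ) + 1 - F0 w ∧ z.2 = (E (jn l)).2 - w.2 := by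
    intro z hz
    have hz' : z ∈ V (rvw (fw (jn s.reverse) (jn l))) := hz
    rw [r1, List.mem_map] at hz'
    obtain ⟨y, hy, rfl⟩ := hz'
    rw [List.mem_reverse, v1, List.mem_append, List.mem_cons, List.mem_map] at hy
    rcases hy with hy | rfl | ⟨w, hw, rfl⟩
    · left
      have := hXV y hy
      rw [F0_sub, u1]
      constructor <;> omega
    · left
      rw [F0_sub, u1, hfe]
      constructor <;> omega
    · right
      refine ⟨w, hw, ?_, ?_⟩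
      · rw [F0_sub, u1, hFw]; omega
      · rw [v2]; simp
  refine IGap_two ?_ ?_ ?_ ?_ r3 ?_
  · change (V (rvw (fw (jn s.reverse) (jn l)))).Nodup
    rw [r1]
    exact (List.nodup_reverse.2 hN).map fun a b h => by simpa using h
  · intro z hz
    rcases hmem z hz with h | ⟨w, hw, h, -⟩
    · constructor <;> omega
    · have := hY w hw
      constructor <;> omega
  · refine ⟨E (jn s.reverse) - E (fw (jn s.reverse) (jn l)), ?_, ?_⟩
    · change _ ∈ V (rvw (fw (jn s.reverse) (jn l)))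
      rw [r1, List.mem_map]
      refine ⟨E (jn s.reverse), ?_, rfl⟩
      rw [List.mem_reverse, v1]
      exact List.mem_append_left _ (E_mem _)
    · rw [F0_sub, u1, hBX.2]; omega
  · change F0 (E (rvw (fw (jn s.reverse) (jn l)))) = _
    have e : F0 (-E (fw (jn s.reverse) (jn l))) = - F0 (E (fw (jn s.reverse) (jn l))) := by
      simp only [F0, Prod.fst_neg, Prod.snd_neg]
      ring
    rw [r2, e, u1]
    omega
  · have hrow : ∀ z, (z = o' ∨ z ∈ V (arc false l s)) → F0 z = 3 * ((hj l + 1 - hj s : ℕ) : ℤ) - 2 →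
        (E (jn l)).2 - z.2 ∈ rowF l (hj s) := by
      rintro z (rfl | hz) h
      · exfalso
        have h1 : F0 o' = -2 := by decide
        omega
      · rcases hmem z hz with h1 | ⟨w, hw, h1, h2⟩
        · omega
        · refine ⟨w, hw, ?_, ?_⟩
          · omega
          · rw [h2]; ring
    rw [hE2]
    rcases hos with h | h | h
    · exact absurd h hs0
    · left
      intro z hz hF
      have := le_csSup (IGap_rowF l (hj s)).1 (hrow z hz hF)
      omega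
    · right
      intro z hz hF
      have := csInf_le (IGap_rowF l (hj s)).2 (hrow z hz hF)
      omega

/-- The sum over the pairs is at most the mass of the arcs with a gap. -/
private lemma IGap_sum {σ : Bool} {G N q T δ : ℕ} (hq : 1 ≤ q)
    (h : ∀ l s : List Blk, l ≠ [] → s ≠ [] → hsI.good σ G l s → hj l = N → hj s = q →
      GapT T δ G (arc σ l s) ∨ GapT T δ G ((arc σ l s).map (! ·))) :
    ∑' l : List Blk, ∑' s : List Blk, ind (hsI.good σ G l s ∧ hsI.h l = N ∧ hsI.h s = q) * (hsI.w l * hsI.w s) ≤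
      4 * ms xE (GapT T δ G) := by
  have h1 : ∀ l s : List Blk, ind (hsI.good σ G l s ∧ hsI.h l = N ∧ hsI.h s = q) * (hsI.w l * hsI.w s) ≤
      ind (l ≠ [] ∧ s ≠ [] ∧ GapT T δ G (arc σ l s)) * (wj l * wj s) +
      ind (l ≠ [] ∧ s ≠ [] ∧ GapT T δ G ((arc σ l s).map (! ·))) * (wj l * wj s) := by
    intro l s
    by_cases hp : hsI.good σ G l s ∧ hsI.h l = N ∧ hsI.h s = q
    · rw [ind_true hp, one_mul]
      obtain ⟨hg, hN, hs⟩ := hp
      change wj l * wj s ≤ _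
      have hs' : hj s = q := hs
      have hl' : hj l = N := hN
      have hs0 : s ≠ [] := by
        rintro rfl
        rw [hj_nil] at hs'
        omega
      have hl0 : l ≠ [] := by
        rintro rfl
        have h2 : hj s ≤ hj ([] : List Blk) - Sys.d σ := hg.2.1
        rw [hj_nil] at h2
        have := hj_pos hs0
        omega
      rcases h l s hl0 hs0 hg hl' hs' with h | h
      · rw [ind_true (⟨hl0, hs0, h⟩ : l ≠ [] ∧ s ≠ [] ∧ GapT T δ G (arc σ l s)), one_mul]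
        exact le_self_add
      · rw [ind_true (⟨hl0, hs0, h⟩ : l ≠ [] ∧ s ≠ [] ∧ GapT T δ G ((arc σ l s).map (! ·))), one_mul]
        exact le_add_self
    · rw [ind_false hp, zero_mul]; exact zero_le
  refine (ENNReal.tsum_le_tsum fun l => ENNReal.tsum_le_tsum fun s => h1 l s).trans ?_
  simp_rw [ENNReal.tsum_add]
  have h3 := pair_ms σ (GapT T δ G)
  have h4 := pair_ms σ (fun W => GapT T δ G (W.map (! ·)))
  rw [ms_not xE (GapT T δ G)] at h4
  refine (add_le_add h3 h4).trans (le_of_eq ?_)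
  ring

private lemma IGap_b (N : ℕ) (hN : 1 ≤ N) : ms xE (Br (N - 1)) = hsI.b N := by
  obtain ⟨k, rfl⟩ : ∃ k, N = k + 1 := ⟨N - 1, by omega⟩
  rw [hsI_b]
  rfl

private lemma IGap_end {σ : Bool} {G N q T δ : ℕ} (hG : 1 ≤ G) (hq : 1 ≤ q) (hN : 1 ≤ N) (hT : N - 1 ≤ T)
    (hδ : δ ≤ T + 1)
    (h : ∀ l s : List Blk, l ≠ [] → s ≠ [] → hsI.good σ G l s → hj l = N → hj s = q →
      GapT T δ G (arc σ l s) ∨ GapT T δ G ((arc σ l s).map (! ·))) :
    (G : ℝ≥0∞) * ∑' l : List Blk, ∑' s : List Blk, ind (hsI.good σ G l s ∧ hsI.h l = N ∧ hsI.h s = q) *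
      (hsI.w l * hsI.w s) ≤ ((32 : ℕ) : ℝ≥0∞) * hsI.b N := by
  have h1 : ms xE (Br T) ≤ hsI.b N := by
    rw [← IGap_b N hN]
    exact br_anti hT
  calc (G : ℝ≥0∞) * ∑' l : List Blk, ∑' s : List Blk, ind (hsI.good σ G l s ∧ hsI.h l = N ∧ hsI.h s = q) *
        (hsI.w l * hsI.w s) ≤ (G : ℝ≥0∞) * (4 * ms xE (GapT T δ G)) := mul_le_mul_right (IGap_sum hq h) _
    _ = 4 * ((G : ℝ≥0∞) * ms xE (GapT T δ G)) := by ring
    _ ≤ 4 * (8 * ms xE (Br T)) := mul_le_mul_right (gap_le T δ G hδ hG) _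
    _ ≤ 4 * (8 * hsI.b N) := mul_le_mul_right (mul_le_mul_right h1 _) _
    _ = ((32 : ℕ) : ℝ≥0∞) * hsI.b N := by push_cast; ring

theorem hsI_gap (σ : Bool) (G N q : ℕ) (hG : 1 ≤ G) (hq : 1 ≤ q) : (G : ℝ≥0∞) *
    ∑' l : List Blk, ∑' s : List Blk, ind (hsI.good σ G l s ∧ hsI.h l = N ∧ hsI.h s = q) * (hsI.w l * hsI.w s) ≤
      ((32 : ℕ) : ℝ≥0∞) * hsI.b N := by
  by_cases hN : q + Sys.d σ ≤ N
  · cases σ
    · rw [Sys.d_false] at hN
      refine IGap_end (T := N) (δ := N + 1 - q) hG hq (by omega) (by omega) (by omega) ?_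
      intro l s hl0 hs0 hg hl hs
      subst hl hs
      exact IGap_F hl0 hs0 hg
    · rw [Sys.d_true] at hN
      refine IGap_end (T := N - 1) (δ := N - 1 - q) hG hq (by omega) le_rfl (by omega) ?_
      intro l s hl0 hs0 hg hl hs
      subst hl hs
      exact IGap_T hl0 hs0 hg
  · have h1 : ∀ l s : List Blk, ind (hsI.good σ G l s ∧ hsI.h l = N ∧ hsI.h s = q) * (hsI.w l * hsI.w s) = 0 := by
      intro l s
      rw [ind_false, zero_mul]
      rintro ⟨hg, hl, hs⟩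
      have h2 : hsI.h s ≤ hsI.h l - Sys.d σ := hg.2.1
      rw [hl, hs] at h2
      omega
    simp_rw [h1]
    simp

end Pool.Agent.HEP
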