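import Pool.Agent.HEP.GPLB
import Pool.Agent.GAP.ISys

/-!
Project GAP, geometry, module IPL: planarity for the system `hsI` (HEP/GPL with an arbitrary renewal of the longer leg).
-/

namespace Pool.Agent.HEP

open Pool.Agent.Hhelper14.SAW Pool.Agent.HHP
open scoped ENNReal

private lemma GPL_os {R : Set ℤ} {p : ℤ} (hne : R.Nonempty) (hfin : R.Finite)
    (h : (∀ y ∈ R, y < p) ∨ (∀ y ∈ R, p < y)) : sSup R + 1 ≤ p ∨ p + 1 ≤ sInf R := by
  rcases h with h | h
  · left
    have := h _ (Int.csSup_mem hne hfin.bddAbove)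
    omega
  · right
    have := h _ (Int.csInf_mem hne hfin.bddBelow)
    omega

/-- Crossings of a line. -/
private lemma GPL_cross {c m : ℕ} {Y : List Bool} (hY : Br c Y) (h1 : 1 ≤ m) (h2 : m ≤ c) :
    (∃ z ∈ V Y, F0 z = 3 * (m : ℤ) - 2) ∧ ∃ z ∈ V Y, F0 z = 3 * (m : ℤ) := by
  rcases split_last (fun z => F0 z < 3 * (m : ℤ)) (W := Y) ⟨(0, 0), o_mem Y, by
      simp only [F0]; omega⟩ with h3 | ⟨P, b, Q, rfl, h3, h4⟩
  · have := hY.2
    omega
  · have h5 := cross_right (gd_std P) h3 (not_lt.1 (h4 _ (head_mem _ _ _)))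
    refine ⟨⟨E P, ?_, h5.2.1⟩, ⟨E P + tn b (Dr P), ?_, h5.2.2⟩⟩
    · rw [V_append]
      exact List.mem_append_left _ (E_mem P)
    · rw [V_append]
      exact List.mem_append_right _ (head_mem _ _ _)

private lemma GPL_ext {x y : ℤ × ℤ} (h1 : F0 x = F0 y) (h2 : x.2 = y.2) : x = y := by
  obtain ⟨a, b⟩ := x
  obtain ⟨c, d⟩ := y
  simp only [F0] at *
  subst h2
  ext
  · simp only; omega
  · rfl

/-- The older leg is one-sided. -/
private lemma GPL_T {a c c' : ℕ} {X Y Y' : List Bool} (hX : Br a X) (hY : Br c Y) (hY' : Br c' Y')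
    (hca : c + 1 ≤ a) (hful : a ≤ c + 1 + c') (hN : (V (fw X (Y ++ rt Y :: Y'))).Nodup) :
    (∀ z, (z = o' ∨ z ∈ V X) → F0 z = 3 * ((a : ℤ) - c - 1) - 2 → z.2 < (E (fw X Y)).2) ∨
      (∀ z, (z = o' ∨ z ∈ V X) → F0 z = 3 * ((a : ℤ) - c - 1) - 2 → (E (fw X Y)).2 < z.2) := by
  have hoF : F0 o' = -2 := by decide
  have ho2 : (o').2 = 0 := by decide
  obtain ⟨v1, -, -, -⟩ := fw_V hX (Y ++ rt Y :: Y')
  obtain ⟨-, v2, -, -⟩ := fw_V hX Y
  obtain ⟨w1, -, -⟩ := app_right (Q := Y') hY.tn_rt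
  have hfe := fe_F0 hX
  have hEY := hY.2
  have hdisj : ∀ z ∈ V X, ∀ w ∈ V (Y ++ rt Y :: Y'), z ≠ fe X + (-1, 0) - w := by
    intro z hz w hw he
    rw [v1] at hN
    refine (List.nodup_append.1 hN).2.2 z hz _ (List.mem_cons_of_mem _ (List.mem_map_of_mem hw)) ?_
    exact he
  have hF1 : F0 (E (fw X Y)) = 3 * ((a : ℤ) - c - 1) := by
    rw [v2, F0_sub, F0_add, hfe, hEY]
    simp [F0]
    ring
  rcases Nat.eq_or_lt_of_le hca with hm | hm
  · -- the row consists of `o'`
    have hrow : ∀ z, (z = o' ∨ z ∈ V X) → F0 z = 3 * ((a : ℤ) - c - 1) - 2 → z = o' := by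
      rintro z (hz | hz) hr
      · exact hz
      · have := (hX.1.2 z hz).1
        omega
    have hne : (E (fw X Y)).2 ≠ 0 := by
      intro h0
      have h1 : E (fw X Y) = (0, 0) := GPL_ext (by rw [hF1]; simp only [F0]; omega) h0
      refine hdisj (0, 0) (o_mem X) (E Y) ?_ ?_
      · rw [w1]
        exact List.mem_append_left _ (E_mem Y)
      · rw [← h1, v2]
    rcases lt_or_gt_of_ne hne with h | h
    · right
      intro z hz hr
      rw [hrow z hz hr, ho2]
      exact h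
    · left
      intro z hz hr
      rw [hrow z hz hr, ho2]
      exact h
  · have hin : ∀ z, (z = o' ∨ z ∈ V X) → F0 z = 3 * ((a : ℤ) - c - 1) - 2 → z ∈ V X := by
      rintro z (rfl | hz) hr
      · rw [hoF] at hr
        omega
      · exact hz
    have hne : ∀ z ∈ V X, F0 z = 3 * ((a : ℤ) - c - 1) - 2 → z.2 ≠ (E (fw X Y)).2 := by
      intro z hz hr he
      refine hdisj z hz (E Y + (1, 0)) ?_ ?_
      · rw [w1]
        refine List.mem_append_right _ (List.mem_map.2 ⟨(0, 0), o_mem Y', ?_⟩)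
        simp
      · apply GPL_ext
        · rw [hr, F0_sub, F0_add, F0_add, hfe, hEY]
          simp [F0]
          ring
        · rw [he, v2]
          simp
    by_cases hex : ∃ z, (z = o' ∨ z ∈ V X) ∧ F0 z = 3 * ((a : ℤ) - c - 1) - 2 ∧ z.2 < (E (fw X Y)).2
    · obtain ⟨z, hz, hr, hlt⟩ := hex
      left
      intro z' hz' hr'
      exact plA hX hY hY' hca hful hN (hin z hz hr) (hin z' hz' hr') hr hr' hlt
    · right
      intro z hz hr
      have h1 := hne z (hin z hz hr) hr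
      have h2 : ¬ z.2 < (E (fw X Y)).2 := fun h => hex ⟨z, hz, hr, h⟩
      omega

private lemma GPL_finT {l t rr : List Blk} (h : AvI l (t ++ rr)) (hh : hj l ≤ hj (t ++ rr))
    (hcut' : hj t ≤ hj l - 1) : t = [] ∨ sSup (rowT l (hj t)) + 1 ≤ hsI.x t ∨
      hsI.x t + 1 ≤ sInf (rowT l (hj t)) := by
  by_cases ht0 : t = []
  · exact Or.inl ht0
  right
  have htp : 1 ≤ hj t := hj_pos ht0
  have hl0 : l ≠ [] := by
    rintro rfl
    rw [hj_nil] at hcut'
    omega
  have hhs := hj_append t rr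
  have hr0 : rr ≠ [] := by
    intro h0
    rw [h0, hj_nil] at hhs
    rw [h0] at hh
    omega
  have hav := h
  have hN : (V (fw (jn l.reverse) (jn (t ++ rr)))).Nodup := by
    rcases hav with hav | hav | hav
    · exact absurd hav hl0
    · exact absurd (List.append_eq_nil_iff.1 hav).1 ht0
    · exact hav
  have hlr : l.reverse ≠ [] := by simpa using hl0
  have hhr : hj l.reverse = hj l := hsI.h_reverse l
  have hX : Br (hj l - 1) (jn l.reverse) := by
    have := jn_Br hlr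
    rwa [hhr] at this
  have hY := jn_Br ht0
  have hY' := jn_Br hr0
  rw [jn_append ht0 hr0] at hN
  have hrp : 1 ≤ hj rr := hj_pos hr0
  have key := GPL_T hX hY hY' (by omega) (by omega) hN
  obtain ⟨-, v2, -, -⟩ := fw_V hX (jn t)
  have hfe := fe_F0 hX
  have hoF : F0 o' = -2 := by decide
  have hps : hsI.x t = (E (jn t)).2 := hsI_x_eq ht0
  rw [hps]
  apply GPL_os
  · -- nonempty
    rcases Nat.eq_or_lt_of_le hcut' with hm | hm
    · refine ⟨_, o', Or.inl rfl, ?_, rfl⟩
      rw [F0_sub, F0_add, hfe, hoF]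
      simp only [F0]
      omega
    · obtain ⟨⟨z, hz, hr⟩, -⟩ := GPL_cross (m := hj l - 1 - hj t) hX (by omega) (by omega)
      refine ⟨_, z, Or.inr hz, ?_, rfl⟩
      rw [F0_sub, F0_add, hfe, hr]
      simp only [F0]
      omega
  · refine (((List.finite_toSet (o' :: V (jn l.reverse))).image
      (fun z => (fe (jn l.reverse) + (-1, 0) - z).2))).subset ?_
    rintro y ⟨z, hz, -, rfl⟩
    refine ⟨z, ?_, rfl⟩
    rcases hz with rfl | hz
    · exact List.mem_cons_self
    · exact List.mem_cons_of_mem _ hz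
  · have hF : ∀ z : ℤ × ℤ, F0 (fe (jn l.reverse) + (-1, 0) - z) = 3 * (hj t : ℤ) →
        F0 z = 3 * (((hj l - 1 : ℕ) : ℤ) - ((hj t - 1 : ℕ) : ℤ) - 1) - 2 := by
      intro z hz
      rw [F0_sub, F0_add, hfe] at hz
      simp only [F0] at hz ⊢
      omega
    rw [v2] at key
    rcases key with key | key
    · right
      rintro y ⟨z, hz, hr, rfl⟩
      have := key z hz (hF z hr)
      simp only [Prod.snd_sub, Prod.snd_add] at this ⊢
      omega
    · left
      rintro y ⟨z, hz, hr, rfl⟩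
      have := key z hz (hF z hr)
      simp only [Prod.snd_sub, Prod.snd_add] at this ⊢
      omega

theorem hsI_pl1 (l s s' : List Blk) (h : hsI.Av l (s ++ s')) (hh : hsI.h l ≤ hsI.h (s ++ s')) (h1 : hsI.h s + 1 ≤ hsI.h l) :
    hsI.os true 1 l s :=
  GPL_finT (l := l) (t := s) (rr := s') h hh (Nat.le_sub_one_of_lt h1)


private lemma GPL_finF {l t rr : List Blk} (h : AvI (t ++ rr) l) (hh : hj l < hj (t ++ rr))
    (hcut' : hj t ≤ hj l) : t = [] ∨ sSup (rowF l (hj t)) + 1 ≤ hsI.p1 t ∨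
      hsI.p1 t + 1 ≤ sInf (rowF l (hj t)) := by
  by_cases ht0 : t = []
  · exact Or.inl ht0
  right
  have htp : 1 ≤ hj t := hj_pos ht0
  have hl0 : l ≠ [] := by
    rintro rfl
    rw [hj_nil] at hcut'
    omega
  have hhs := hj_append t rr
  have hr0 : rr ≠ [] := by
    intro h0
    rw [h0, hj_nil] at hhs
    rw [h0] at hh
    omega
  have hav := h
  have hN : (V (fw (jn (t ++ rr).reverse) (jn l))).Nodup := by
    rcases hav with hav | hav | hav
    · exact absurd (List.append_eq_nil_iff.1 hav).1 ht0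
    · exact absurd hav hl0
    · exact hav
  have htr : t.reverse ≠ [] := by simpa using ht0
  have hrv : rr.reverse ≠ [] := by simpa using hr0
  have hht : hj t.reverse = hj t := hsI.h_reverse t
  have hhr : hj rr.reverse = hj rr := hsI.h_reverse rr
  have hX : Br (hj t - 1) (jn t.reverse) := by
    have := jn_Br htr
    rwa [hht] at this
  have hX' : Br (hj rr - 1) (jn rr.reverse) := by
    have := jn_Br hrv
    rwa [hhr] at this
  have hY := jn_Br hl0
  rw [List.reverse_append, jn_append hrv htr] at hN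
  have hrp : 1 ≤ hj rr := hj_pos hr0
  have hps : hsI.p1 t = (fe (jn t.reverse)).2 := hsI_p1 ht0
  rw [hps]
  apply GPL_os
  · rcases Nat.eq_or_lt_of_le htp with hm | hm
    · refine ⟨_, (0, 0), o_mem _, ?_, rfl⟩
      simp only [F0]
      omega
    · obtain ⟨-, z, hz, hr⟩ := GPL_cross (m := hj t - 1) hY (by omega) (by omega)
      refine ⟨_, z, hz, ?_, rfl⟩
      rw [hr]
      omega
  · refine (((List.finite_toSet (V (jn l))).image (fun z => z.2))).subset ?_
    rintro y ⟨z, hz, -, rfl⟩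
    exact ⟨z, hz, rfl⟩
  · have hF : ∀ z : ℤ × ℤ, F0 z = 3 * (hj t : ℤ) - 3 → F0 z = 3 * ((hj t - 1 : ℕ) : ℤ) := by
      intro z hz
      omega
    by_cases hex : ∃ z ∈ V (jn l), F0 z = 3 * (hj t : ℤ) - 3 ∧ z.2 < (fe (jn t.reverse)).2
    · obtain ⟨z, hz, hr, hlt⟩ := hex
      left
      rintro y ⟨z', hz', hr', rfl⟩
      exact plB hX' hX hY (by omega) (by omega) hN hz hz' (hF z hr) (hF z' hr') hlt
    · right
      rintro y ⟨z, hz, hr, rfl⟩
      have h2 := plB_ne hX' hX hY hN hz (hF z hr)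
      have h3 : ¬ z.2 < (fe (jn t.reverse)).2 := fun h => hex ⟨z, hz, hr, h⟩
      omega

theorem hsI_pl2 (l s s' : List Blk) (h : hsI.Av (s ++ s') l) (hh : hsI.h l < hsI.h (s ++ s')) (h1 : hsI.h s ≤ hsI.h l) :
    hsI.os false 1 l s :=
  GPL_finF (l := l) (t := s) (rr := s') h hh h1

end Pool.Agent.HEP
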