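import Pool.Agent.GAP.IExt
import Pool.Agent.GAP.IGap
import Pool.Agent.GAP.IAc
import Pool.Agent.GAP.IPL

/-!
Project GAP, geometry: the system `hsI` satisfies the hypotheses `Sys.Gyp`, with the constant 32.
-/

namespace Pool.Agent.HEP

theorem hsI_gyp : hsI.Gyp 32 where
  anti := hsI_anti
  pl1 := hsI_pl1
  pl2 := hsI_pl2
  ext := hsI_ext
  res := hsI_res
  gap := hsI_gap
  ac := hsI_ac

end Pool.Agent.HEP
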