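import Pool.Agent.GAP.IHyp
import Pool.Agent.PLF.F0
import Pool.Agent.BEX.Reg
import Pool.Agent.HEP.GFin

/-!
Project GAP: the final statements of the quasi-polynomial bound.

`quasi`: there are `C, A > 0` with `a_n ≤ μ_L^n exp(C (1 + log n)^A)` and `P_n ≥ exp(-C (1 + log n)^A)` for every `n ≥ 1`.
-/

namespace Pool.Agent.HEP

open Pool.Agent.Hhelper14.SAW Pool.Agent.Hhelper63.HW Pool.Agent.HHP
open scoped ENNReal

/-- From the mass of the short words of the strip to the number of walks, general form. -/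
theorem final_fun {f : ℕ → ℝ} (hf : ∀ n : ℕ, 1 ≤ n → 1 ≤ f n) (h : ∃ C : ℝ, 0 < C ∧ ∀ n : ℕ, 1 ≤ n →
      ms xE (fun W => In (n + 1) W ∧ W.length < n + 1) ≤ ENNReal.ofReal (Real.exp (C * f n))) :
    ∃ C : ℝ, 0 < C ∧ ∀ n : ℕ, 1 ≤ n →
    (Pool.Agent.Hhelper14.Honeycomb.a n : ℝ) ≤
      Pool.Agent.Hhelper14.Honeycomb.muL ^ n * Real.exp (C * f n) ∧
    Real.exp (-(C * f n)) ≤ Pool.Agent.Hhelper14.Honeycomb.P n := by
  obtain ⟨C₀, hC₀, h⟩ := h
  have hlog : 0 < Real.log 32 := Real.log_pos (by norm_num)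
  set C := 2 * C₀ + Real.log 32 with hC
  have hC0 : 0 < C := by linarith
  have hup : ∀ n : ℕ, 1 ≤ n → (an n : ℝ) ≤ mu ^ n * Real.exp (C * f n) := by
    intro n hn
    have ht1 := hf n hn
    refine (an_le_mass (Real.exp_pos _).le (h n hn)).trans ?_
    refine mul_le_mul_of_nonneg_left ?_ (pow_pos mu_pos n).le
    have hE : 1 ≤ Real.exp (C₀ * f n) := Real.one_le_exp (by positivity)
    calc 8 * (1 + Real.exp (C₀ * f n)) ^ 2 ≤ 8 * (2 * Real.exp (C₀ * f n)) ^ 2 := by gcongr; linarith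
      _ = 32 * Real.exp (2 * C₀ * f n) := by
          have : Real.exp (2 * C₀ * f n) = Real.exp (C₀ * f n) ^ 2 := by
            rw [← Real.exp_nat_mul]; congr 1; push_cast; ring
          rw [this]; ring
      _ = Real.exp (Real.log 32) * Real.exp (2 * C₀ * f n) := by rw [Real.exp_log (by norm_num)]
      _ ≤ Real.exp (C * f n) := by
          rw [← Real.exp_add]
          apply Real.exp_le_exp.2
          rw [hC]
          nlinarith
  have hmuL := muL_eq hw_quant
  refine ⟨2 * C, by linarith, fun n hn => ?_⟩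
  have h1 := hup n hn
  have ht : 0 ≤ f n := by have := hf n hn; linarith
  have hmun : 0 < mu ^ n := pow_pos mu_pos n
  constructor
  · rw [hmuL, a_eq]
    refine h1.trans (mul_le_mul_of_nonneg_left (Real.exp_le_exp.2 ?_) hmun.le)
    nlinarith
  · rw [P_eq, a_eq, a_eq]
    have h2 := mu_pow_le (2 * n) (by omega)
    have han : (0 : ℝ) < an n := lt_of_lt_of_le hmun (mu_pow_le n hn)
    rw [le_div_iff₀ (by positivity)]
    have h3 : (an n : ℝ) ^ 2 ≤ (mu ^ n * Real.exp (C * f n)) ^ 2 :=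
      pow_le_pow_left₀ han.le h1 2
    calc Real.exp (-(2 * C * f n)) * (an n : ℝ) ^ 2
        ≤ Real.exp (-(2 * C * f n)) * (mu ^ n * Real.exp (C * f n)) ^ 2 :=
          mul_le_mul_of_nonneg_left h3 (Real.exp_pos _).le
      _ = mu ^ (2 * n) := by
          rw [mul_pow, ← pow_mul, ← Real.exp_nat_mul]
          have e : Real.exp (-(2 * C * f n)) * (mu ^ (n * 2) *
              Real.exp (((2 : ℕ) : ℝ) * (C * f n))) = mu ^ (n * 2) *
              (Real.exp (-(2 * C * f n)) * Real.exp (((2 : ℕ) : ℝ) * (C * f n))) := by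
            ring
          rw [e, ← Real.exp_add]
          have e2 : -(2 * C * f n) + ((2 : ℕ) : ℝ) * (C * f n) = 0 := by
            push_cast; ring
          rw [e2, Real.exp_zero, mul_one, mul_comm n 2]
      _ ≤ _ := h2

/-- Regularity in the form of PLF. -/
theorem Quarter_Reg {S : Sys} (h : S.Quarter) : ∃ κ : ℕ, S.Reg κ := by
  obtain ⟨C, hC⟩ := h.b_reg
  refine ⟨2 * C, fun N hN => (hC N).trans (mul_le_mul' ?_ le_rfl)⟩
  have h1 : C * (N + 1) ≤ 2 * C * N := by nlinarith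
  exact_mod_cast h1

/-- The mass of the short words of the strip, in terms of the chains. -/
theorem mass_short_fun {f : ℕ → ℝ} {Cf : ℝ} (hCf : 0 < Cf) (hf : ∀ n : ℕ, 1 ≤ n → 1 ≤ f n) (hf2 : ∀ n : ℕ, 1 ≤ n → f (n + 2) ≤ Cf * f n)
    (h : ∃ C : ℝ, 0 < C ∧ ∀ n : ℕ, 1 ≤ n → hsI.chm n ≤ ENNReal.ofReal (Real.exp (C * f n))) :
    ∃ C : ℝ, 0 < C ∧ ∀ n : ℕ, 1 ≤ n →
    ms xE (fun W => In (n + 1) W ∧ W.length < n + 1) ≤ ENNReal.ofReal (Real.exp (C * f n)) := by
  obtain ⟨C, hC, h⟩ := h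
  have hlog : 0 < Real.log 6 := Real.log_pos (by norm_num)
  refine ⟨C * Cf + Real.log 6, by positivity, fun n hn => ?_⟩
  have ht1 := hf n hn
  have h1 := h (n + 2) (by omega)
  calc ms xE (fun W => In (n + 1) W ∧ W.length < n + 1)
      ≤ ms xE (fun W => In (n + 1) W ∧ W.length ≤ n + 1) := ms_mono fun W hW => ⟨hW.1, hW.2.le⟩
    _ ≤ (1 + xE) * ms xE (fun W => SS (n + 1) W ∧ W.length ≤ n + 1) := In_le_short _ _ _
    _ ≤ (1 + 1) * (3 * (hs (n + 1 + 1)).chm (n + 1 + 1)) := by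
        gcongr
        · exact xE_le
        · exact ss_chm (n + 1)
    _ ≤ (1 + 1) * (3 * ENNReal.ofReal (Real.exp (C * f (n + 2)))) := by
        exact mul_le_mul_of_nonneg_left (mul_le_mul_of_nonneg_left ((chm_hs_le _ _).trans h1) bot_le) bot_le
    _ = ENNReal.ofReal (6 * Real.exp (C * f (n + 2))) := by
        rw [ENNReal.ofReal_mul (by norm_num), ← mul_assoc]
        congr 1
        norm_num
    _ ≤ ENNReal.ofReal (Real.exp ((C * Cf + Real.log 6) * f n)) := by
        apply ENNReal.ofReal_le_ofReal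
        have h2 := hf2 n hn
        calc 6 * Real.exp (C * f (n + 2))
            = Real.exp (Real.log 6) * Real.exp (C * f (n + 2)) := by
              rw [Real.exp_log (by norm_num)]
          _ ≤ Real.exp ((C * Cf + Real.log 6) * f n) := by
              rw [← Real.exp_add]
              apply Real.exp_le_exp.2
              have h3 := mul_le_mul_of_nonneg_left h2 hC.le
              nlinarith

/-- **The quasi-polynomial bound.** -/
theorem quasi : ∃ C A : ℝ, 0 < C ∧ 0 < A ∧ ∀ n : ℕ, 1 ≤ n →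
    (Pool.Agent.Hhelper14.Honeycomb.a n : ℝ) ≤
      Pool.Agent.Hhelper14.Honeycomb.muL ^ n * Real.exp (C * (1 + Real.log n) ^ A) ∧
    Real.exp (-(C * (1 + Real.log n) ^ A)) ≤ Pool.Agent.Hhelper14.Honeycomb.P n := by
  obtain ⟨κ, hκ⟩ := Quarter_Reg hsI_quarter
  obtain ⟨C, A, hC, hA, h⟩ := gyp_chm 32 κ
  have hf : ∀ n : ℕ, 1 ≤ n → 1 ≤ (1 + Real.log n) ^ A := by
    intro n hn
    refine Real.one_le_rpow ?_ hA.le
    have : 0 ≤ Real.log n := Real.log_natCast_nonneg n
    linarith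
  have hf2 : ∀ n : ℕ, 1 ≤ n → (1 + Real.log (n + 2 : ℕ)) ^ A ≤ 3 ^ A * (1 + Real.log n) ^ A := by
    intro n hn
    have h0 : 0 ≤ Real.log n := Real.log_natCast_nonneg n
    have hn1 : (1 : ℝ) ≤ n := by exact_mod_cast hn
    rw [← Real.mul_rpow (by norm_num) (by linarith)]
    refine Real.rpow_le_rpow (by have := Real.log_natCast_nonneg (n + 2); linarith) ?_ hA.le
    have h1 : Real.log ((n + 2 : ℕ) : ℝ) ≤ Real.log (3 * n) := by
      apply Real.log_le_log (by positivity)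
      push_cast; linarith
    rw [Real.log_mul (by norm_num) (by positivity)] at h1
    have h3 : Real.log 3 ≤ 2 := by
      have := Real.log_le_sub_one_of_pos (show (0 : ℝ) < 3 by norm_num)
      linarith
    linarith
  obtain ⟨C', hC', h'⟩ := final_fun hf (mass_short_fun (f := fun n => (1 + Real.log n) ^ A) (by positivity) hf hf2
    ⟨C, hC, fun n hn => h hsI n hn hsI_gyp hκ⟩)
  exact ⟨C', A, hC', hA, h'⟩

end Pool.Agent.HEP
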