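import Pool.Agent.HEP.GFar
import Pool.Agent.HEP.GRev

/-!
Project GAP, geometry: DEFINITIONS (honeycomb lattice, conventions of HEP/GDef and HHP/Defs).

* `Rh T M e τ`: columns `0, ..., T`, lateral size `M`, without the half row `F0 z = 3 e, τ ≤ z.2` (left border of the column `e`).
* `vis T P`: the path has visited the column `T`.
* `arN, arS, fr, laN, laS`: finite sets of walks (latest vertex first) of the finite domain: arcs which end on the upper / lower side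
  (`0 < z.2` resp. `z.2 < 0`), walks beyond the slit, walks at the upper / lower lateral side.
* `Row e τ W`: all the vertices of the word in the row `F0 = 3 e` are below `τ`.
* `AT T W`: arc words of exact depth `T`. `FT T e τ W`: words which visit the column `T` and end beyond the slit.
* `Dlt T e τ W`: lower arcs which are below the slit, but whose reversed arcs are not.
* `GapT T δ G W`: words which visit the column `T` (exactly), end at the left border of the column `δ`, all crossings of the row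
  just behind being at distance at least `G` on the lower side (`o'` is the point behind the start).
-/

namespace Pool.Agent.HEP

open Pool.Agent.Hhelper14.SAW Pool.Agent.HHP
open scoped ENNReal

/-- Domain without the half row. -/
def Rh (T M e : ℕ) (τ : ℤ) (z : ℤ × ℤ) : Prop := D (cc T M) z ∧ ¬ (F0 z = 3 * (e : ℤ) ∧ τ ≤ z.2)

instance (T M e : ℕ) (τ : ℤ) : DecidablePred (Rh T M e τ) := fun z => by unfold Rh; infer_instance

lemma Rh_dom {T M e : ℕ} {τ : ℤ} (h : 1 ≤ e ∨ 1 ≤ τ) : Dom (Rh T M e τ) := by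
  refine ⟨⟨(D_dom (cc T M)).start, ?_⟩, fun x h => h.1.1, fun x h => h.1.2.1⟩
  rintro ⟨h1, h2⟩
  have h3 : F0 o = 0 := by decide
  have h4 : (o : ℤ × ℤ).2 = 0 := rfl
  omega

/-- The path has visited the column `T`. -/
def vis (T : ℕ) (P : List (ℤ × ℤ)) : Prop := ∃ x ∈ P, 3 * (T : ℤ) ≤ F0 x

instance (T : ℕ) : DecidablePred (vis T) := fun P => by unfold vis; infer_instance

/-- Upper arcs. -/
def arN (T M e : ℕ) (τ : ℤ) (n : ℕ) : Finset (List (ℤ × ℤ)) :=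
  (saw (Rh T M e τ) n).filter (fun P => vis T P ∧ F0 P.headI = 0 ∧ 0 < P.headI.2)

/-- Lower arcs. -/
def arS (T M e : ℕ) (τ : ℤ) (n : ℕ) : Finset (List (ℤ × ℤ)) :=
  (saw (Rh T M e τ) n).filter (fun P => vis T P ∧ F0 P.headI = 0 ∧ P.headI.2 < 0)

/-- Walks beyond the slit. -/
def fr (T M e : ℕ) (τ : ℤ) (n : ℕ) : Finset (List (ℤ × ℤ)) :=
  (saw (Rh T M e τ) n).filter (fun P => vis T P ∧ F0 P.headI = 3 * (e : ℤ) + 1 ∧ τ ≤ P.headI.2 + 1)

/-- Walks at the upper lateral side. -/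
def laN (T M : ℕ) (n : ℕ) : Finset (List (ℤ × ℤ)) :=
  (saw (D (cc T M)) n).filter (fun P => F1 P.headI = 3 * (M : ℤ))

/-- Walks at the lower lateral side. -/
def laS (T M : ℕ) (n : ℕ) : Finset (List (ℤ × ℤ)) :=
  (saw (D (cc T M)) n).filter (fun P => F5 P.headI = 3 * (M : ℤ))

/-- Walks at the top, at the position `τ - 1` or `τ`. -/
def tpn (T M : ℕ) (τ : ℤ) (n : ℕ) : Finset (List (ℤ × ℤ)) :=
  (saw (D (cc T M)) n).filter (fun P => F0 P.headI = 3 * (T : ℤ) + 1 ∧ τ ≤ P.headI.2 + 1 ∧ P.headI.2 ≤ τ)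

/-- The row `F0 = 3 e` of the word is below `τ`. -/
def Row (e : ℕ) (τ : ℤ) (W : List Bool) : Prop := ∀ z ∈ V W, F0 z = 3 * (e : ℤ) → z.2 < τ

/-- Arcs of exact depth `T`. -/
def AT (T : ℕ) (W : List Bool) : Prop :=
  (V W).Nodup ∧ (∀ z ∈ V W, 0 ≤ F0 z ∧ F0 z ≤ 3 * (T : ℤ) + 1) ∧ (∃ z ∈ V W, 3 * (T : ℤ) ≤ F0 z) ∧ F0 (E W) = 0 ∧ ¬ hz (Dr W)

/-- Words beyond the slit. -/
def FT (T e : ℕ) (τ : ℤ) (W : List Bool) : Prop :=
  (V W).Nodup ∧ (∀ z ∈ V W, 0 ≤ F0 z ∧ F0 z ≤ 3 * (T : ℤ) + 1) ∧ (∃ z ∈ V W, 3 * (T : ℤ) ≤ F0 z) ∧ Row e τ W ∧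
    F0 (E W) = 3 * (e : ℤ) + 1 ∧ τ ≤ (E W).2 + 1

/-- Lower arcs below the slit whose reversed arcs are not below the slit. -/
def Dlt (T e : ℕ) (τ : ℤ) (W : List Bool) : Prop :=
  AT T W ∧ (E W).2 < 0 ∧ Row e τ W ∧ ¬ Row e (τ + (E W).2) W

/-- Arcs with a gap. -/
def GapT (T δ G : ℕ) (W : List Bool) : Prop :=
  (V W).Nodup ∧ (∀ z ∈ V W, 0 ≤ F0 z ∧ F0 z ≤ 3 * (T : ℤ) + 1) ∧ (∃ z ∈ V W, 3 * (T : ℤ) ≤ F0 z) ∧
    F0 (E W) = 3 * (δ : ℤ) ∧ ¬ hz (Dr W) ∧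
    ∀ z, (z = o' ∨ z ∈ V W) → F0 z = 3 * (δ : ℤ) - 2 → z.2 + G ≤ (E W).2

end Pool.Agent.HEP
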