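import Pool.Agent.GAP.STurn
import Pool.Agent.HEP.GIdent

/-!
Project GAP, geometry, module SIm: IMAGINARY PART of the identity, difference of the domains with the columns `0..T` and `0..T-1`.

PAPER PROOF. Put `p = Rh T M e τ`, `T ≥ 1` (case `T = 0` below), `p' = Rh (T - 1) M e τ`, `e ≤ T` (if `e = T` the half row is not in `p'`, harmless;
`Rh_dom` needs `h0`). `telescope` for large `K` (imaginary part, `zt_im` or `Complex.exp`; `zt k = exp (i k π / 8)`, cf. `zt_re`):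
`∑ n < K, xc ^ (n + 1) * ∑ Q ∈ exits p n, sin (Tn Q * π / 8) = 0`, the same for `p'` (as `ident_re` in HEP/GIdent).
PARTITION of the exits `Q = u :: P` of `p`: `vis T P` or not. (a) If `¬ vis T P`, all the vertices of `P` have `F0 < 3 T`, hence (residues) `F0 ≤ 3 (T - 1) + 1`:
`P` is a walk of `p'` and `Q` is an exit of `p'` (`u ∉ p ⊇ p'`). (b) Conversely an exit `Q = u :: P` of `p'` has `¬ vis T P`, and either
`u ∉ p` (it is one of the exits (a)), or `u ∈ p \ p'`, then `F0 u ≥ 3 T - 1`, `F0 v ≤ 3 T - 2`, so by residues `u - v = (1, 0)` and `Tn Q = 0` (`rh_exit` for `p'`: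
the kinds with `u - v = (1, 0)`), sine 0. So, subtracting the two identities,
  (I)  `∑ n < K, xc ^ (n + 1) * ∑ Q ∈ exits p n, vis T Q.tail, sin (Tn Q * π / 8) = 0` for all large `K`.
For `T = 0` every walk has `vis 0 P` (it contains `o`), so (I) is the identity itself.
VALUES (`rh_exit`): `Tn = 0`: 0. `Tn = 1` (lateral, `F1 v = 3 M`): `sin (π / 8)`, in `[0, 1]`. `Tn = -1` (`F5 v = 3 M`): `- sin (π / 8)`. `Tn = 3`: `sin (3 π / 8)`, these exits are in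
bijection with `arN` (`Q = (P.headI + (-1, 0)) :: P`; conversely for `P ∈ arN` the vertex `u = P.headI + (-1, 0)` has `F0 u = -2`, so `¬ p u`, `u ≠ w` because `w` is in
`p` or `w = o'`, and `w = o'` means `P = [o, o']`, `P.headI.2 = 0`). `Tn = -3`: `- sin (3 π / 8)`, bijection with `arS`.
`Tn = 2`: `sin (π / 4) ≥ 0.7`, `Tn = 4`: `1`: exits to the slit.
`im_up`: every `P ∈ fr` gives the exit `u = P.headI + (-1, 1)`, `F0 u = 3 e`, `u.2 = P.headI.2 + 1 ≥ τ`, so `¬ p u`, `u ≠ w` (`w` in `p`; `w = o'` has `F0 = -2`; `Adj` by residues),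
with `Tn = 2` (the only kind with `u - v = (-1, 1)`), different `P` give different `Q`. So the slit exits contribute at least `0.7 * |fr|`; upper lateral exits at least 0; the
lower lateral exits at least `- |laS|` (a walk of `p` is a walk of `D (cc T M)`, `IsSaw.mono`). For `n ≥ B` everything is empty (`saw_empty'`); the finite sums of the left
side are at most the total sums.
`im_dn` (`e = T`): the exits with `Tn = 4` do not occur among those with `vis`, in fact not at all: `u = v + (0, -1)` on the slit, `v.2 = u.2 + 1 ≥ τ + 1`, `F0 v = 3 T + 1`; the vertex `w` before `v` is a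
neighbour of `v`: `v + (1, 0)` (`F0 = 3 T + 3`, not in `p`), `u` (excluded), or `v + (-1, 1)` with `F0 = 3 T` and second coordinate `≥ τ + 2`: not in `p`; and `w = o'` means `v = o`, `F0 v = 0`.
`Tn = 2`: `u = v + (-1, 1)`, `v.2 + 1 ≥ τ`, `w` is `v + (0, -1)`, in `p`, `F0 w = 3 T`, so `w.2 < τ`, `v.2 ≤ τ`: the walk is in `tpn T M τ n`, the sine is `≤ 1`. Lower lateral exits count `≤ 0`, the upper ones `≤ |laN|`.
-/

namespace Pool.Agent.HEP

open Pool.Agent.Hhelper14.SAW Pool.Agent.HHP Finset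

/-- Sine of an exit. -/
private noncomputable def sn (Q : List (ℤ × ℤ)) : ℝ := Real.sin ((Tn Q : ℝ) * (Real.pi / 8))

private lemma zt_im (k : ℤ) : (zt k).im = Real.sin (k * (Real.pi / 8)) := by
  unfold zt
  have : (k : ℂ) * (Real.pi / 8 * Complex.I) = ((k * (Real.pi / 8) : ℝ) : ℂ) * Complex.I := by
    push_cast; ring
  rw [this, Complex.exp_ofReal_mul_I_im]

private lemma saw_emp {p : ℤ × ℤ → Prop} [DecidablePred p] (hp : Dom p) {c : Par} (hpc : ∀ x, p x → D c x) :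
    ∃ B : ℕ, ∀ n, B ≤ n → saw p n = ∅ := by
  obtain ⟨B, hB⟩ := saw_empty' c
  refine ⟨B, fun n hn => ?_⟩
  rw [Finset.eq_empty_iff_forall_notMem]
  intro P hP
  rw [mem_saw hp] at hP
  have h1 : P ∈ saw (D c) n := by
    rw [mem_saw (D_dom _)]
    exact hP.mono hpc
  rw [hB n hn] at h1
  simp at h1

private lemma ident_im {p : ℤ × ℤ → Prop} [DecidablePred p] (hp : Dom p) {c : Par}
    (hpc : ∀ x, p x → D c x) : ∃ B : ℕ, ∀ K : ℕ, B ≤ K →
      ∑ n ∈ range K, xc ^ (n + 1) * ∑ Q ∈ exits p n, sn Q = 0 := by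
  obtain ⟨B, hB⟩ := saw_emp hp hpc
  refine ⟨B, fun K hK => ?_⟩
  have h := telescope hp K
  have hT : Tsum p K = 0 := by unfold Tsum; rw [hB K hK]; simp
  rw [hT, mul_zero, sub_zero] at h
  have h2 := congrArg Complex.im h
  rw [Complex.im_sum, Complex.one_im] at h2
  rw [← h2]
  refine Finset.sum_congr rfl fun n _ => ?_
  rw [← Complex.ofReal_pow, Complex.im_ofReal_mul, Complex.im_sum]
  congr 1
  refine Finset.sum_congr rfl fun Q _ => ?_
  rw [zt_im]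
  rfl

private lemma mem_cases' {p : ℤ × ℤ → Prop} {n : ℕ} {P : List (ℤ × ℤ)}
    (h : IsSaw p n P) {x : ℤ × ℤ} (hx : x ∈ P) : p x ∨ x = o' := by
  obtain ⟨h1, h2, h3, t, h4, h5⟩ := h
  rw [h4] at hx
  simp only [List.mem_append, List.mem_cons, List.not_mem_nil, or_false] at hx
  rcases hx with hx | hx | hx
  · left; exact h5 _ (by simp [hx])
  · left; exact h5 _ (by simp [hx])
  · right; exact hx

private lemma saw_change {p q : ℤ × ℤ → Prop} {n : ℕ} {P : List (ℤ × ℤ)} (h : IsSaw p n P)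
    (hq : ∀ x ∈ P, p x → q x) : IsSaw q n P := by
  obtain ⟨h1, h2, h3, t, h4, h5⟩ := h
  refine ⟨h1, h2, h3, t, h4, fun x hx => hq x ?_ (h5 x hx)⟩
  rw [h4]
  simp only [List.mem_append, List.mem_cons, List.not_mem_nil, or_false] at hx ⊢
  tauto

private lemma o'_F0 : F0 o' = -2 := by decide

private lemma rh_F0 {T M e : ℕ} {τ : ℤ} {x : ℤ × ℤ} (h : Rh T M e τ x) :
    0 ≤ F0 x ∧ F0 x ≤ 3 * (T : ℤ) + 1 := by
  obtain ⟨⟨g0, g1, g2, g3, g4, g5, g6⟩, -⟩ := h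
  simp only [cc, F3, F0] at *
  rcases lt_or_ge x.2 0 with h | h
  · have := g6 h; omega
  · have := g5 h; omega

private lemma hon_F0 {x : ℤ × ℤ} (h : hon x) : F0 x % 3 ≠ 2 := by
  simp only [hon, F0] at *; omega

private lemma rh_mono {T T' M e : ℕ} {τ : ℤ} (hT : T ≤ T') {x : ℤ × ℤ} (h : Rh T M e τ x) :
    Rh T' M e τ x := by
  obtain ⟨⟨g0, g1, g2, g3, g4, g5, g6⟩, h2⟩ := h
  refine ⟨⟨g0, g1, ?_, g3, g4, g5, g6⟩, h2⟩
  simp only [cc] at *
  omega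

private lemma rh_back {T T' M e : ℕ} {τ : ℤ} {x : ℤ × ℤ} (h : Rh T' M e τ x)
    (h1 : F0 x ≤ 3 * (T : ℤ) + 1) : Rh T M e τ x := by
  obtain ⟨⟨g0, g1, g2, g3, g4, g5, g6⟩, h2⟩ := h
  exact ⟨⟨g0, g1, h1, g3, g4, g5, g6⟩, h2⟩

/-- The exits of the walks which have visited the last column. -/
private def exV (T M e : ℕ) (τ : ℤ) (n : ℕ) : Finset (List (ℤ × ℤ)) :=
  (exits (Rh T M e τ) n).filter (fun Q => vis T Q.tail)

private lemma ident_zero (M e : ℕ) (τ : ℤ) (h0 : 1 ≤ e ∨ 1 ≤ τ) (n : ℕ) :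
    exV 0 M e τ n = exits (Rh 0 M e τ) n := by
  unfold exV
  rw [Finset.filter_eq_self]
  intro Q hQ
  obtain ⟨u, v, w, r, rfl, h1, -, -, -⟩ := (mem_exits (Rh_dom h0)).1 hQ
  obtain ⟨a1, a2, a3, t, h4, h5⟩ := h1
  refine ⟨o, ?_, ?_⟩
  · rw [List.tail_cons, h4]; simp
  · have : F0 o = 0 := by decide
    rw [this]; simp

private lemma ident_succ (T M e : ℕ) (τ : ℤ) (h0 : 1 ≤ e ∨ 1 ≤ τ) (n : ℕ) :
    ∑ Q ∈ exits (Rh (T + 1) M e τ) n, sn Q =
      ∑ Q ∈ exV (T + 1) M e τ n, sn Q + ∑ Q ∈ exits (Rh T M e τ) n, sn Q := by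
  have hd := Rh_dom (T := T) (M := M) h0
  have hd' := Rh_dom (T := T + 1) (M := M) h0
  rw [← Finset.sum_filter_add_sum_filter_not (exits (Rh (T + 1) M e τ) n)
    (fun Q => vis (T + 1) Q.tail) sn]
  congr 1
  rw [← Finset.sum_filter_add_sum_filter_not (exits (Rh T M e τ) n)
    (fun Q => ¬ Rh (T + 1) M e τ Q.headI) sn]
  have hz : ∑ Q ∈ (exits (Rh T M e τ) n).filter (fun Q => ¬ ¬ Rh (T + 1) M e τ Q.headI), sn Q = 0 := by
    refine Finset.sum_eq_zero fun Q hQ => ?_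
    rw [Finset.mem_filter, not_not] at hQ
    obtain ⟨hQ, hp⟩ := hQ
    obtain ⟨u, v, w, r, rfl, h1, h2, h3, h4⟩ := (mem_exits hd).1 hQ
    rw [List.headI_cons] at hp
    have h5 : 3 * (T : ℤ) + 1 < F0 u := by
      by_contra hcon
      exact h4 (rh_back hp (by omega))
    have h6 := hon_F0 h2.1
    have h7 := (rh_F0 h1.head_mem).2
    have hsub : F0 u = F0 v + F0 (u - v) := by
      simp only [F0, Prod.fst_sub, Prod.snd_sub]; ring
    have e2 : F0 ((0, 1) : ℤ × ℤ) = 1 := by decide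
    have e3 : F0 ((1, -1) : ℤ × ℤ) = 1 := by decide
    have e4 : F0 ((-1, 1) : ℤ × ℤ) = -1 := by decide
    have e5 : F0 ((-1, 0) : ℤ × ℤ) = -2 := by decide
    have e6 : F0 ((0, -1) : ℤ × ℤ) = -1 := by decide
    unfold sn
    rcases rh_exit h0 h1 h2 h3 h4 with ⟨h, -⟩ | ⟨-, h, -⟩ | ⟨-, h, -⟩ | ⟨-, h, -⟩ | ⟨-, h, -⟩ | ⟨-, h, -⟩ |
      ⟨-, h, -⟩
    · rw [h]; simp
    all_goals
      exfalso
      rw [h] at hsub
      omega
  rw [hz, add_zero]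
  refine Finset.sum_congr ?_ fun _ _ => rfl
  ext Q
  rw [Finset.mem_filter, Finset.mem_filter, mem_exits hd', mem_exits hd]
  constructor
  · rintro ⟨⟨u, v, w, r, rfl, h1, h2, h3, h4⟩, h5⟩
    rw [List.tail_cons] at h5
    refine ⟨⟨u, v, w, r, rfl, saw_change h1 ?_, h2, h3, fun h => h4 (rh_mono (Nat.le_succ T) h)⟩, ?_⟩
    · intro x hx hpx
      refine rh_back hpx ?_
      have h6 := hon_F0 (hd'.hon x hpx)
      have h7 : ¬ 3 * ((T + 1 : ℕ) : ℤ) ≤ F0 x := fun h => h5 ⟨x, hx, h⟩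
      push_cast at h7
      omega
    · rw [List.headI_cons]; exact h4
  · rintro ⟨⟨u, v, w, r, rfl, h1, h2, h3, h4⟩, h5⟩
    rw [List.headI_cons] at h5
    refine ⟨⟨u, v, w, r, rfl, h1.mono (fun x hx => rh_mono (Nat.le_succ T) hx), h2, h3, h5⟩, ?_⟩
    rw [List.tail_cons]
    rintro ⟨x, hx, h⟩
    push_cast at h
    rcases mem_cases' h1 hx with h6 | rfl
    · have := (rh_F0 h6).2
      omega
    · rw [o'_F0] at h
      omega

private lemma ident_vis (T M e : ℕ) (τ : ℤ) (h0 : 1 ≤ e ∨ 1 ≤ τ) : ∃ B : ℕ, ∀ K : ℕ, B ≤ K →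
    ∑ n ∈ range K, xc ^ (n + 1) * ∑ Q ∈ exV T M e τ n, sn Q = 0 := by
  obtain ⟨B, hB⟩ := ident_im (Rh_dom (T := T) (M := M) h0) (c := cc T M) (fun x hx => hx.1)
  cases T with
  | zero =>
    refine ⟨B, fun K hK => ?_⟩
    rw [← hB K hK]
    refine Finset.sum_congr rfl fun n _ => ?_
    rw [ident_zero M e τ h0 n]
  | succ T =>
    obtain ⟨B', hB'⟩ := ident_im (Rh_dom (T := T) (M := M) h0) (c := cc T M) (fun x hx => hx.1)
    refine ⟨max B B', fun K hK => ?_⟩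
    have h1 := hB K ((le_max_left _ _).trans hK)
    have h2 := hB' K ((le_max_right _ _).trans hK)
    have h3 : ∑ n ∈ range K, xc ^ (n + 1) * ∑ Q ∈ exits (Rh (T + 1) M e τ) n, sn Q =
        ∑ n ∈ range K, xc ^ (n + 1) * ∑ Q ∈ exV (T + 1) M e τ n, sn Q +
        ∑ n ∈ range K, xc ^ (n + 1) * ∑ Q ∈ exits (Rh T M e τ) n, sn Q := by
      rw [← Finset.sum_add_distrib]
      refine Finset.sum_congr rfl fun n _ => ?_
      rw [ident_succ T M e τ h0 n, mul_add]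
    rw [h1, h2, add_zero] at h3
    exact h3.symm

private lemma sn_val {Q : List (ℤ × ℤ)} {k : ℤ} (h : Tn Q = k) : sn Q = Real.sin ((k : ℝ) * (Real.pi / 8)) := by
  unfold sn; rw [h]

private lemma s3_nonneg : 0 ≤ Real.sin (3 * (Real.pi / 8)) :=
  Real.sin_nonneg_of_nonneg_of_le_pi (by positivity) (by linarith [Real.pi_pos])

private lemma s1_nonneg : 0 ≤ Real.sin (Real.pi / 8) :=
  Real.sin_nonneg_of_nonneg_of_le_pi (by positivity) (by linarith [Real.pi_pos])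

private lemma s2_ge : 0.7 ≤ Real.sin ((2 : ℝ) * (Real.pi / 8)) := by
  have h1 : (2 : ℝ) * (Real.pi / 8) = Real.pi / 4 := by ring
  rw [h1, Real.sin_pi_div_four]
  have h2 : (1.4 : ℝ) ≤ Real.sqrt 2 := by
    rw [show (1.4 : ℝ) = Real.sqrt (1.4 ^ 2) by rw [Real.sqrt_sq (by norm_num)]]
    exact Real.sqrt_le_sqrt (by norm_num)
  linarith

private lemma v_of_u {u v e : ℤ × ℤ} (h : u - v = e) : u = v + e := by rw [← h]; ring

/-- The structure of the members of `exV`. -/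
private lemma exV_str {T M e : ℕ} {τ : ℤ} (h0 : 1 ≤ e ∨ 1 ≤ τ) {n : ℕ} {Q : List (ℤ × ℤ)} (hQ : Q ∈ exV T M e τ n) :
    (∃ u v w r, Q = u :: v :: w :: r ∧ IsSaw (Rh T M e τ) n (v :: w :: r) ∧ Adj u v ∧ u ≠ w ∧
      ¬ Rh T M e τ u ∧ vis T (v :: w :: r) ∧
      ((Tn Q = 0 ∧ u = v + (1, 0)) ∨
       (Tn Q = 1 ∧ u = v + (0, 1) ∧ F1 v = 3 * (M : ℤ)) ∨
       (Tn Q = -1 ∧ u = v + (1, -1) ∧ F5 v = 3 * (M : ℤ)) ∨
       (Tn Q = 3 ∧ u = v + (-1, 0) ∧ F0 v = 0 ∧ 0 < v.2) ∨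
       (Tn Q = -3 ∧ u = v + (-1, 0) ∧ F0 v = 0 ∧ v.2 < 0) ∨
       (Tn Q = 2 ∧ u = v + (-1, 1) ∧ F0 u = 3 * (e : ℤ) ∧ τ ≤ u.2) ∨
       (Tn Q = 4 ∧ u = v + (0, -1) ∧ F0 u = 3 * (e : ℤ) ∧ τ ≤ u.2))) := by
  unfold exV at hQ
  rw [Finset.mem_filter] at hQ
  obtain ⟨hQ, hv⟩ := hQ
  obtain ⟨u, v, w, r, rfl, h1, h2, h3, h4⟩ := (mem_exits (Rh_dom h0)).1 hQ
  refine ⟨u, v, w, r, rfl, h1, h2, h3, h4, hv, ?_⟩
  rcases rh_exit h0 h1 h2 h3 h4 with ⟨h, h'⟩ | ⟨h, h', h''⟩ | ⟨h, h', h''⟩ | ⟨h, h', h''⟩ | ⟨h, h', h''⟩ |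
    ⟨h, h', h''⟩ | ⟨h, h', h''⟩ <;> have h' := v_of_u h'
  · exact Or.inl ⟨h, h'⟩
  · exact Or.inr (Or.inl ⟨h, h', h''⟩)
  · exact Or.inr (Or.inr (Or.inl ⟨h, h', h''⟩))
  · exact Or.inr (Or.inr (Or.inr (Or.inl ⟨h, h', h''⟩)))
  · exact Or.inr (Or.inr (Or.inr (Or.inr (Or.inl ⟨h, h', h''⟩))))
  · exact Or.inr (Or.inr (Or.inr (Or.inr (Or.inr (Or.inl ⟨h, h', h''⟩)))))
  · exact Or.inr (Or.inr (Or.inr (Or.inr (Or.inr (Or.inr ⟨h, h', h''⟩)))))

/-- The map from walks to exits. -/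
private lemma card_im (A : Finset (List (ℤ × ℤ))) (d : ℤ × ℤ) :
    (A.image (fun P => (P.headI + d) :: P)).card = A.card :=
  Finset.card_image_of_injective _ (fun P P' h => by
    simp only [List.cons.injEq] at h; exact h.2)

/-- The map from exits of one kind to walks. -/
private lemma card_tail {A B : Finset (List (ℤ × ℤ))} (d : ℤ × ℤ)
    (h : ∀ Q ∈ A, Q.tail ∈ B ∧ Q = (Q.tail.headI + d) :: Q.tail) : (A.card : ℝ) ≤ (B.card : ℝ) := by
  norm_cast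
  refine Finset.card_le_card_of_injOn List.tail (fun Q hQ => (h Q hQ).1) ?_
  intro Q hQ Q' hQ' h1
  rw [(h Q hQ).2, (h Q' hQ').2, h1]

private lemma mem_arc {T M e : ℕ} {τ : ℤ} (h0 : 1 ≤ e ∨ 1 ≤ τ) {n : ℕ} {P : List (ℤ × ℤ)}
    (hP : P ∈ saw (Rh T M e τ) n) (hv : vis T P) (hF : F0 P.headI = 0) (hne : P.headI.2 ≠ 0) :
    ((P.headI + (-1, 0)) :: P) ∈ exV T M e τ n ∧
      ((0 < P.headI.2 → Tn ((P.headI + (-1, 0)) :: P) = 3) ∧
       (P.headI.2 < 0 → Tn ((P.headI + (-1, 0)) :: P) = -3)) := by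
  rw [mem_saw (Rh_dom h0)] at hP
  obtain ⟨v, w, r, rfl, hvw, hpv⟩ := hP.cases
  rw [List.headI_cons] at hF hne ⊢
  have hFu : F0 (v + (-1, 0)) = -2 := by
    simp only [F0, Prod.fst_add, Prod.snd_add] at *; omega
  have hadj : Adj (v + (-1, 0)) v := by
    have h9 := (Rh_dom (T := T) (M := M) h0).hon v hpv
    refine ⟨?_, h9, ?_⟩
    · simp only [hon, F0, Prod.fst_add, Prod.snd_add] at *; omega
    · simp [U]
  have hu : ¬ Rh T M e τ (v + (-1, 0)) := by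
    intro h
    have := (rh_F0 h).1
    omega
  have huw : v + (-1, 0) ≠ w := by
    intro h
    rcases mem_cases' hP (x := w) (by simp) with h5 | h5
    · rw [← h] at h5; exact hu h5
    · rw [h5] at h
      apply hne
      have := congrArg Prod.snd h
      simpa [o'] using this
  have hex : ((v + (-1, 0)) :: v :: w :: r) ∈ exits (Rh T M e τ) n := by
    rw [mem_exits (Rh_dom h0)]
    exact ⟨_, v, w, r, rfl, hP, hadj, huw, hu⟩
  have hsub : v + (-1, 0) - v = (-1, 0) := by ring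
  refine ⟨?_, ?_⟩
  · unfold exV
    rw [Finset.mem_filter]
    exact ⟨hex, hv⟩
  · rcases rh_exit h0 hP hadj huw hu with ⟨-, h⟩ | ⟨-, h, -⟩ | ⟨-, h, -⟩ | ⟨h, -, -, h'⟩ | ⟨h, -, -, h'⟩ |
      ⟨-, h, -⟩ | ⟨-, h, -⟩
    · rw [hsub] at h; simp at h
    · rw [hsub] at h; simp at h
    · rw [hsub] at h; simp at h
    · exact ⟨fun _ => h, fun h1 => by omega⟩
    · exact ⟨fun h1 => by omega, fun _ => h⟩
    · rw [hsub] at h; simp at h
    · rw [hsub] at h; simp at h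

private lemma mem_fr {T M e : ℕ} {τ : ℤ} (h0 : 1 ≤ e ∨ 1 ≤ τ) {n : ℕ} {P : List (ℤ × ℤ)}
    (hP : P ∈ fr T M e τ n) : ((P.headI + (-1, 1)) :: P) ∈ exV T M e τ n ∧
      Tn ((P.headI + (-1, 1)) :: P) = 2 := by
  unfold fr at hP
  rw [Finset.mem_filter, mem_saw (Rh_dom h0)] at hP
  obtain ⟨hP, hv, hF, hτ⟩ := hP
  obtain ⟨v, w, r, rfl, hvw, hpv⟩ := hP.cases
  rw [List.headI_cons] at hF hτ ⊢
  have hFu : F0 (v + (-1, 1)) = 3 * (e : ℤ) := by
    simp only [F0, Prod.fst_add, Prod.snd_add] at *; omega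
  have hu2 : τ ≤ (v + (-1, 1)).2 := by simpa using hτ
  have hadj : Adj (v + (-1, 1)) v := by
    have h9 := (Rh_dom (T := T) (M := M) h0).hon v hpv
    refine ⟨?_, h9, ?_⟩
    · simp only [hon, F0, Prod.fst_add, Prod.snd_add] at *; omega
    · simp [U]
  have hu : ¬ Rh T M e τ (v + (-1, 1)) := fun h => h.2 ⟨hFu, hu2⟩
  have huw : v + (-1, 1) ≠ w := by
    intro h
    rcases mem_cases' hP (x := w) (by simp) with h5 | h5
    · rw [← h] at h5; exact hu h5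
    · rw [h5] at h
      rw [h, o'_F0] at hFu
      omega
  have hex : ((v + (-1, 1)) :: v :: w :: r) ∈ exits (Rh T M e τ) n := by
    rw [mem_exits (Rh_dom h0)]
    exact ⟨_, v, w, r, rfl, hP, hadj, huw, hu⟩
  have hsub : v + (-1, 1) - v = (-1, 1) := by ring
  refine ⟨?_, ?_⟩
  · unfold exV
    rw [Finset.mem_filter]
    exact ⟨hex, hv⟩
  · rcases rh_exit h0 hP hadj huw hu with ⟨-, h⟩ | ⟨-, h, -⟩ | ⟨-, h, -⟩ | ⟨-, h, -⟩ | ⟨-, h, -⟩ |
      ⟨h, -⟩ | ⟨-, h, -⟩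
    · rw [hsub] at h; simp at h
    · rw [hsub] at h; simp at h
    · rw [hsub] at h; simp at h
    · rw [hsub] at h; simp at h
    · rw [hsub] at h; simp at h
    · exact h
    · rw [hsub] at h; simp at h

private lemma sinm3 : Real.sin (((-3 : ℤ) : ℝ) * (Real.pi / 8)) = - Real.sin (3 * (Real.pi / 8)) := by
  rw [← Real.sin_neg]
  congr 1
  push_cast
  ring

private lemma sinm1 : Real.sin (((-1 : ℤ) : ℝ) * (Real.pi / 8)) = - Real.sin (Real.pi / 8) := by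
  rw [← Real.sin_neg]
  congr 1
  push_cast
  ring

private lemma sin0 : Real.sin (((0 : ℤ) : ℝ) * (Real.pi / 8)) = 0 := by simp

private lemma sin1 : Real.sin (((1 : ℤ) : ℝ) * (Real.pi / 8)) = Real.sin (Real.pi / 8) := by
  congr 1
  push_cast
  ring

private lemma sin4 : Real.sin (((4 : ℤ) : ℝ) * (Real.pi / 8)) = 1 := by
  have : ((4 : ℤ) : ℝ) * (Real.pi / 8) = Real.pi / 2 := by push_cast; ring
  rw [this, Real.sin_pi_div_two]

/-- Lower bound for one length. -/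
private lemma up_n (T M e : ℕ) (τ : ℤ) (h0 : 1 ≤ e ∨ 1 ≤ τ) (n : ℕ) :
    0.7 * ((fr T M e τ n).card : ℝ) + Real.sin (3 * (Real.pi / 8)) * ((arN T M e τ n).card : ℝ) -
      Real.sin (3 * (Real.pi / 8)) * ((arS T M e τ n).card : ℝ) - ((laS T M n).card : ℝ) ≤
      ∑ Q ∈ exV T M e τ n, sn Q := by
  have h3 := s3_nonneg
  have h1 := s1_nonneg
  set E := exV T M e τ n with hE
  set S3 := E.filter (fun Q => Tn Q = -3) with hS3
  set E1 := E.filter (fun Q => ¬ Tn Q = -3) with hE1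
  set S1 := E1.filter (fun Q => Tn Q = -1) with hS1
  set E2 := E1.filter (fun Q => ¬ Tn Q = -1) with hE2
  have s : ∑ Q ∈ E, sn Q = ∑ Q ∈ S3, sn Q + (∑ Q ∈ S1, sn Q + ∑ Q ∈ E2, sn Q) := by
    rw [hS1, hE2, Finset.sum_filter_add_sum_filter_not, hS3, hE1,
      Finset.sum_filter_add_sum_filter_not]
  -- the lower arcs
  have c3 : ∑ Q ∈ S3, sn Q = - (Real.sin (3 * (Real.pi / 8)) * (S3.card : ℝ)) := by
    rw [Finset.sum_congr rfl (fun Q hQ => (sn_val (Finset.mem_filter.1 hQ).2).trans sinm3),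
      Finset.sum_const, nsmul_eq_mul]
    ring
  have d3 : (S3.card : ℝ) ≤ ((arS T M e τ n).card : ℝ) := by
    refine card_tail (-1, 0) ?_
    intro Q hQ
    obtain ⟨hQ, hT⟩ := Finset.mem_filter.1 hQ
    obtain ⟨u, v, w, r, rfl, g1, g2, g3, g4, g5, g6⟩ := exV_str h0 hQ
    rw [hT] at g6
    rcases g6 with ⟨h, -⟩ | ⟨h, -⟩ | ⟨h, -⟩ | ⟨h, -⟩ | ⟨-, h, h', h''⟩ | ⟨h, -⟩ | ⟨h, -⟩
    · omega
    · omega
    · omega
    · omega
    · refine ⟨?_, by rw [h]; rfl⟩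
      rw [List.tail_cons]
      unfold arS
      rw [Finset.mem_filter, mem_saw (Rh_dom h0)]
      exact ⟨g1, g5, h', h''⟩
    · omega
    · omega
  -- the lower lateral side
  have c1 : ∑ Q ∈ S1, sn Q = - (Real.sin (Real.pi / 8) * (S1.card : ℝ)) := by
    rw [Finset.sum_congr rfl (fun Q hQ => (sn_val (Finset.mem_filter.1 hQ).2).trans sinm1),
      Finset.sum_const, nsmul_eq_mul]
    ring
  have d1 : (S1.card : ℝ) ≤ ((laS T M n).card : ℝ) := by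
    refine card_tail (1, -1) ?_
    intro Q hQ
    obtain ⟨hQ, hT⟩ := Finset.mem_filter.1 hQ
    obtain ⟨hQ, -⟩ := Finset.mem_filter.1 hQ
    obtain ⟨u, v, w, r, rfl, g1, g2, g3, g4, g5, g6⟩ := exV_str h0 hQ
    rw [hT] at g6
    rcases g6 with ⟨h, -⟩ | ⟨h, -⟩ | ⟨-, h, h'⟩ | ⟨h, -⟩ | ⟨h, -⟩ | ⟨h, -⟩ | ⟨h, -⟩
    · omega
    · omega
    · refine ⟨?_, by rw [h]; rfl⟩
      rw [List.tail_cons]
      unfold laS
      rw [Finset.mem_filter, mem_saw (D_dom _)]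
      exact ⟨g1.mono (fun x hx => hx.1), h'⟩
    · omega
    · omega
    · omega
    · omega
  -- the other exits
  have pos : ∀ Q ∈ E2, 0 ≤ sn Q := by
    intro Q hQ
    obtain ⟨hQ, hT1⟩ := Finset.mem_filter.1 hQ
    obtain ⟨hQ, hT3⟩ := Finset.mem_filter.1 hQ
    obtain ⟨u, v, w, r, rfl, g1, g2, g3, g4, g5, g6⟩ := exV_str h0 hQ
    rcases g6 with ⟨h, -⟩ | ⟨h, -⟩ | ⟨h, -⟩ | ⟨h, -⟩ | ⟨h, -⟩ | ⟨h, -⟩ | ⟨h, -⟩
    · rw [sn_val h, sin0]
    · rw [sn_val h, sin1]; exact h1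
    · exact absurd h hT1
    · rw [sn_val h]; exact_mod_cast h3
    · exact absurd h hT3
    · rw [sn_val h]
      have := s2_ge
      push_cast
      linarith
    · rw [sn_val h, sin4]; norm_num
  set A := (fr T M e τ n).image (fun P => (P.headI + (-1, 1)) :: P) with hA
  set B := (arN T M e τ n).image (fun P => (P.headI + (-1, 0)) :: P) with hB
  have kA : ∀ Q ∈ A, Q ∈ E2 ∧ Tn Q = 2 := by
    intro Q hQ
    rw [hA, Finset.mem_image] at hQ
    obtain ⟨P, hP, rfl⟩ := hQ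
    obtain ⟨k1, k2⟩ := mem_fr h0 hP
    refine ⟨?_, k2⟩
    rw [hE2, hE1, Finset.mem_filter, Finset.mem_filter, k2]
    exact ⟨⟨k1, by norm_num⟩, by norm_num⟩
  have kB : ∀ Q ∈ B, Q ∈ E2 ∧ Tn Q = 3 := by
    intro Q hQ
    rw [hB, Finset.mem_image] at hQ
    obtain ⟨P, hP, rfl⟩ := hQ
    unfold arN at hP
    rw [Finset.mem_filter] at hP
    obtain ⟨k1, k2, -⟩ := mem_arc h0 hP.1 hP.2.1 hP.2.2.1 (by have := hP.2.2.2; omega)
    have k2 := k2 hP.2.2.2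
    refine ⟨?_, k2⟩
    rw [hE2, hE1, Finset.mem_filter, Finset.mem_filter, k2]
    exact ⟨⟨k1, by norm_num⟩, by norm_num⟩
  have dAB : Disjoint A B := by
    rw [Finset.disjoint_left]
    intro Q q1 q2
    have := (kA Q q1).2
    have := (kB Q q2).2
    omega
  have hsub : A ∪ B ⊆ E2 := by
    intro Q hQ
    rcases Finset.mem_union.1 hQ with hQ | hQ
    · exact (kA Q hQ).1
    · exact (kB Q hQ).1
  have hle := Finset.sum_le_sum_of_subset_of_nonneg hsub (fun Q hQ _ => pos Q hQ)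
  rw [Finset.sum_union dAB] at hle
  have cA : 0.7 * ((fr T M e τ n).card : ℝ) ≤ ∑ Q ∈ A, sn Q := by
    have := Finset.card_nsmul_le_sum A sn 0.7 (fun Q hQ => by
      rw [sn_val (kA Q hQ).2]
      have := s2_ge
      push_cast
      exact this)
    rw [nsmul_eq_mul, hA, card_im] at this
    linarith
  have cB : Real.sin (3 * (Real.pi / 8)) * ((arN T M e τ n).card : ℝ) = ∑ Q ∈ B, sn Q := by
    rw [Finset.sum_congr rfl (fun Q hQ => sn_val (kB Q hQ).2), Finset.sum_const, nsmul_eq_mul, hB, card_im]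
    push_cast
    ring
  have e3 := mul_le_mul_of_nonneg_left d3 h3
  have e1 : Real.sin (Real.pi / 8) * (S1.card : ℝ) ≤ ((laS T M n).card : ℝ) := by
    have h2 : Real.sin (Real.pi / 8) * (S1.card : ℝ) ≤ 1 * (S1.card : ℝ) :=
      mul_le_mul_of_nonneg_right (Real.sin_le_one _) (Nat.cast_nonneg _)
    linarith
  rw [s, c3, c1]
  linarith

/-- Upper bound for one length. -/
private lemma dn_n (T M : ℕ) (τ : ℤ) (h0 : 1 ≤ T ∨ 1 ≤ τ) (n : ℕ) :
    ∑ Q ∈ exV T M T τ n, sn Q ≤ Real.sin (3 * (Real.pi / 8)) * ((arN T M T τ n).card : ℝ) +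
      ((tpn T M τ n).card : ℝ) + ((laN T M n).card : ℝ) -
      Real.sin (3 * (Real.pi / 8)) * ((arS T M T τ n).card : ℝ) := by
  have h3 := s3_nonneg
  have h1 := s1_nonneg
  set E := exV T M T τ n with hE
  set A1 := E.filter (fun Q => Tn Q = 3) with hA1
  set E1 := E.filter (fun Q => ¬ Tn Q = 3) with hE1
  set A2 := E1.filter (fun Q => Tn Q = 2) with hA2
  set E2 := E1.filter (fun Q => ¬ Tn Q = 2) with hE2
  set A3 := E2.filter (fun Q => Tn Q = 1) with hA3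
  set E3 := E2.filter (fun Q => ¬ Tn Q = 1) with hE3
  have s : ∑ Q ∈ E, sn Q = ∑ Q ∈ A1, sn Q + (∑ Q ∈ A2, sn Q + (∑ Q ∈ A3, sn Q + ∑ Q ∈ E3, sn Q)) := by
    rw [hA3, hE3, Finset.sum_filter_add_sum_filter_not, hA2, hE2, Finset.sum_filter_add_sum_filter_not,
      hA1, hE1, Finset.sum_filter_add_sum_filter_not]
  -- the upper arcs
  have c1 : ∑ Q ∈ A1, sn Q ≤ Real.sin (3 * (Real.pi / 8)) * ((arN T M T τ n).card : ℝ) := by
    rw [Finset.sum_congr rfl (fun Q hQ => sn_val (Finset.mem_filter.1 hQ).2), Finset.sum_const,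
      nsmul_eq_mul, mul_comm]
    push_cast
    refine mul_le_mul_of_nonneg_left ?_ h3
    refine card_tail (-1, 0) ?_
    intro Q hQ
    obtain ⟨hQ, hT⟩ := Finset.mem_filter.1 hQ
    obtain ⟨u, v, w, r, rfl, g1, g2, g3, g4, g5, g6⟩ := exV_str h0 hQ
    rw [hT] at g6
    rcases g6 with ⟨h, -⟩ | ⟨h, -⟩ | ⟨h, -⟩ | ⟨-, h, h', h''⟩ | ⟨h, -⟩ | ⟨h, -⟩ | ⟨h, -⟩
    · omega
    · omega
    · omega
    · refine ⟨?_, by rw [h]; rfl⟩
      rw [List.tail_cons]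
      unfold arN
      rw [Finset.mem_filter, mem_saw (Rh_dom h0)]
      exact ⟨g1, g5, h', h''⟩
    · omega
    · omega
    · omega
  -- the walks near the slit
  have c2 : ∑ Q ∈ A2, sn Q ≤ ((tpn T M τ n).card : ℝ) := by
    have hle : ∑ Q ∈ A2, sn Q ≤ ∑ Q ∈ A2, (1 : ℝ) :=
      Finset.sum_le_sum fun Q _ => Real.sin_le_one _
    refine hle.trans ?_
    rw [Finset.sum_const, nsmul_eq_mul, mul_one]
    refine card_tail (-1, 1) ?_
    intro Q hQ
    obtain ⟨hQ, hT⟩ := Finset.mem_filter.1 hQ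
    obtain ⟨hQ, -⟩ := Finset.mem_filter.1 hQ
    obtain ⟨u, v, w, r, rfl, g1, g2, g3, g4, g5, g6⟩ := exV_str h0 hQ
    rw [hT] at g6
    rcases g6 with ⟨h, -⟩ | ⟨h, -⟩ | ⟨h, -⟩ | ⟨h, -⟩ | ⟨h, -⟩ | ⟨-, h, h', h''⟩ | ⟨h, -⟩
    · omega
    · omega
    · omega
    · omega
    · omega
    · refine ⟨?_, by rw [h]; rfl⟩
      rw [List.tail_cons]
      unfold tpn
      rw [Finset.mem_filter, mem_saw (D_dom _)]
      refine ⟨g1.mono (fun x hx => hx.1), ?_⟩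
      rw [List.headI_cons]
      have hvw : Adj v w := (List.isChain_cons_cons.1 g1.2.2.1).1
      have hw : (0 ≤ F0 w ∧ F0 w ≤ 3 * (T : ℤ) + 1 ∧ ¬ (F0 w = 3 * (T : ℤ) ∧ τ ≤ w.2)) ∨ F0 w = -2 := by
        rcases mem_cases' g1 (x := w) (by simp) with h5 | h5
        · exact Or.inl ⟨(rh_F0 h5).1, (rh_F0 h5).2, h5.2⟩
        · rw [h5, o'_F0]; exact Or.inr rfl
      rw [h] at h' h'' g3
      have g3' : ¬ (w.1 = v.1 + -1 ∧ w.2 = v.2 + 1) := by
        rintro ⟨k1, k2⟩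
        apply g3
        exact Prod.ext k1.symm k2.symm
      obtain ⟨k1, k2, k3⟩ := hvw
      simp only [hon, U, F0, Prod.fst_add, Prod.snd_add, Prod.fst_sub, Prod.snd_sub] at *
      omega
    · omega
  -- the upper lateral side
  have c3 : ∑ Q ∈ A3, sn Q ≤ ((laN T M n).card : ℝ) := by
    have hle : ∑ Q ∈ A3, sn Q ≤ ∑ Q ∈ A3, (1 : ℝ) :=
      Finset.sum_le_sum fun Q _ => Real.sin_le_one _
    refine hle.trans ?_
    rw [Finset.sum_const, nsmul_eq_mul, mul_one]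
    refine card_tail (0, 1) ?_
    intro Q hQ
    obtain ⟨hQ, hT⟩ := Finset.mem_filter.1 hQ
    obtain ⟨hQ, -⟩ := Finset.mem_filter.1 hQ
    obtain ⟨hQ, -⟩ := Finset.mem_filter.1 hQ
    obtain ⟨u, v, w, r, rfl, g1, g2, g3, g4, g5, g6⟩ := exV_str h0 hQ
    rw [hT] at g6
    rcases g6 with ⟨h, -⟩ | ⟨-, h, h'⟩ | ⟨h, -⟩ | ⟨h, -⟩ | ⟨h, -⟩ | ⟨h, -⟩ | ⟨h, -⟩
    · omega
    · refine ⟨?_, by rw [h]; rfl⟩
      rw [List.tail_cons]
      unfold laN
      rw [Finset.mem_filter, mem_saw (D_dom _)]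
      exact ⟨g1.mono (fun x hx => hx.1), h'⟩
    · omega
    · omega
    · omega
    · omega
    · omega
  -- the other exits
  have neg : ∀ Q ∈ E3, sn Q ≤ 0 := by
    intro Q hQ
    obtain ⟨hQ, hT1⟩ := Finset.mem_filter.1 hQ
    obtain ⟨hQ, hT2⟩ := Finset.mem_filter.1 hQ
    obtain ⟨hQ, hT3⟩ := Finset.mem_filter.1 hQ
    obtain ⟨u, v, w, r, rfl, g1, g2, g3, g4, g5, g6⟩ := exV_str h0 hQ
    rcases g6 with ⟨h, -⟩ | ⟨h, -⟩ | ⟨h, -⟩ | ⟨h, -⟩ | ⟨h, -⟩ | ⟨h, -⟩ | ⟨-, h, h', h''⟩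
    · rw [sn_val h, sin0]
    · exact absurd h hT1
    · rw [sn_val h, sinm1]; linarith
    · exact absurd h hT3
    · rw [sn_val h, sinm3]; linarith
    · exact absurd h hT2
    · exfalso
      have hvw : Adj v w := (List.isChain_cons_cons.1 g1.2.2.1).1
      have hw : (0 ≤ F0 w ∧ F0 w ≤ 3 * (T : ℤ) + 1 ∧ ¬ (F0 w = 3 * (T : ℤ) ∧ τ ≤ w.2)) ∨ F0 w = -2 := by
        rcases mem_cases' g1 (x := w) (by simp) with h5 | h5
        · exact Or.inl ⟨(rh_F0 h5).1, (rh_F0 h5).2, h5.2⟩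
        · rw [h5, o'_F0]; exact Or.inr rfl
      rw [h] at h' h'' g3
      have g3' : ¬ (w.1 = v.1 + 0 ∧ w.2 = v.2 + -1) := by
        rintro ⟨k1, k2⟩
        apply g3
        exact Prod.ext k1.symm k2.symm
      obtain ⟨k1, k2, k3⟩ := hvw
      clear g4 g5 hQ hT1 hT2 hT3 g2 g3
      simp only [hon, U, F0, Prod.fst_add, Prod.snd_add, Prod.fst_sub, Prod.snd_sub] at *
      omega
  set B := (arS T M T τ n).image (fun P => (P.headI + (-1, 0)) :: P) with hB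
  have kB : ∀ Q ∈ B, Q ∈ E3 ∧ Tn Q = -3 := by
    intro Q hQ
    rw [hB, Finset.mem_image] at hQ
    obtain ⟨P, hP, rfl⟩ := hQ
    unfold arS at hP
    rw [Finset.mem_filter] at hP
    obtain ⟨k1, -, k2⟩ := mem_arc h0 hP.1 hP.2.1 hP.2.2.1 (by have := hP.2.2.2; omega)
    have k2 := k2 hP.2.2.2
    refine ⟨?_, k2⟩
    rw [hE3, hE2, hE1, Finset.mem_filter, Finset.mem_filter, Finset.mem_filter, k2]
    exact ⟨⟨⟨k1, by norm_num⟩, by norm_num⟩, by norm_num⟩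
  have hsub : B ⊆ E3 := fun Q hQ => (kB Q hQ).1
  have hle : ∑ Q ∈ E3, sn Q ≤ ∑ Q ∈ B, sn Q := by
    rw [← Finset.sum_sdiff hsub]
    have : ∑ Q ∈ E3 \ B, sn Q ≤ 0 :=
      Finset.sum_nonpos fun Q hQ => neg Q (Finset.mem_sdiff.1 hQ).1
    linarith
  have cB : ∑ Q ∈ B, sn Q = - (Real.sin (3 * (Real.pi / 8)) * ((arS T M T τ n).card : ℝ)) := by
    rw [Finset.sum_congr rfl (fun Q hQ => (sn_val (kB Q hQ).2).trans sinm3), Finset.sum_const,
      nsmul_eq_mul, hB, card_im]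
    ring
  rw [s]
  linarith

/-- Empty walks. -/
private lemma tail_zero (T M e : ℕ) (τ : ℤ) (h0 : 1 ≤ e ∨ 1 ≤ τ) : ∃ B : ℕ, ∀ n, B ≤ n →
    saw (Rh T M e τ) n = ∅ ∧ saw (D (cc T M)) n = ∅ := by
  obtain ⟨B1, h1⟩ := saw_emp (Rh_dom (T := T) (M := M) h0) (c := cc T M) (fun x hx => hx.1)
  obtain ⟨B2, h2⟩ := saw_empty' (cc T M)
  exact ⟨max B1 B2, fun n hn => ⟨h1 n ((le_max_left _ _).trans hn), h2 n ((le_max_right _ _).trans hn)⟩⟩

private lemma sum_ext {f : ℕ → ℝ} {B K : ℕ} (h : B ≤ K) (h0 : ∀ n, B ≤ n → f n = 0) :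
    ∑ n ∈ range B, xc ^ (n + 1) * f n = ∑ n ∈ range K, xc ^ (n + 1) * f n := by
  refine Finset.sum_subset (Finset.range_subset_range.2 h) ?_
  intro n _ hn
  rw [Finset.mem_range, not_lt] at hn
  rw [h0 n hn, mul_zero]

private lemma sum_inc {f : ℕ → ℝ} {N K : ℕ} (h : N ≤ K) (h0 : ∀ n, 0 ≤ f n) :
    ∑ n ∈ range N, xc ^ (n + 1) * f n ≤ ∑ n ∈ range K, xc ^ (n + 1) * f n :=
  Finset.sum_le_sum_of_subset_of_nonneg (Finset.range_subset_range.2 h)
    (fun n _ _ => mul_nonneg (pow_nonneg xc_pos.le _) (h0 n))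

theorem im_up (T M e : ℕ) (τ : ℤ) (h0 : 1 ≤ e ∨ 1 ≤ τ) (he : e ≤ T) : ∃ B : ℕ, ∀ N : ℕ,
    0.7 * ∑ n ∈ range N, xc ^ (n + 1) * ((fr T M e τ n).card : ℝ) +
      Real.sin (3 * (Real.pi / 8)) * ∑ n ∈ range N, xc ^ (n + 1) * ((arN T M e τ n).card : ℝ) ≤
    Real.sin (3 * (Real.pi / 8)) * ∑ n ∈ range B, xc ^ (n + 1) * ((arS T M e τ n).card : ℝ) +
      ∑ n ∈ range B, xc ^ (n + 1) * ((laS T M n).card : ℝ) := by
  obtain ⟨B1, hB1⟩ := ident_vis T M e τ h0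
  obtain ⟨B, hB⟩ := tail_zero T M e τ h0
  refine ⟨B, fun N => ?_⟩
  have h3 := s3_nonneg
  set K := max (max B1 B) N with hK
  have hK1 : B1 ≤ K := le_trans (le_max_left _ _) (le_max_left _ _)
  have hK2 : B ≤ K := le_trans (le_max_right _ _) (le_max_left _ _)
  have hK3 : N ≤ K := le_max_right _ _
  have i1 := hB1 K hK1
  have e1 := sum_ext (f := fun n => ((arS T M e τ n).card : ℝ)) hK2 (fun n hn => by
    unfold arS; rw [(hB n hn).1]; simp)
  have e2 := sum_ext (f := fun n => ((laS T M n).card : ℝ)) hK2 (fun n hn => by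
    unfold laS; rw [(hB n hn).2]; simp)
  have e3 := sum_inc (f := fun n => ((fr T M e τ n).card : ℝ)) hK3 (fun n => Nat.cast_nonneg _)
  have e4 := sum_inc (f := fun n => ((arN T M e τ n).card : ℝ)) hK3 (fun n => Nat.cast_nonneg _)
  rw [e1, e2]
  have e4' := mul_le_mul_of_nonneg_left e4 h3
  have j : ∑ n ∈ range K, xc ^ (n + 1) * (0.7 * ((fr T M e τ n).card : ℝ) +
      Real.sin (3 * (Real.pi / 8)) * ((arN T M e τ n).card : ℝ) -
      Real.sin (3 * (Real.pi / 8)) * ((arS T M e τ n).card : ℝ) - ((laS T M n).card : ℝ)) ≤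
      ∑ n ∈ range K, xc ^ (n + 1) * ∑ Q ∈ exV T M e τ n, sn Q :=
    Finset.sum_le_sum fun n _ => mul_le_mul_of_nonneg_left (up_n T M e τ h0 n) (pow_nonneg xc_pos.le _)
  rw [i1] at j
  have j2 : ∑ n ∈ range K, xc ^ (n + 1) * (0.7 * ((fr T M e τ n).card : ℝ) +
      Real.sin (3 * (Real.pi / 8)) * ((arN T M e τ n).card : ℝ) -
      Real.sin (3 * (Real.pi / 8)) * ((arS T M e τ n).card : ℝ) - ((laS T M n).card : ℝ)) =
      0.7 * ∑ n ∈ range K, xc ^ (n + 1) * ((fr T M e τ n).card : ℝ) +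
      Real.sin (3 * (Real.pi / 8)) * ∑ n ∈ range K, xc ^ (n + 1) * ((arN T M e τ n).card : ℝ) -
      Real.sin (3 * (Real.pi / 8)) * ∑ n ∈ range K, xc ^ (n + 1) * ((arS T M e τ n).card : ℝ) -
      ∑ n ∈ range K, xc ^ (n + 1) * ((laS T M n).card : ℝ) := by
    rw [Finset.mul_sum, Finset.mul_sum, Finset.mul_sum, ← Finset.sum_add_distrib, ← Finset.sum_sub_distrib,
      ← Finset.sum_sub_distrib]
    refine Finset.sum_congr rfl fun n _ => ?_
    ring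
  rw [j2] at j
  linarith

theorem im_dn (T M : ℕ) (τ : ℤ) (h0 : 1 ≤ T ∨ 1 ≤ τ) : ∃ B : ℕ, ∀ N : ℕ,
    Real.sin (3 * (Real.pi / 8)) * ∑ n ∈ range N, xc ^ (n + 1) * ((arS T M T τ n).card : ℝ) ≤
    Real.sin (3 * (Real.pi / 8)) * ∑ n ∈ range B, xc ^ (n + 1) * ((arN T M T τ n).card : ℝ) +
      ∑ n ∈ range B, xc ^ (n + 1) * ((tpn T M τ n).card : ℝ) +
      ∑ n ∈ range B, xc ^ (n + 1) * ((laN T M n).card : ℝ) := by
  obtain ⟨B1, hB1⟩ := ident_vis T M T τ h0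
  obtain ⟨B, hB⟩ := tail_zero T M T τ h0
  refine ⟨B, fun N => ?_⟩
  have h3 := s3_nonneg
  set K := max (max B1 B) N with hK
  have hK1 : B1 ≤ K := le_trans (le_max_left _ _) (le_max_left _ _)
  have hK2 : B ≤ K := le_trans (le_max_right _ _) (le_max_left _ _)
  have hK3 : N ≤ K := le_max_right _ _
  have i1 := hB1 K hK1
  have e1 := sum_ext (f := fun n => ((arN T M T τ n).card : ℝ)) hK2 (fun n hn => by
    unfold arN; rw [(hB n hn).1]; simp)
  have e2 := sum_ext (f := fun n => ((laN T M n).card : ℝ)) hK2 (fun n hn => by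
    unfold laN; rw [(hB n hn).2]; simp)
  have e5 := sum_ext (f := fun n => ((tpn T M τ n).card : ℝ)) hK2 (fun n hn => by
    unfold tpn; rw [(hB n hn).2]; simp)
  have e4 := sum_inc (f := fun n => ((arS T M T τ n).card : ℝ)) hK3 (fun n => Nat.cast_nonneg _)
  rw [e1, e2, e5]
  have e4' := mul_le_mul_of_nonneg_left e4 h3
  have j : ∑ n ∈ range K, xc ^ (n + 1) * ∑ Q ∈ exV T M T τ n, sn Q ≤
      ∑ n ∈ range K, xc ^ (n + 1) * (Real.sin (3 * (Real.pi / 8)) * ((arN T M T τ n).card : ℝ) +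
      ((tpn T M τ n).card : ℝ) + ((laN T M n).card : ℝ) -
      Real.sin (3 * (Real.pi / 8)) * ((arS T M T τ n).card : ℝ)) :=
    Finset.sum_le_sum fun n _ => mul_le_mul_of_nonneg_left (dn_n T M τ h0 n) (pow_nonneg xc_pos.le _)
  rw [i1] at j
  have j2 : ∑ n ∈ range K, xc ^ (n + 1) * (Real.sin (3 * (Real.pi / 8)) * ((arN T M T τ n).card : ℝ) +
      ((tpn T M τ n).card : ℝ) + ((laN T M n).card : ℝ) -
      Real.sin (3 * (Real.pi / 8)) * ((arS T M T τ n).card : ℝ)) =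
      Real.sin (3 * (Real.pi / 8)) * ∑ n ∈ range K, xc ^ (n + 1) * ((arN T M T τ n).card : ℝ) +
      ∑ n ∈ range K, xc ^ (n + 1) * ((tpn T M τ n).card : ℝ) +
      ∑ n ∈ range K, xc ^ (n + 1) * ((laN T M n).card : ℝ) -
      Real.sin (3 * (Real.pi / 8)) * ∑ n ∈ range K, xc ^ (n + 1) * ((arS T M T τ n).card : ℝ) := by
    rw [Finset.mul_sum, Finset.mul_sum, ← Finset.sum_add_distrib, ← Finset.sum_add_distrib,
      ← Finset.sum_sub_distrib]
    refine Finset.sum_congr rfl fun n _ => ?_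
    ring
  rw [j2] at j
  linarith

end Pool.Agent.HEP
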