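import Pool.Agent.GAP.SDef
import Pool.Agent.HEP.GFar
import Pool.Agent.HEP.GRefl

/-!
Project GAP, geometry, module SLat: the lateral masses are small along a sequence of sizes `M`.

PAPER PROOF. Upper side. `P ∈ laN T M n` is `toL W`, `W` of length `n`, nodup, all vertices in `D (cc T M)`, end `v = (a, b)` with `F1 v = a + 2 b = 3 M`; `v` is `hon`, so `F1 v ≡ 0`
gives residue 0: `F0 v = 2 a + b = 3 j`, `0 ≤ j ≤ T` (as `0 ≤ F0 v`: `F3 v ≤ 0` by `D`), hence `v.2 = 2 M - j`. Extend `W` by the steps `(0, 1)` and then `k = T + 1 - j` times `(1, 0), (0, 1)`: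
all the new vertices have `F1 ≥ 3 M + 2`, so they are not in `D (cc T M)`, different from the vertices of `W` and from each other (`F1` increases). (The last direction of `W` is one of the
directions that lead to a residue 0 vertex; the three edges at `v` are `(-1, 0), (0, 1), (1, -1)` and `v + (0, 1)` is not the vertex before `v` since it is not in the domain; so `(0, 1)` is one of the two
possible next directions; case `n = 0`: `v = o` has `F1 = 0`, `M = 0`, choose `M ≥ 1` so that this does not occur.) The result is a word `W'` of `Br (T + 1)` (its vertices have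
`0 ≤ F0 ≤ 3 (T + 1) + 1`, the end `F0 = 3 j + 1 + 3 k = 3 (T + 1) + 1`), `W'.length = n + 1 + 2 k ≤ n + 2 T + 3`, `(E W').2 = 2 M - j + 1 + k = 2 M + T + 2 - 2 j`. `W'` determines `j` (by its end, `M` is fixed), hence `k` and `W`.
So `∑ n < B, xc ^ (n + 1) * |laN T M n| ≤ xc ^ (-(2 T + 3)) * m M`, `m M = (ms xE (fun W => Br (T + 1) W ∧ 2 M - T + 2 ≤ (E W).2 ∧ (E W).2 ≤ 2 M + T + 2)).toReal`
(technique: `count_le` of HEP/GFar (private, copy) or `ms_rel`/`tsum_rel` of HHP). For `M = (T + 1) i`, `i = 0, 1, 2, ...` the windows are disjoint, so `∑ i, m ((T + 1) i) ≤ ms xE (Br (T + 1)) ≤ 1` (`Br_one`, `ms_disj`): the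
terms tend to 0, so some `i` as large as we like has `m ≤ ε xc ^ (2 T + 3) / 2`.
Lower side: reflection. `W.map (! ·)` reflects the word (`E_not`, `V_not` in HEP/GRefl: second coordinates; the domain `cc T M` is symmetric: `F1 ↔ F5`, `F2 ↔ F4`, sign of `z.2`), so
`(laS T M n).card = (laN T M n).card` (or treat `laS` directly with the steps `(1, -1)`, `(1, 0)`: the same computation; or map words of `laS` to words of `laN`, injective).
-/

namespace Pool.Agent.HEP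

open Pool.Agent.Hhelper14.SAW Pool.Agent.HHP Finset
open scoped ENNReal

private lemma SL_count {P : List Bool → Prop} (F : ℕ → Finset (List (ℤ × ℤ)))
    (h : ∀ n, ∀ Q ∈ F n, ∃ W, W.length = n ∧ P W ∧ toL W = Q) {x : ℝ} (hx : 0 ≤ x) (B : ℕ) :
    ENNReal.ofReal (∑ n ∈ range B, x ^ (n + 1) * ((F n).card : ℝ)) ≤ ms (ENNReal.ofReal x) P := by
  classical
  have hex : ∀ q : (_ : ℕ) × List (ℤ × ℤ), ∃ W : List Bool, q ∈ (range B).sigma F →
      W.length = q.1 ∧ P W ∧ toL W = q.2 := by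
    intro q
    by_cases hq : q ∈ (range B).sigma F
    · obtain ⟨W, h2, h3, h4⟩ := h q.1 q.2 (Finset.mem_sigma.1 hq).2
      exact ⟨W, fun _ => ⟨h2, h3, h4⟩⟩
    · exact ⟨[], fun h => absurd h hq⟩
  choose φ hφ using hex
  have h1 : ENNReal.ofReal (∑ n ∈ range B, x ^ (n + 1) * ((F n).card : ℝ)) =
      ∑ q ∈ (range B).sigma F, ENNReal.ofReal x ^ ((φ q).length + 1) := by
    rw [ENNReal.ofReal_sum_of_nonneg (fun n _ => by positivity), Finset.sum_sigma]
    refine Finset.sum_congr rfl fun n hn => ?_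
    have h2 : ∀ Q ∈ F n, ENNReal.ofReal x ^ ((φ ⟨n, Q⟩).length + 1) = ENNReal.ofReal x ^ (n + 1) := by
      intro Q hQ
      rw [(hφ ⟨n, Q⟩ (Finset.mem_sigma.2 ⟨hn, hQ⟩)).1]
    rw [Finset.sum_congr rfl h2, Finset.sum_const, nsmul_eq_mul,
      ENNReal.ofReal_mul (by positivity), ENNReal.ofReal_pow hx, ENNReal.ofReal_natCast, mul_comm]
  rw [h1]
  have hinj : ∀ q ∈ (range B).sigma F, ∀ q' ∈ (range B).sigma F, φ q = φ q' → q = q' := by
    intro q hq q' hq' he
    have a := hφ q hq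
    have b := hφ q' hq'
    obtain ⟨n, Q⟩ := q
    obtain ⟨n', Q'⟩ := q'
    have e1 : n = n' := by
      have h3 := a.1
      have h4 := b.1
      simp only at h3 h4
      rw [← h3, ← h4, he]
    have e2 : Q = Q' := by
      have h3 := a.2.2
      have h4 := b.2.2
      simp only at h3 h4
      rw [← h3, ← h4, he]
    subst e1 e2
    rfl
  rw [ms_ind]
  calc ∑ q ∈ (range B).sigma F, ENNReal.ofReal x ^ ((φ q).length + 1)
      = ∑ q ∈ (range B).sigma F,
          (fun W => if P W then ENNReal.ofReal x ^ (W.length + 1) else 0) (φ q) := by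
        refine Finset.sum_congr rfl fun q hq => ?_
        simp only
        rw [if_pos (hφ q hq).2.1]
    _ = ∑ W ∈ ((range B).sigma F).image φ,
          (if P W then ENNReal.ofReal x ^ (W.length + 1) else 0) :=
        (Finset.sum_image (f := fun W => if P W then ENNReal.ofReal x ^ (W.length + 1) else 0)
          fun q hq q' hq' he => hinj q hq q' hq' he).symm
    _ ≤ _ := by
        refine (ENNReal.sum_le_tsum _).trans (le_of_eq (tsum_congr fun W => ?_))
        congr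

/-- words at the upper lateral side -/
private def SL_La (T M : ℕ) (W : List Bool) : Prop :=
  (V W).Nodup ∧ (∀ z ∈ V W, 0 ≤ F0 z ∧ F0 z ≤ 3 * (T : ℤ) + 1 ∧ F1 z ≤ 3 * (M : ℤ)) ∧
    F1 (E W) = 3 * (M : ℤ)

/-- the windows -/
private def SL_Q (T M : ℕ) (W : List Bool) : Prop :=
  Br (T + 1) W ∧ 3 * (M : ℤ) + 2 ≤ F1 (E W) ∧ F1 (E W) ≤ 3 * (M : ℤ) + 3 * T + 5

/-- words whose end is a record of `F1` -/
private def SL_Rec (X : List Bool) : Prop := (V X).Nodup ∧ ∀ z ∈ V X, F1 z ≤ F1 (E X)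

private lemma SL_F1_add (x y : ℤ × ℤ) : F1 (x + y) = F1 x + F1 y := by
  simp only [F1, Prod.fst_add, Prod.snd_add]; ring

private lemma SL_Rec_snoc {X : List Bool} {b : Bool} (h : SL_Rec X) (hb : 0 < F1 (tn b (Dr X))) :
    SL_Rec (X ++ [b]) := by
  have h1 : F1 (E (X ++ [b])) = F1 (E X) + F1 (tn b (Dr X)) := by rw [E_snoc, SL_F1_add]
  refine ⟨?_, ?_⟩
  · rw [V_snoc, List.nodup_append]
    refine ⟨h.1, by simp, ?_⟩
    intro x hx y hy hxy
    rw [List.mem_singleton] at hy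
    have h2 := h.2 x hx
    rw [hxy, hy, SL_F1_add] at h2
    omega
  · intro z hz
    rw [V_snoc, List.mem_append, List.mem_singleton] at hz
    rw [h1]
    rcases hz with hz | hz
    · have := h.2 z hz
      omega
    · rw [hz, SL_F1_add]

/-- the zigzag -/
private def SL_zz : ℕ → List Bool
  | 0 => []
  | k + 1 => SL_zz k ++ [false] ++ [true]

private lemma SL_zz_length (k : ℕ) : (SL_zz k).length = 2 * k := by
  induction k with
  | zero => rfl
  | succ k ih => simp [SL_zz, ih]; ring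

private lemma SL_ext {X : List Bool} {B : ℤ} (hX : SL_Rec X) (hD : Dr X = (0, 1))
    (hF : ∀ z ∈ V X, 0 ≤ F0 z ∧ F0 z ≤ B) (k : ℕ) :
    SL_Rec (X ++ SL_zz k) ∧ Dr (X ++ SL_zz k) = (0, 1) ∧ E (X ++ SL_zz k) = E X + ((k : ℤ), (k : ℤ)) ∧
      (F0 (E X) + 3 * k ≤ B → ∀ z ∈ V (X ++ SL_zz k), 0 ≤ F0 z ∧ F0 z ≤ B) := by
  induction k with
  | zero =>
    simp only [SL_zz, List.append_nil]
    refine ⟨hX, hD, ?_, fun _ => hF⟩
    ext <;> simp
  | succ k ih =>
    obtain ⟨h1, h2, h3, h4⟩ := ih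
    set Y := X ++ SL_zz k with hY
    have hXY : X ++ SL_zz (k + 1) = (Y ++ [false]) ++ [true] := by
      rw [hY]; simp [SL_zz]
    have e1 : tn false (Dr Y) = (1, 0) := by rw [h2]; decide
    have e2 : Dr (Y ++ [false]) = (1, 0) := by rw [Dr_snoc, e1]
    have e3 : tn true (Dr (Y ++ [false])) = (0, 1) := by rw [e2]; decide
    have r1 : SL_Rec (Y ++ [false]) := SL_Rec_snoc h1 (by rw [e1]; decide)
    have r2 : SL_Rec ((Y ++ [false]) ++ [true]) := SL_Rec_snoc r1 (by rw [e3]; decide)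
    have f1 : E (Y ++ [false]) = E Y + (1, 0) := by rw [E_snoc, e1]
    have f2 : E ((Y ++ [false]) ++ [true]) = E Y + (1, 0) + (0, 1) := by rw [E_snoc, e3, f1]
    have g1 : F0 (E Y + (1, 0)) = F0 (E Y) + 2 := by rw [F0_add]; rfl
    have g2 : F0 (E Y + (1, 0) + (0, 1)) = F0 (E Y) + 3 := by rw [F0_add, g1]; simp [F0]; ring
    have g4 : F0 (E Y) = F0 (E X) + 3 * k := by
      rw [h3, F0_add]; simp [F0]; ring
    have g5 : 0 ≤ F0 (E X) := (hF _ (E_mem X)).1
    rw [hXY]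
    refine ⟨r2, ?_, ?_, ?_⟩
    · rw [Dr_snoc, e3]
    · rw [f2, h3]
      ext
      · simp; ring
      · simp; ring
    · intro hB z hz
      push_cast at hB
      rw [V_snoc, V_snoc, List.mem_append, List.mem_append, List.mem_singleton,
        List.mem_singleton, e1, e3, f1] at hz
      rcases hz with (hz | hz) | hz
      · exact h4 (by omega) z hz
      · rw [hz, g1]
        omega
      · rw [hz, g2]
        omega

private lemma SL_rel {T M : ℕ} {W : List Bool} (h : SL_La T M W) :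
    ∃ k ≤ T + 1, ∃ b, SL_Q T M (W ++ [b] ++ SL_zz k) ∧
      F1 (E (W ++ [b] ++ SL_zz k)) = 3 * (M : ℤ) + 2 + 3 * k := by
  obtain ⟨h1, h2, h3⟩ := h
  have hE := h2 _ (E_mem W)
  have hres : F0 (E W) % 3 = 0 := by
    have := res_std (E_mem W)
    simp only [F0, F1] at *
    omega
  obtain ⟨b, hb⟩ : ∃ b, tn b (Dr W) = (0, 1) := by
    rcases gd_std W with ⟨-, hd | hd | hd⟩ | ⟨hd, -⟩
    · exact ⟨true, by rw [hd]; decide⟩
    · exfalso
      rcases List.eq_nil_or_concat W with rfl | ⟨X, c, rfl⟩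
      · revert hd; decide
      · rw [List.concat_eq_append] at *
        have h4 : E X ∈ V (X ++ [c]) := by
          rw [V_snoc]; exact List.mem_append_left _ (E_mem X)
        have h5 := (h2 _ h4).2.2
        rw [Dr_snoc] at hd
        rw [E_snoc, hd, SL_F1_add] at h3
        have h6 : F1 ((0, -1) : ℤ × ℤ) = -2 := by decide
        omega
    · exact ⟨false, by rw [hd]; decide⟩
    · omega
  have hrec : SL_Rec (W ++ [b]) := by
    refine SL_Rec_snoc ⟨h1, fun z hz => ?_⟩ (by rw [hb]; decide)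
    have := (h2 z hz).2.2
    omega
  have hV : ∀ z ∈ V (W ++ [b]), 0 ≤ F0 z ∧ F0 z ≤ 3 * ((T + 1 : ℕ) : ℤ) + 1 := by
    intro z hz
    rw [V_snoc, hb, List.mem_append, List.mem_singleton] at hz
    rcases hz with hz | hz
    · have := h2 z hz
      push_cast
      omega
    · rw [hz, F0_add]
      have : F0 ((0, 1) : ℤ × ℤ) = 1 := by decide
      push_cast
      omega
  have hF0 : F0 (E (W ++ [b])) = F0 (E W) + 1 := by rw [E_snoc, hb, F0_add]; rfl
  have hF1 : F1 (E (W ++ [b])) = 3 * (M : ℤ) + 2 := by rw [E_snoc, hb, SL_F1_add, h3]; rfl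
  obtain ⟨k, hk⟩ : ∃ k : ℕ, F0 (E W) + 3 * k = 3 * ((T + 1 : ℕ) : ℤ) := by
    refine ⟨(T + 1) - (F0 (E W) / 3).toNat, ?_⟩
    push_cast
    omega
  obtain ⟨g1, g2, g3, g4⟩ := SL_ext hrec (by rw [Dr_snoc, hb]) hV k
  have hk1 : k ≤ T + 1 := by push_cast at hk; omega
  have hF1' : F1 (E (W ++ [b] ++ SL_zz k)) = 3 * (M : ℤ) + 2 + 3 * k := by
    rw [g3, SL_F1_add, hF1]; simp [F1]; ring
  refine ⟨k, hk1, b, ⟨⟨⟨g1.1, g4 (by rw [hF0]; omega)⟩, ?_⟩, ?_, ?_⟩, hF1'⟩
  · rw [g3, F0_add, hF0]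
    have : F0 ((k : ℤ), (k : ℤ)) = 3 * k := by simp [F0]; ring
    push_cast at hk ⊢
    omega
  · rw [hF1']; omega
  · rw [hF1']; push_cast; omega

private lemma SL_ms (T M : ℕ) :
    xE ^ (2 * T + 3) * ms xE (SL_La T M) ≤ ms xE (SL_Q T M) := by
  have h0 : xE ^ (2 * T + 3) ≠ 0 := pow_ne_zero _ xE_ne.1
  have h1 : xE ^ (2 * T + 3) ≠ ∞ := ENNReal.pow_ne_top xE_ne.2
  rw [ENNReal.mul_le_iff_le_inv h0 h1]
  refine ms_rel (fun W W' => ∃ k : ℕ, ∃ b : Bool, W' = W ++ [b] ++ SL_zz k ∧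
    F1 (E W') = 3 * (M : ℤ) + 2 + 3 * k) ?_ ?_
  · intro W hW
    obtain ⟨k, hk, b, hQ, hF⟩ := SL_rel hW
    refine ⟨_, hQ, ⟨k, b, rfl, hF⟩, ?_⟩
    rw [← ENNReal.mul_le_iff_le_inv h0 h1, ← pow_add]
    refine pow_le_pow_right_of_le_one' xE_le ?_
    rw [List.length_append, List.length_append, SL_zz_length]
    simp only [List.length_cons, List.length_nil]
    omega
  · rintro W1 W2 W' - - - ⟨k1, b1, rfl, hF1⟩ ⟨k2, b2, h2, hF2⟩
    have hk : k1 = k2 := by omega
    subst hk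
    have h3 := List.append_inj_left' h2 rfl
    exact List.append_inj_left' h3 rfl

private lemma SL_up (T M B : ℕ) :
    ENNReal.ofReal (∑ n ∈ range B, xc ^ (n + 1) * ((laN T M n).card : ℝ)) ≤
      ms xE (SL_La T M) := by
  refine SL_count (P := SL_La T M) (fun n => laN T M n) ?_ xc_pos.le B
  intro n Q hQ
  unfold laN at hQ
  rw [Finset.mem_filter, mem_saw (D_dom _)] at hQ
  obtain ⟨W, h1, h2, h3, h4⟩ := toL_surj (D_dom _) hQ.1
  refine ⟨W, h1, ⟨h2, fun z hz => ?_, ?_⟩, h4⟩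
  · obtain ⟨-, -, g1, g4, -, g2, g3⟩ := h3 z hz
    simp only [cc, F0, F1, F2, F3, F4] at *
    rcases lt_or_ge z.2 0 with hy | hy
    · have := (g3 hy).2; push_cast at *; omega
    · have := (g2 hy).2; push_cast at *; omega
  · rw [← hQ.2, ← h4, toL_headI]

private lemma SL_dn (T M B : ℕ) :
    ENNReal.ofReal (∑ n ∈ range B, xc ^ (n + 1) * ((laS T M n).card : ℝ)) ≤
      ms xE (SL_La T M) := by
  rw [← ms_not]
  refine SL_count (P := fun W => SL_La T M (W.map (! ·))) (fun n => laS T M n) ?_ xc_pos.le B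
  intro n Q hQ
  unfold laS at hQ
  rw [Finset.mem_filter, mem_saw (D_dom _)] at hQ
  obtain ⟨W, h1, h2, h3, h4⟩ := toL_surj (D_dom _) hQ.1
  have hsg : ∀ z, F1 (sg z) = F5 z := by
    intro z; unfold F1 F5 sg; simp only; ring
  refine ⟨W, h1, ⟨?_, fun z hz => ?_, ?_⟩, h4⟩
  · rw [V_not]; exact h2.map sg_inj
  · rw [V_not, List.mem_map] at hz
    obtain ⟨y, hy, rfl⟩ := hz
    rw [F0_sg, hsg]
    obtain ⟨-, -, g1, -, g4, g2, g3⟩ := h3 y hy
    simp only [cc, F0, F5, F2, F3, F4] at *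
    rcases lt_or_ge y.2 0 with hy | hy
    · have := (g3 hy).2; push_cast at *; omega
    · have := (g2 hy).2; push_cast at *; omega
  · rw [E_not, hsg, ← hQ.2, ← h4, toL_headI]

private lemma SL_sum (T M0 N : ℕ) :
    ∑ i ∈ range N, ms xE (SL_Q T ((T + 2) * (M0 + i))) ≤ 1 := by
  refine (ms_disj (range N) (P := Br (T + 1)) (fun i _ W hW => hW.1) ?_).trans (Br_one _)
  rintro i - j - W ⟨-, h1, h2⟩ ⟨-, h3, h4⟩
  push_cast at h1 h2 h3 h4
  by_contra hne
  rcases lt_or_gt_of_ne hne with h | h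
  · have h5 : (i : ℤ) + 1 ≤ j := by exact_mod_cast h
    nlinarith [mul_le_mul_of_nonneg_left h5 (by positivity : (0 : ℤ) ≤ (T : ℤ) + 2)]
  · have h5 : (j : ℤ) + 1 ≤ i := by exact_mod_cast h
    nlinarith [mul_le_mul_of_nonneg_left h5 (by positivity : (0 : ℤ) ≤ (T : ℤ) + 2)]

private lemma SL_pig (T M0 : ℕ) {δ : ℝ} (hδ : 0 < δ) : ∃ M, M0 ≤ M ∧
    ms xE (SL_Q T M) ≤ ENNReal.ofReal δ := by
  by_contra hc
  push Not at hc
  obtain ⟨N, hN⟩ := exists_nat_gt (1 / δ)
  have h1 : ∑ i ∈ range N, ENNReal.ofReal δ ≤ ∑ i ∈ range N, ms xE (SL_Q T ((T + 2) * (M0 + i))) := by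
    refine Finset.sum_le_sum fun i _ => (hc _ ?_).le
    nlinarith
  have h2 := h1.trans (SL_sum T M0 N)
  rw [Finset.sum_const, card_range, nsmul_eq_mul, ← ENNReal.ofReal_natCast,
    ← ENNReal.ofReal_mul (by positivity)] at h2
  rw [ENNReal.ofReal_le_one] at h2
  rw [div_lt_iff₀ hδ] at hN
  linarith

theorem lat_small (T : ℕ) {ε : ℝ} (hε : 0 < ε) (M0 : ℕ) : ∃ M : ℕ, M0 ≤ M ∧ ∀ B : ℕ,
    ∑ n ∈ range B, xc ^ (n + 1) * ((laN T M n).card : ℝ) ≤ ε ∧
    ∑ n ∈ range B, xc ^ (n + 1) * ((laS T M n).card : ℝ) ≤ ε := by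
  have hx := xc_pos
  obtain ⟨M, hM, h1⟩ := SL_pig T M0 (δ := xc ^ (2 * T + 3) * ε) (by positivity)
  have h0 : xE ^ (2 * T + 3) ≠ 0 := pow_ne_zero _ xE_ne.1
  have h0' : xE ^ (2 * T + 3) ≠ ∞ := ENNReal.pow_ne_top xE_ne.2
  have h2 : ms xE (SL_La T M) ≤ ENNReal.ofReal ε := by
    have h3 := (SL_ms T M).trans h1
    rw [ENNReal.ofReal_mul (by positivity), ENNReal.ofReal_pow hx.le] at h3
    exact (ENNReal.mul_le_mul_iff_right h0 h0').1 h3
  refine ⟨M, hM, fun B => ⟨?_, ?_⟩⟩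
  · exact (ENNReal.ofReal_le_ofReal_iff hε.le).1 ((SL_up T M B).trans h2)
  · exact (ENNReal.ofReal_le_ofReal_iff hε.le).1 ((SL_dn T M B).trans h2)

end Pool.Agent.HEP
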