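import Pool.Agent.GAP.SIm
import Pool.Agent.GAP.SLat

/-!
Project GAP, geometry, module SLim: the two inequalities in words (limit of the finite domains).

PAPER PROOF. COUNTING (as in `HEP/GFar`: `count_le` (private there, copy it) and `HHP/Lib`: `ms_le_of_count`, `toL_surj`, `isSaw_toL`, `toL_headI`, `saw_near`). For a word `W` with `n` letters, all vertices are at
distance `≤ n` of `o`, so for `M ≥ n + 5` the conditions `F1 ≤ 3 M`, `F5 ≤ 3 M`, `F2 ≤ 3 M + 1`, `F4 ≤ 3 M + 1` of `D (cc T M)` hold automatically; `F3 z ≤ 0` is `0 ≤ F0 z`; `¬ slit z` follows from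
`0 ≤ F0 z`. Hence, for `M ≥ N + 5`, `n < N`:
 (i) `W` in `FT T e τ` with `n` letters: `toL W ∈ fr T M e τ n`; (ii) `W` with `AT T W`, `0 < (E W).2`, `Row e τ W`: `toL W ∈ arN T M e τ n`; the same for `arS`.
 (`vis T (toL W)`: `toL W = (V W).reverse ++ [o']`-like list; `F0 z ≥ 3 T` for some `z ∈ V W`. `Rh_dom` needs `1 ≤ e ∨ 1 ≤ τ`; if `e = 0` and `τ ≤ 0` all the sets of the statements
 are empty, because `(0, 0) ∈ V W` contradicts `Row 0 τ W`, and the inequalities are `0 ≤ 0`, resp. trivial.)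
 Conversely, for every `M`, `P ∈ arS T M e τ n` is `toL W` with `AT T W`, `(E W).2 < 0`, `Row e τ W`, `W.length = n` (`¬ hz (Dr W)`: the last step leads to `E W`, `F0 (E W) = 0`; if the last direction were `(1, 0)` the vertex before
 would have `F0 = -2`: only for `W = []`, and then `(E W).2 = 0`; `(-1, 0)` leads to residue 1), so `∑ n < B, xc ^ (n + 1) * |arS T M e τ n| ≤ (ms xE (..)).toReal`. The same for `arN`, and for `tpn`
 (`Br T W`, `τ ≤ (E W).2 + 1`, `(E W).2 ≤ τ`). All the masses are finite: `ms xE (AT T) ≤ 3` (`at_fin`: `AT T W` implies `In T W`, `F0 (E W) = 0`, `W ≠ []`; see `Arc_sum`, `arc_mass` in `HHP/Mass`), `ms xE (Br T) ≤ 1`.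
`lim_up`: let `N` and `ε > 0` be given, `M ≥ N + 5` from `lat_small`. `im_up`: `0.7 * ∑ n < N, .. |fr| + s * ∑ n < N, .. |arN| ≤ s * ∑ n < B, .. |arS| + ε ≤ s * (ms xE (AT.. < 0 ..)).toReal + ε`. The left side is at least the
finite sums (`length < N`) of the two masses of words. `ε → 0`, then `N → ∞` (the finite sums are monotone and converge to the masses; e.g. apply the technique of `ms_le_of_count` to the two sums separately after
noting that in `ℝ≥0∞` `A + B ≤ C` follows from `A_N + B_N ≤ C` for all `N` with `A_N ↑ A`, `B_N ↑ B`: `ENNReal.tsum_eq_iSup_sum'`, or `tendsto`).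
`lim_dn`: the same with `im_dn`.
-/

namespace Pool.Agent.HEP

open Pool.Agent.Hhelper14.SAW Pool.Agent.HHP Finset
open scoped ENNReal

/-- `sin (3 π / 8)`. -/
noncomputable def sE : ℝ≥0∞ := ENNReal.ofReal (Real.sin (3 * (Real.pi / 8)))

private lemma SM_count {P : List Bool → Prop} (F : ℕ → Finset (List (ℤ × ℤ)))
    (h : ∀ n, ∀ Q ∈ F n, ∃ W, W.length = n ∧ P W ∧ toL W = Q) {x : ℝ} (hx : 0 ≤ x) (B : ℕ) :
    ENNReal.ofReal (∑ n ∈ range B, x ^ (n + 1) * ((F n).card : ℝ)) ≤ ms (ENNReal.ofReal x) P := by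
  classical
  have hex : ∀ q : (_ : ℕ) × List (ℤ × ℤ), ∃ W : List Bool, q ∈ (range B).sigma F →
      W.length = q.1 ∧ P W ∧ toL W = q.2 := by
    intro q
    by_cases hq : q ∈ (range B).sigma F
    · obtain ⟨W, h2, h3, h4⟩ := h q.1 q.2 (Finset.mem_sigma.1 hq).2
      exact ⟨W, fun _ => ⟨h2, h3, h4⟩⟩
    · exact ⟨[], fun h => absurd h hq⟩
  choose φ hφ using hex
  have h1 : ENNReal.ofReal (∑ n ∈ range B, x ^ (n + 1) * ((F n).card : ℝ)) =
      ∑ q ∈ (range B).sigma F, ENNReal.ofReal x ^ ((φ q).length + 1) := by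
    rw [ENNReal.ofReal_sum_of_nonneg (fun n _ => by positivity), Finset.sum_sigma]
    refine Finset.sum_congr rfl fun n hn => ?_
    have h2 : ∀ Q ∈ F n, ENNReal.ofReal x ^ ((φ ⟨n, Q⟩).length + 1) = ENNReal.ofReal x ^ (n + 1) := by
      intro Q hQ
      rw [(hφ ⟨n, Q⟩ (Finset.mem_sigma.2 ⟨hn, hQ⟩)).1]
    rw [Finset.sum_congr rfl h2, Finset.sum_const, nsmul_eq_mul,
      ENNReal.ofReal_mul (by positivity), ENNReal.ofReal_pow hx, ENNReal.ofReal_natCast, mul_comm]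
  rw [h1]
  have hinj : ∀ q ∈ (range B).sigma F, ∀ q' ∈ (range B).sigma F, φ q = φ q' → q = q' := by
    intro q hq q' hq' he
    have a := hφ q hq
    have b := hφ q' hq'
    obtain ⟨n, Q⟩ := q
    obtain ⟨n', Q'⟩ := q'
    have e1 : n = n' := by
      have h3 := a.1
      have h4 := b.1
      simp only at h3 h4
      rw [← h3, ← h4, he]
    have e2 : Q = Q' := by
      have h3 := a.2.2
      have h4 := b.2.2
      simp only at h3 h4
      rw [← h3, ← h4, he]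
    subst e1 e2
    rfl
  rw [ms_ind]
  calc ∑ q ∈ (range B).sigma F, ENNReal.ofReal x ^ ((φ q).length + 1)
      = ∑ q ∈ (range B).sigma F,
          (fun W => if P W then ENNReal.ofReal x ^ (W.length + 1) else 0) (φ q) := by
        refine Finset.sum_congr rfl fun q hq => ?_
        simp only
        rw [if_pos (hφ q hq).2.1]
    _ = ∑ W ∈ ((range B).sigma F).image φ,
          (if P W then ENNReal.ofReal x ^ (W.length + 1) else 0) :=
        (Finset.sum_image (f := fun W => if P W then ENNReal.ofReal x ^ (W.length + 1) else 0)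
          fun q hq q' hq' he => hinj q hq q' hq' he).symm
    _ ≤ _ := by
        refine (ENNReal.sum_le_tsum _).trans (le_of_eq (tsum_congr fun W => ?_))
        congr

/-- the same with real numbers -/
private lemma SM_real {P : List Bool → Prop} (F : ℕ → Finset (List (ℤ × ℤ)))
    (h : ∀ n, ∀ Q ∈ F n, ∃ W, W.length = n ∧ P W ∧ toL W = Q) (hf : ms xE P ≠ ∞) (B : ℕ) :
    ∑ n ∈ range B, xc ^ (n + 1) * ((F n).card : ℝ) ≤ (ms xE P).toReal :=
  (ENNReal.ofReal_le_iff_le_toReal hf).1 (SM_count F h xc_pos.le B)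

/-- a mass is at most `M` if all the finite sums are -/
private lemma SM_le {P : List Bool → Prop} (F : ℕ → Finset (List (ℤ × ℤ)))
    (h : ∀ W, P W → toL W ∈ F W.length) {M : ℝ}
    (hM : ∀ N, ∑ n ∈ range N, xc ^ (n + 1) * ((F n).card : ℝ) ≤ M) :
    ms xE P ≠ ∞ ∧ (ms xE P).toReal ≤ M := by
  have h0 : 0 ≤ M := by simpa using hM 0
  have h1 := ms_le_of_count F h xc_pos.le hM
  exact ⟨ne_top_of_le_ne_top ENNReal.ofReal_ne_top h1, ENNReal.toReal_le_of_le_ofReal h0 h1⟩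

/-- two masses -/
private lemma SM_two {P Q : List Bool → Prop} (F G : ℕ → Finset (List (ℤ × ℤ)))
    (h : ∀ W, P W → toL W ∈ F W.length) (h' : ∀ W, Q W → toL W ∈ G W.length)
    {a b M : ℝ} (ha : 0 < a) (hb : 0 < b)
    (hM : ∀ N, a * ∑ n ∈ range N, xc ^ (n + 1) * ((F n).card : ℝ) +
      b * ∑ n ∈ range N, xc ^ (n + 1) * ((G n).card : ℝ) ≤ M) :
    ms xE P ≠ ∞ ∧ a * (ms xE P).toReal + b * (ms xE Q).toReal ≤ M := by
  have hx := xc_pos
  have mono : ∀ (F : ℕ → Finset (List (ℤ × ℤ))) {m n : ℕ}, m ≤ n →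
      ∑ k ∈ range m, xc ^ (k + 1) * ((F k).card : ℝ) ≤ ∑ k ∈ range n, xc ^ (k + 1) * ((F k).card : ℝ) := by
    intro F m n hmn
    exact Finset.sum_le_sum_of_subset_of_nonneg (Finset.range_mono hmn) fun _ _ _ => by positivity
  have h1 : ∀ N, ms xE P ≠ ∞ ∧ a * (ms xE P).toReal + b * ∑ n ∈ range N, xc ^ (n + 1) * ((G n).card : ℝ) ≤ M := by
    intro N
    have h2 := SM_le F h (M := (M - b * ∑ n ∈ range N, xc ^ (n + 1) * ((G n).card : ℝ)) / a) (fun N' => by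
      rw [le_div_iff₀ ha]
      have h3 := hM (max N N')
      have h4 := mono F (le_max_right N N')
      have h5 := mono G (le_max_left N N')
      nlinarith)
    refine ⟨h2.1, ?_⟩
    have h3 := h2.2
    rw [le_div_iff₀ ha] at h3
    linarith
  have h2 := SM_le G h' (M := (M - a * (ms xE P).toReal) / b) (fun N => by
    rw [le_div_iff₀ hb]
    have := (h1 N).2
    linarith)
  refine ⟨(h1 0).1, ?_⟩
  have h3 := h2.2
  rw [le_div_iff₀ hb] at h3
  linarith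

private lemma SM_hp : Dom (fun z : ℤ × ℤ => hon z ∧ 0 ≤ F0 z) := by
  refine ⟨⟨by decide, by decide⟩, fun x h => h.1, fun x h => ?_⟩
  have := h.2
  simp only [slit, F0] at *
  omega

/-- words are walks of the finite domains -/
private lemma SM_mem {T e : ℕ} {τ : ℤ} (h0 : 1 ≤ e ∨ 1 ≤ τ) {W : List Bool} (h1 : (V W).Nodup)
    (h2 : ∀ z ∈ V W, 0 ≤ F0 z ∧ F0 z ≤ 3 * (T : ℤ) + 1) (h3 : Row e τ W) {M : ℕ} (hM : W.length + 5 ≤ M) :
    toL W ∈ saw (Rh T M e τ) W.length := by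
  rw [mem_saw (Rh_dom h0)]
  have h4 : IsSaw (fun z : ℤ × ℤ => hon z ∧ 0 ≤ F0 z) W.length (toL W) :=
    isSaw_toL SM_hp h1 fun z hz => ⟨V_hon hz, (h2 z hz).1⟩
  have hnear := saw_near SM_hp _ _ h4
  refine isSaw_toL (Rh_dom h0) h1 fun z hz => ?_
  have h5 := hnear z (by unfold toL; simp [hz])
  have h6 := h2 z hz
  have h8 := SM_hp.off z ⟨V_hon hz, h6.1⟩
  refine ⟨⟨V_hon hz, h8, ?_⟩, ?_⟩
  · simp only [cc, F0, F1, F2, F3, F4, F5] at *
    push_cast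
    refine ⟨?_, ?_, ?_, ?_, ?_⟩ <;> omega
  · rintro ⟨g1, g2⟩
    have := h3 z hz g1
    omega

private lemma SM_vis {T : ℕ} {W : List Bool} : vis T (toL W) ↔ ∃ z ∈ V W, 3 * (T : ℤ) ≤ F0 z := by
  constructor
  · rintro ⟨x, hx, h⟩
    unfold toL at hx
    rw [List.mem_append, List.mem_reverse, List.mem_singleton] at hx
    rcases hx with hx | rfl
    · exact ⟨x, hx, h⟩
    · exfalso
      have : F0 o' = -2 := by decide
      omega
  · rintro ⟨x, hx, h⟩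
    exact ⟨x, by unfold toL; simp [hx], h⟩

/-- the last step of an arc -/
private lemma SM_hz {W : List Bool} (h2 : ∀ z ∈ V W, 0 ≤ F0 z) (hE : F0 (E W) = 0) (hne : (E W).2 ≠ 0) :
    ¬ hz (Dr W) := by
  rcases List.eq_nil_or_concat W with rfl | ⟨W', b, rfl⟩
  · exact absurd rfl hne
  · rw [List.concat_eq_append] at *
    have h3 : E W' ∈ V (W' ++ [b]) := by rw [V_snoc]; exact List.mem_append_left _ (E_mem W')
    have h4 := h2 _ h3
    have h5 := res_std (E_mem W')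
    rw [E_snoc, F0_add] at hE
    rw [Dr_snoc]
    rintro (h6 | h6) <;> rw [h6] at hE <;> simp only [F0] at * <;> omega

/-- the domain in terms of words -/
private lemma SM_dom {T M : ℕ} {z : ℤ × ℤ} (h : D (cc T M) z) : 0 ≤ F0 z ∧ F0 z ≤ 3 * (T : ℤ) + 1 := by
  obtain ⟨-, -, g1, g4, -, g2, g3⟩ := h
  simp only [cc, F0, F1, F2, F3, F4] at *
  rcases lt_or_ge z.2 0 with hy | hy
  · have := (g3 hy).2; push_cast at *; omega
  · have := (g2 hy).2; push_cast at *; omega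

private lemma SM_ar {T M e n : ℕ} {τ : ℤ} (h0 : 1 ≤ e ∨ 1 ≤ τ) {Q : List (ℤ × ℤ)} (hQ : Q ∈ saw (Rh T M e τ) n)
    (hv : vis T Q) (hF : F0 Q.headI = 0) (hne : Q.headI.2 ≠ 0) :
    ∃ W, W.length = n ∧ AT T W ∧ E W = Q.headI ∧ Row e τ W ∧ toL W = Q := by
  rw [mem_saw (Rh_dom h0)] at hQ
  obtain ⟨W, h1, h2, h3, h4⟩ := toL_surj (Rh_dom h0) hQ
  have hE : E W = Q.headI := by rw [← h4, toL_headI]
  have h5 : ∀ z ∈ V W, 0 ≤ F0 z ∧ F0 z ≤ 3 * (T : ℤ) + 1 := fun z hz =>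
    SM_dom (h3 z hz).1
  refine ⟨W, h1, ⟨h2, h5, SM_vis.1 (h4 ▸ hv), by rw [hE]; exact hF,
    SM_hz (fun z hz => (h5 z hz).1) (by rw [hE]; exact hF) (by rw [hE]; exact hne)⟩, hE, ?_, h4⟩
  intro z hz hz1
  by_contra hc
  exact (h3 z hz).2 ⟨hz1, not_lt.1 hc⟩

theorem at_fin (T : ℕ) : ms xE (AT T) ≤ 3 := by
  have h1 : ms xE (AT T) ≤ ms xE (fun W => In T W ∧ F0 (E W) = 0 ∧ W ≠ []) := by
    refine ms_mono fun W hW => ?_
    obtain ⟨g1, g2, g3, g4, g5⟩ := hW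
    refine ⟨⟨g1, g2⟩, g4, ?_⟩
    rintro rfl
    exact g5 (Or.inl rfl)
  refine h1.trans ?_
  have h2 := ms_le_of_count (P := fun W => In T W ∧ F0 (E W) = 0 ∧ W ≠ [])
    (fun n => (saw (St T) n).filter (fun P => F0 P.headI = 0 ∧ 0 < n))
    (by
      rintro W ⟨hW, hE, hne⟩
      rw [Finset.mem_filter, mem_saw (St_dom T), toL_headI]
      exact ⟨isSaw_toL (St_dom T) hW.1 (fun z hz => ⟨V_hon hz, hW.2 z hz⟩), hE,
        List.length_pos_of_ne_nil hne⟩)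
    xc_pos.le (M := 3) (fun N => arc_mass T N)
  have h3 : ENNReal.ofReal 3 = 3 := by
    simp
  rw [h3] at h2
  exact h2

private lemma SM_atf (T : ℕ) (P : List Bool → Prop) : ms xE (fun W => AT T W ∧ P W) ≠ ∞ :=
  ne_top_of_le_ne_top (by simp) ((ms_mono fun _ h => h.1).trans (at_fin T))

private lemma SM_brf (T : ℕ) (P : List Bool → Prop) : ms xE (fun W => Br T W ∧ P W) ≠ ∞ :=
  ne_top_of_le_ne_top (by simp) ((ms_mono fun _ h => h.1).trans (Br_one T))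

private lemma SM_sin : 0 < Real.sin (3 * (Real.pi / 8)) := by
  have := Real.pi_pos
  exact Real.sin_pos_of_pos_of_lt_pi (by linarith) (by linarith)

private lemma SM_anti {T M M' e n : ℕ} {τ : ℤ} (h0 : 1 ≤ e ∨ 1 ≤ τ) (hM : M ≤ M') {Q : List (ℤ × ℤ)}
    (hQ : Q ∈ saw (Rh T M e τ) n) : Q ∈ saw (Rh T M' e τ) n := by
  rw [mem_saw (Rh_dom h0)] at hQ ⊢
  refine hQ.mono fun z hz => ⟨D_mono ?_ hz.1, hz.2⟩
  refine ⟨?_, ?_, ?_, ?_, ?_, ?_, ?_⟩ <;> simp [cc] <;> assumption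

private lemma SM_arS {T M e : ℕ} {τ : ℤ} (h0 : 1 ≤ e ∨ 1 ≤ τ) (B : ℕ) :
    ∑ n ∈ range B, xc ^ (n + 1) * ((arS T M e τ n).card : ℝ) ≤
      (ms xE (fun W => AT T W ∧ (E W).2 < 0 ∧ Row e τ W)).toReal := by
  refine SM_real (fun n => arS T M e τ n) ?_ (SM_atf _ _) B
  intro n Q hQ
  unfold arS at hQ
  rw [Finset.mem_filter] at hQ
  obtain ⟨h1, h2, h3, h4⟩ := hQ
  obtain ⟨W, g1, g2, g3, g4, g5⟩ := SM_ar h0 h1 h2 h3 (by omega)
  exact ⟨W, g1, ⟨g2, by rw [g3]; exact h4, g4⟩, g5⟩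

private lemma SM_arN {T M e : ℕ} {τ : ℤ} (h0 : 1 ≤ e ∨ 1 ≤ τ) (B : ℕ) :
    ∑ n ∈ range B, xc ^ (n + 1) * ((arN T M e τ n).card : ℝ) ≤
      (ms xE (fun W => AT T W ∧ 0 < (E W).2 ∧ Row e τ W)).toReal := by
  refine SM_real (fun n => arN T M e τ n) ?_ (SM_atf _ _) B
  intro n Q hQ
  unfold arN at hQ
  rw [Finset.mem_filter] at hQ
  obtain ⟨h1, h2, h3, h4⟩ := hQ
  obtain ⟨W, g1, g2, g3, g4, g5⟩ := SM_ar h0 h1 h2 h3 (by omega)
  exact ⟨W, g1, ⟨g2, by rw [g3]; exact h4, g4⟩, g5⟩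

private lemma SM_tpn {T M : ℕ} {τ : ℤ} (B : ℕ) :
    ∑ n ∈ range B, xc ^ (n + 1) * ((tpn T M τ n).card : ℝ) ≤
      (ms xE (fun W => Br T W ∧ τ ≤ (E W).2 + 1 ∧ (E W).2 ≤ τ)).toReal := by
  refine SM_real (fun n => tpn T M τ n) ?_ (SM_brf _ _) B
  intro n Q hQ
  unfold tpn at hQ
  rw [Finset.mem_filter, mem_saw (D_dom _)] at hQ
  obtain ⟨h1, h2, h3, h4⟩ := hQ
  obtain ⟨W, g1, g2, g3, g4⟩ := toL_surj (D_dom _) h1
  have hE : E W = Q.headI := by rw [← g4, toL_headI]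
  refine ⟨W, g1, ⟨⟨⟨g2, fun z hz => SM_dom (g3 z hz)⟩, ?_⟩, ?_⟩, g4⟩
  · rw [hE]; exact h2
  · rw [hE]; exact ⟨h3, h4⟩

/-- comparison with the limit domain -/
private lemma SM_cmp {F G : ℕ → Finset (List (ℤ × ℤ))} {N : ℕ} (h : ∀ n < N, F n ⊆ G n) :
    ∑ n ∈ range N, xc ^ (n + 1) * ((F n).card : ℝ) ≤ ∑ n ∈ range N, xc ^ (n + 1) * ((G n).card : ℝ) := by
  have hx := xc_pos
  refine Finset.sum_le_sum fun n hn => ?_
  refine mul_le_mul_of_nonneg_left ?_ (by positivity)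
  norm_cast
  exact Finset.card_le_card (h n (Finset.mem_range.1 hn))

private lemma SM_emp {e : ℕ} {τ : ℤ} (h0 : ¬ (1 ≤ e ∨ 1 ≤ τ)) (W : List Bool) : ¬ Row e τ W := by
  intro h
  push Not at h0
  have h1 : ((0, 0) : ℤ × ℤ) ∈ V W := by
    cases W <;> simp [V, vs]
  have h2 := h (0, 0) h1 (by simp [F0]; omega)
  simp at h2
  omega

private lemma SM_zero {P : List Bool → Prop} (h : ∀ W, ¬ P W) : ms xE P = 0 := by
  unfold ms
  have : IsEmpty {W : List Bool // P W} := ⟨fun W => h W.1 W.2⟩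
  exact tsum_empty

theorem lim_up (T e : ℕ) (τ : ℤ) (he : e ≤ T) :
    ENNReal.ofReal 0.7 * ms xE (FT T e τ) + sE * ms xE (fun W => AT T W ∧ 0 < (E W).2 ∧ Row e τ W) ≤
      sE * ms xE (fun W => AT T W ∧ (E W).2 < 0 ∧ Row e τ W) := by
  by_cases h0 : 1 ≤ e ∨ 1 ≤ τ
  swap
  · rw [SM_zero (P := FT T e τ) (fun W h => SM_emp h0 W h.2.2.2.1),
      SM_zero (P := fun W => AT T W ∧ 0 < (E W).2 ∧ Row e τ W) (fun W h => SM_emp h0 W h.2.2)]
    simp
  have hs := SM_sin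
  set s := Real.sin (3 * (Real.pi / 8)) with hsdef
  set mS := (ms xE (fun W => AT T W ∧ (E W).2 < 0 ∧ Row e τ W)).toReal with hmS
  have hkey : ∀ N, 0.7 * ∑ n ∈ range N, xc ^ (n + 1) * ((fr T (n + 5) e τ n).card : ℝ) +
      s * ∑ n ∈ range N, xc ^ (n + 1) * ((arN T (n + 5) e τ n).card : ℝ) ≤ s * mS := by
    intro N
    refine le_of_forall_pos_le_add fun ε hε => ?_
    obtain ⟨M, hM, hl⟩ := lat_small T hε (N + 5)
    obtain ⟨B, hB⟩ := im_up T M e τ h0 he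
    have h1 := hB N
    have h2 : ∑ n ∈ range N, xc ^ (n + 1) * ((fr T (n + 5) e τ n).card : ℝ) ≤
        ∑ n ∈ range N, xc ^ (n + 1) * ((fr T M e τ n).card : ℝ) := by
      refine SM_cmp fun n hn Q hQ => ?_
      unfold fr at hQ ⊢
      rw [Finset.mem_filter] at hQ ⊢
      exact ⟨SM_anti h0 (by omega) hQ.1, hQ.2⟩
    have h3 : ∑ n ∈ range N, xc ^ (n + 1) * ((arN T (n + 5) e τ n).card : ℝ) ≤
        ∑ n ∈ range N, xc ^ (n + 1) * ((arN T M e τ n).card : ℝ) := by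
      refine SM_cmp fun n hn Q hQ => ?_
      unfold arN at hQ ⊢
      rw [Finset.mem_filter] at hQ ⊢
      exact ⟨SM_anti h0 (by omega) hQ.1, hQ.2⟩
    have h4 := SM_arS (T := T) (M := M) h0 B
    have h5 := (hl B).2
    rw [← hmS] at h4
    rw [← hsdef] at h1
    nlinarith
  obtain ⟨hf, h6⟩ := SM_two (P := FT T e τ) (Q := fun W => AT T W ∧ 0 < (E W).2 ∧ Row e τ W)
    (fun n => fr T (n + 5) e τ n) (fun n => arN T (n + 5) e τ n)
    (by
      rintro W ⟨g1, g2, g3, g4, g5, g6⟩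
      unfold fr
      rw [Finset.mem_filter, toL_headI]
      exact ⟨SM_mem h0 g1 g2 g4 le_rfl, SM_vis.2 g3, g5, g6⟩)
    (by
      rintro W ⟨⟨g1, g2, g3, g4, g5⟩, g6, g7⟩
      unfold arN
      rw [Finset.mem_filter, toL_headI]
      exact ⟨SM_mem h0 g1 g2 g7 le_rfl, SM_vis.2 g3, g4, g6⟩)
    (by norm_num) hs hkey
  have hN := SM_atf T (fun W => 0 < (E W).2 ∧ Row e τ W)
  have hS := SM_atf T (fun W => (E W).2 < 0 ∧ Row e τ W)
  rw [← ENNReal.ofReal_toReal hf, ← ENNReal.ofReal_toReal hN, ← ENNReal.ofReal_toReal hS, sE,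
    ← ENNReal.ofReal_mul (by norm_num), ← ENNReal.ofReal_mul hs.le, ← ENNReal.ofReal_mul hs.le,
    ← ENNReal.ofReal_add (by positivity) (by positivity)]
  exact ENNReal.ofReal_le_ofReal h6

theorem lim_dn (T : ℕ) (τ : ℤ) :
    sE * ms xE (fun W => AT T W ∧ (E W).2 < 0 ∧ Row T τ W) ≤
      sE * ms xE (fun W => AT T W ∧ 0 < (E W).2 ∧ Row T τ W) +
        ms xE (fun W => Br T W ∧ τ ≤ (E W).2 + 1 ∧ (E W).2 ≤ τ) := by
  by_cases h0 : 1 ≤ T ∨ 1 ≤ τ
  swap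
  · rw [SM_zero (P := fun W => AT T W ∧ (E W).2 < 0 ∧ Row T τ W) (fun W h => SM_emp h0 W h.2.2)]
    simp
  have hs := SM_sin
  set s := Real.sin (3 * (Real.pi / 8)) with hsdef
  have hN := SM_atf T (fun W => 0 < (E W).2 ∧ Row T τ W)
  have hB := SM_brf T (fun W => τ ≤ (E W).2 + 1 ∧ (E W).2 ≤ τ)
  set mN := (ms xE (fun W => AT T W ∧ 0 < (E W).2 ∧ Row T τ W)).toReal with hmN
  set mB := (ms xE (fun W => Br T W ∧ τ ≤ (E W).2 + 1 ∧ (E W).2 ≤ τ)).toReal with hmB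
  have hkey : ∀ N, ∑ n ∈ range N, xc ^ (n + 1) * ((arS T (n + 5) T τ n).card : ℝ) ≤ (s * mN + mB) / s := by
    intro N
    rw [le_div_iff₀ hs]
    refine le_of_forall_pos_le_add fun ε hε => ?_
    obtain ⟨M, hM, hl⟩ := lat_small T hε (N + 5)
    obtain ⟨B, hB⟩ := im_dn T M τ h0
    have h1 := hB N
    have h3 : ∑ n ∈ range N, xc ^ (n + 1) * ((arS T (n + 5) T τ n).card : ℝ) ≤
        ∑ n ∈ range N, xc ^ (n + 1) * ((arS T M T τ n).card : ℝ) := by
      refine SM_cmp fun n hn Q hQ => ?_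
      unfold arS at hQ ⊢
      rw [Finset.mem_filter] at hQ ⊢
      exact ⟨SM_anti h0 (by omega) hQ.1, hQ.2⟩
    have h4 := SM_arN (T := T) (M := M) h0 B
    have h5 := (hl B).1
    have h6 := SM_tpn (T := T) (M := M) (τ := τ) B
    rw [← hmN] at h4
    rw [← hmB] at h6
    rw [← hsdef] at h1
    nlinarith
  obtain ⟨hf, h6⟩ := SM_le (P := fun W => AT T W ∧ (E W).2 < 0 ∧ Row T τ W)
    (fun n => arS T (n + 5) T τ n)
    (by
      rintro W ⟨⟨g1, g2, g3, g4, g5⟩, g6, g7⟩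
      unfold arS
      rw [Finset.mem_filter, toL_headI]
      exact ⟨SM_mem h0 g1 g2 g7 le_rfl, SM_vis.2 g3, g4, g6⟩)
    hkey
  rw [le_div_iff₀ hs] at h6
  rw [← ENNReal.ofReal_toReal hf, ← ENNReal.ofReal_toReal hN, ← ENNReal.ofReal_toReal hB, sE,
    ← ENNReal.ofReal_mul hs.le, ← ENNReal.ofReal_mul hs.le,
    ← ENNReal.ofReal_add (by positivity) (by positivity)]
  refine ENNReal.ofReal_le_ofReal ?_
  rw [← hmN, ← hmB]
  linarith

end Pool.Agent.HEP
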