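import Pool.Agent.GAP.SDef
import Pool.Agent.HEP.GRev
import Pool.Agent.HEP.GRefl
import Pool.Agent.HEP.GFar

/-!
Project GAP, geometry, module SRev: reversal of the arcs, and the masses of the arcs of large depth.

PAPER PROOF. `at_rev`: `rvw` maps the words with `AT T W`, `0 < (E W).2`, `Row e τ W` to words `W'` with `AT T W'`, `(E W').2 < 0`, `Row e (τ + (E W').2) W'`, same length, and is an involution (`rvw_spec`:
`V W' = (V W).reverse` shifted by `- E W`, `E W' = - E W`, `F0 (E W) = 0`, so `F0` of the vertices does not change and the second coordinates are shifted by `- (E W).2 = (E W').2`). Conversely, from `W'` to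
`rvw W'`. So the two masses are equal (`ms_rel` / `tsum` over an equivalence, e.g. both inequalities by an injection, as in other HEP modules).
`at_refl` (large displacements): reflection `W.map (! ·)` changes the sign of `(E W).2` (`E_not`, `V_not`, `F0_sg` in GRefl) and preserves `AT T`; equality of the masses.
`at_sum`: the words of `AT (M + 1)`, `j ≤ M`, are, for different `M`, disjoint sets of words (`M + 1` is the column of the rightmost vertices), all contained in the set `A j` of the words with nodup, `0 ≤ F0 z`,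
`F0 (E W) = 0`, `¬ hz (Dr W)`, `∃ z ∈ V W, 3 j + 3 ≤ F0 z`. For every `τ` the part of `A j` with `τ ≤ (E W).2` is `Far 0 τ j` (`δ = 0`: the row `F0 z = -2` contains no vertex), of mass `≤ 3 * ms xE (Br j)` (`far_le`); let `τ → -∞`
(monotone union: `ms` of the increasing union is the supremum; or: every finite sum is contained in `Far 0 τ j` for small `τ`).
-/

namespace Pool.Agent.HEP

open Pool.Agent.Hhelper14.SAW Pool.Agent.HHP
open scoped ENNReal

private lemma SRev_F0_sub (z w : ℤ × ℤ) : F0 (z - w) = F0 z - F0 w := by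
  simp only [F0, Prod.fst_sub, Prod.snd_sub]
  ring

private lemma SRev_at {T : ℕ} {W : List Bool} (h : AT T W) :
    AT T (rvw W) ∧ E (rvw W) = - E W ∧ (rvw W).length = W.length ∧ rvw (rvw W) = W ∧
      ∀ z ∈ V (rvw W), ∃ y ∈ V W, z = y - E W := by
  obtain ⟨h1, h2, ⟨x, hx, hx2⟩, h4, h5⟩ := h
  obtain ⟨r1, r2, r3, r4, r5⟩ := rvw_spec (W := W) (by rw [h4]; rfl) h5
  have hmem : ∀ z ∈ V (rvw W), ∃ y ∈ V W, z = y - E W := by
    intro z hz
    rw [r1, List.mem_map] at hz
    obtain ⟨y, hy, rfl⟩ := hz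
    exact ⟨y, List.mem_reverse.1 hy, rfl⟩
  refine ⟨⟨?_, ?_, ⟨x - E W, ?_, ?_⟩, ?_, r3⟩, r2, r4, r5, hmem⟩
  · rw [r1]
    exact (List.nodup_reverse.2 h1).map fun a b hab => sub_left_injective hab
  · intro z hz
    obtain ⟨y, hy, rfl⟩ := hmem z hz
    rw [SRev_F0_sub, h4, sub_zero]
    exact h2 y hy
  · rw [r1, List.mem_map]
    exact ⟨x, List.mem_reverse.2 hx, rfl⟩
  · rw [SRev_F0_sub, h4, sub_zero]
    exact hx2
  · rw [r2]
    have : F0 (- E W) = - F0 (E W) := by
      simp only [F0, Prod.fst_neg, Prod.snd_neg]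
      ring
    rw [this, h4, neg_zero]

theorem at_rev (T e : ℕ) (τ : ℤ) :
    ms xE (fun W => AT T W ∧ 0 < (E W).2 ∧ Row e τ W) =
      ms xE (fun W => AT T W ∧ (E W).2 < 0 ∧ Row e (τ + (E W).2) W) := by
  refine le_antisymm ?_ ?_
  · have := ms_rel (y := xE) (c := 1) (P := fun W => AT T W ∧ 0 < (E W).2 ∧ Row e τ W)
      (Q := fun W => AT T W ∧ (E W).2 < 0 ∧ Row e (τ + (E W).2) W) (fun W W' => rvw W = W') ?_ ?_
    · rwa [one_mul] at this
    · rintro W ⟨h1, h2, h3⟩
      obtain ⟨r1, r2, r3, -, r5⟩ := SRev_at h1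
      refine ⟨rvw W, ⟨r1, ?_, ?_⟩, rfl, by rw [one_mul, r3]⟩
      · rw [r2, Prod.snd_neg]
        omega
      · intro z hz hz2
        obtain ⟨y, hy, rfl⟩ := r5 z hz
        rw [SRev_F0_sub, h1.2.2.2.1, sub_zero] at hz2
        have := h3 y hy hz2
        rw [r2, Prod.snd_neg, Prod.snd_sub]
        omega
    · rintro W1 W2 W' ⟨h1, -⟩ ⟨h2, -⟩ - e1 e2
      rw [← (SRev_at h1).2.2.2.1, ← (SRev_at h2).2.2.2.1, e1, e2]
  · have := ms_rel (y := xE) (c := 1) (P := fun W => AT T W ∧ (E W).2 < 0 ∧ Row e (τ + (E W).2) W)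
      (Q := fun W => AT T W ∧ 0 < (E W).2 ∧ Row e τ W) (fun W W' => rvw W = W') ?_ ?_
    · rwa [one_mul] at this
    · rintro W ⟨h1, h2, h3⟩
      obtain ⟨r1, r2, r3, -, r5⟩ := SRev_at h1
      refine ⟨rvw W, ⟨r1, ?_, ?_⟩, rfl, by rw [one_mul, r3]⟩
      · rw [r2, Prod.snd_neg]
        omega
      · intro z hz hz2
        obtain ⟨y, hy, rfl⟩ := r5 z hz
        rw [SRev_F0_sub, h1.2.2.2.1, sub_zero] at hz2
        have := h3 y hy hz2
        rw [Prod.snd_sub]
        omega
    · rintro W1 W2 W' ⟨h1, -⟩ ⟨h2, -⟩ - e1 e2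
      rw [← (SRev_at h1).2.2.2.1, ← (SRev_at h2).2.2.2.1, e1, e2]

private lemma SRev_at_not {T : ℕ} {W : List Bool} (h : AT T W) : AT T (W.map (! ·)) := by
  obtain ⟨h1, h2, ⟨x, hx, hx2⟩, h4, h5⟩ := h
  refine ⟨?_, ?_, ⟨sg x, ?_, ?_⟩, ?_, ?_⟩
  · rw [V_not]
    exact h1.map sg_inj
  · intro z hz
    rw [V_not, List.mem_map] at hz
    obtain ⟨y, hy, rfl⟩ := hz
    rw [F0_sg]
    exact h2 y hy
  · rw [V_not]
    exact List.mem_map_of_mem hx
  · rw [F0_sg]
    exact hx2
  · rw [E_not, F0_sg]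
    exact h4
  · rw [Dr_not, hz_sg]
    exact h5

private lemma SRev_not_not (W : List Bool) : (W.map (! ·)).map (! ·) = W := by
  rw [List.map_map]
  have : ((fun b : Bool => !b) ∘ fun b : Bool => !b) = id := by
    funext b; simp
  rw [this, List.map_id]

theorem at_refl (T G : ℕ) :
    ms xE (fun W => AT T W ∧ (G : ℤ) ≤ (E W).2) = ms xE (fun W => AT T W ∧ (E W).2 ≤ -(G : ℤ)) := by
  rw [← ms_not xE (fun W => AT T W ∧ (E W).2 ≤ -(G : ℤ))]
  congr 1
  funext W
  apply propext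
  have hE : (E (W.map (! ·))).2 = - (E W).2 := by rw [E_not]; rfl
  constructor
  · rintro ⟨h1, h2⟩
    refine ⟨SRev_at_not h1, ?_⟩
    rw [hE]
    omega
  · rintro ⟨h1, h2⟩
    rw [hE] at h2
    refine ⟨?_, by omega⟩
    have := SRev_at_not h1
    rwa [SRev_not_not] at this

/-- all the arcs which reach the column `j + 1` -/
private def SRev_A (j : ℕ) (W : List Bool) : Prop :=
  (V W).Nodup ∧ (∀ z ∈ V W, 0 ≤ F0 z) ∧ F0 (E W) = 0 ∧ ¬ hz (Dr W) ∧ ∃ z ∈ V W, 3 * (j : ℤ) + 3 ≤ F0 z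

private lemma SRev_A_le (j : ℕ) : ms xE (SRev_A j) ≤ 3 * ms xE (Br j) := by
  classical
  rw [ms, ENNReal.tsum_eq_iSup_sum]
  refine iSup_le fun s => ?_
  obtain ⟨τ, hτ⟩ : ∃ τ : ℤ, ∀ W ∈ s, τ ≤ (E W.1).2 := by
    obtain ⟨τ, hτ⟩ := (s.image fun W => (E W.1).2).bddBelow
    exact ⟨τ, fun W hW => hτ (Finset.mem_coe.2 (Finset.mem_image_of_mem _ hW))⟩
  refine le_trans ?_ (far_le 0 τ j)
  rw [ms_ind]
  calc ∑ W ∈ s, xE ^ (W.1.length + 1)
      = ∑ W ∈ s, (if Far 0 τ j W.1 then xE ^ (W.1.length + 1) else 0) := by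
        refine Finset.sum_congr rfl fun W hW => ?_
        rw [if_pos]
        obtain ⟨W, h1, h2, h3, h4, h5⟩ := W
        refine ⟨h1, fun z hz => ⟨h2 z hz, ?_⟩, by rw [h3]; rfl, hτ _ hW, h4, h5⟩
        rintro ⟨h6, -⟩
        have := h2 z hz
        push_cast at h6
        omega
    _ = ∑ W ∈ s.map (Function.Embedding.subtype _),
          (if Far 0 τ j W then xE ^ (W.length + 1) else 0) := by
        rw [Finset.sum_map]
        rfl
    _ ≤ _ := ENNReal.sum_le_tsum _

private lemma SRev_unique {M M' : ℕ} {W : List Bool} (h : AT (M + 1) W) (h' : AT (M' + 1) W) : M' ≤ M := by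
  obtain ⟨-, h2, -⟩ := h
  obtain ⟨-, -, ⟨x, hx, hx2⟩, -⟩ := h'
  have := (h2 x hx).2
  push_cast at *
  omega

theorem at_sum (j : ℕ) : ∑' M : ℕ, ind (j ≤ M) * ms xE (AT (M + 1)) ≤ 3 * ms xE (Br j) := by
  classical
  refine le_trans ?_ (SRev_A_le j)
  simp only [ms_ind]
  calc ∑' M : ℕ, ind (j ≤ M) * ∑' W : List Bool, (if AT (M + 1) W then xE ^ (W.length + 1) else 0)
      = ∑' M : ℕ, ∑' W : List Bool, ind (j ≤ M) * (if AT (M + 1) W then xE ^ (W.length + 1) else 0) := by
        refine tsum_congr fun M => ?_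
        rw [ENNReal.tsum_mul_left]
    _ = ∑' W : List Bool, ∑' M : ℕ, ind (j ≤ M) * (if AT (M + 1) W then xE ^ (W.length + 1) else 0) :=
        ENNReal.tsum_comm
    _ ≤ _ := by
        refine ENNReal.tsum_le_tsum fun W => ?_
        by_cases hW : ∃ M, j ≤ M ∧ AT (M + 1) W
        · obtain ⟨M, hM, hA⟩ := hW
          rw [tsum_eq_single M]
          · rw [ind_true hM, one_mul, if_pos hA, if_pos]
            obtain ⟨h1, h2, ⟨x, hx, hx2⟩, h4, h5⟩ := hA
            refine ⟨h1, fun z hz => (h2 z hz).1, h4, h5, x, hx, ?_⟩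
            push_cast at hx2
            omega
          · intro M' hM'
            by_cases hA' : AT (M' + 1) W
            · exact absurd (le_antisymm (SRev_unique hA hA') (SRev_unique hA' hA)) hM'
            · rw [if_neg hA', mul_zero]
        · have h0 : ∀ M : ℕ, ind (j ≤ M) * (if AT (M + 1) W then xE ^ (W.length + 1) else 0) = 0 := by
            intro M
            by_cases hA : AT (M + 1) W
            · have : ¬ j ≤ M := fun h => hW ⟨M, h, hA⟩
              rw [ind_false this, zero_mul]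
            · rw [if_neg hA, mul_zero]
          rw [tsum_congr h0, tsum_zero]
          exact bot_le

end Pool.Agent.HEP
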