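import Pool.Agent.GAP.SDef
import Pool.Agent.HEP.GTurn

/-!
Project GAP, geometry, module STurn: turning numbers of the exits of the domain `Rh T M e τ` (columns `0, ..., T`, without the half row
`F0 z = 3 e, τ ≤ z.2`, i.e. without the upper part of the LEFT border of the column `e`).

PAPER PROOF. Follow HEP/GTurn (there the slit is the right border of a column). Copy the private lemmas about the potential
`Sup z = if sec z = 0 ∨ (sec z = 1 ∧ 0 < F0 z) then sec z else sec z - 6` with the set of admissible points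
`A z : F0 z < -1 ∨ 1 ≤ F0 z ∨ (F0 z = 0 ∧ z.2 < 0)` (a vertex `x` of the domain and a slit vertex `u` give `z = x - u` with
`F0 z ≡ 0, 1 (mod 3)`, so `F0 z ≠ -1`; and if `F0 z = 0` then `z.2 < 0` because `x` is not on the slit and `x ≠ u`): for `z, z'` in `A` with
`U (z' - z)`: `dl z z' = Sup z' - Sup z` (if `F0 z < -1` and `1 ≤ F0 z'` the step of `F0` would be at least 3).
(1) `rh_slit`: `u` has `F0 u = 3 e`, `τ ≤ u.2`. `exit_formula` (with `Rh_dom h0`): the case `v = o` with the empty list gives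
`u = (0, 1)` or `(1, -1)`, `F0 u = 1`: impossible. Otherwise `Tn = S v + dl v u + Th u (v :: t' ++ [o])`; `v` and `u` are off the old slit (`u`: `0 < F0 u`, or
`e = 0`, `1 ≤ τ ≤ u.2`), so `S v + dl v u = S u` (`dl_eq_S`), `Th u (..) = Sup (v - u) - Sup (- u)`, and `S u - Sup (- u) = 3` (for `0 < F0 u` as in GTurn
(`GT_opp`); for `F0 u = 0 < u.2`: `S u = 1`, `Sup (- u) = -2`). So `Tn = 3 + Sup (v - u)`: `v - u = (-1, 0)`: `Sup = -3`, `Tn = 0`;
`v - u = (1, -1)`: `Sup = -1`, `Tn = 2`; `v - u = (0, 1)`: `Sup = 1`, `Tn = 4`. (These are the neighbours: `u` has residue 0.)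
(2) `rh_exit`: if `D (cc T M) u` then `u` is a slit vertex: (1). If not `D (cc T M) u`: `exit_class` (the walk is a walk of `D (cc T M)`, `IsSaw.mono`), with
`cc T M = ⟨T, M, M, 0, M, M, 0⟩`. Kind 0: `u - v = (1, 0)`. Kind 1: `3 M < F1 u = F1 v + 2`, `F1 v ≤ 3 M`, and `F1 v ≠ 3 M - 1` because `u` is `hon` (residues), so
`F1 v = 3 M` (if `F1 v = 3 M - 1` then `v.1 - v.2 ≡ 2`, `u.1 - u.2 ≡ 1` mod 3). Kind -1: the same with `F5`. Kinds 2 and -2 do not occur: kind 2: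
`v` has residue 1 (`u - v = (-1, 1)`), `1 ≤ F0 v`, `F1 v ≤ 3 M`, `F2 u = F2 v + 2 ≤ 3 M + 1` (`2 F2 v = F1 v·2 - ...`: all linear, `omega`). Kinds 3, -3:
`F0 u < 0`, so `F0 v < 2`, `F0 v ≥ 0` and `v` has residue 0: `F0 v = 0`; `v.2 = u.2`. Kinds ±4, ±5: `slit u` excluded as in `rg_exit` (`F0 u ≤ -2`, so `v` would be `o`
or `F0 v < 0`).
-/

namespace Pool.Agent.HEP

open Pool.Agent.Hhelper14.SAW Pool.Agent.HHP

/-- Lifted sector in the plane cut along the half line `F0 z = 0`, `0 ≤ z.2`. -/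
private def STSup (z : ℤ × ℤ) : ℤ := if sec z = 0 ∨ (sec z = 1 ∧ 0 < F0 z) then sec z else sec z - 6

/-- Admissible points. -/
private def STA (z : ℤ × ℤ) : Prop := F0 z < -1 ∨ 1 ≤ F0 z ∨ (F0 z = 0 ∧ z.2 < 0)

private lemma STA.nz {z : ℤ × ℤ} (h : STA z) : NZ z := by
  simp only [STA, NZ, F0] at *
  omega

private lemma STSup_mod (z : ℤ × ℤ) : (STSup z - sec z) % 6 = 0 := by
  unfold STSup; split_ifs <;> omega

private lemma STSup_pos {z : ℤ × ℤ} (h : 0 < F0 z) : -2 ≤ STSup z ∧ STSup z ≤ 1 := by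
  obtain ⟨a, b⟩ := z
  unfold STSup sec
  simp only [F0] at *
  split_ifs <;> omega

private lemma STSup_neg {z : ℤ × ℤ} (h : F0 z < 0) : -5 ≤ STSup z ∧ STSup z ≤ -2 := by
  obtain ⟨a, b⟩ := z
  unfold STSup sec
  simp only [F0] at *
  split_ifs <;> omega

private lemma STSup_zero {z : ℤ × ℤ} (h : F0 z = 0) (h2 : z.2 < 0) : STSup z = -2 := by
  obtain ⟨a, b⟩ := z
  unfold STSup sec
  simp only [F0] at *
  split_ifs <;> omega

private lemma ST_F0_step {z z' : ℤ × ℤ} (h : U (z' - z)) : -2 ≤ F0 z' - F0 z ∧ F0 z' - F0 z ≤ 2 := by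
  simp only [U, F0, Prod.fst_sub, Prod.snd_sub] at *
  omega

private lemma STSup_step {z z' : ℤ × ℤ} (hz : STA z) (hz' : STA z') (h : U (z' - z)) :
    -1 ≤ STSup z' - STSup z ∧ STSup z' - STSup z ≤ 1 := by
  have h1 := sec_step hz.nz hz'.nz h
  have h2 := STSup_mod z
  have h3 := STSup_mod z'
  have h4 := ST_F0_step h
  rcases hz with hz | hz | hz <;> rcases hz' with hz' | hz' | hz'
  · have := STSup_neg (z := z) (by omega); have := STSup_neg (z := z') (by omega); omega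
  · omega
  · have := STSup_neg (z := z) (by omega); have := STSup_zero hz'.1 hz'.2; omega
  · omega
  · have := STSup_pos (z := z) (by omega); have := STSup_pos (z := z') (by omega); omega
  · have := STSup_pos (z := z) (by omega); have := STSup_zero hz'.1 hz'.2; omega
  · have := STSup_zero hz.1 hz.2; have := STSup_neg (z := z') (by omega); omega
  · have := STSup_zero hz.1 hz.2; have := STSup_pos (z := z') (by omega); omega
  · have := STSup_zero hz.1 hz.2; have := STSup_zero hz'.1 hz'.2; omega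

private lemma STdl {z z' : ℤ × ℤ} (hz : STA z) (hz' : STA z') (h : U (z' - z)) :
    dl z z' = STSup z' - STSup z := by
  have hs := STSup_step hz hz' h
  have h1 := STSup_mod z
  have h2 := STSup_mod z'
  exact dl_eq_of hz.nz hz'.nz h (by omega) hs.1 hs.2

private lemma STTh (p : ℤ × ℤ) : ∀ (P : List (ℤ × ℤ)) (h : ℤ × ℤ), UChain (h :: P) →
    (∀ x ∈ h :: P, STA (x - p)) →
    Th p (h :: P) = STSup (h - p) - STSup ((h :: P).getLast (by simp) - p) := by
  intro P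
  induction P with
  | nil => intro h _ _; simp
  | cons x r ih =>
    intro h hc hO
    have h1 := List.isChain_cons_cons.1 hc
    have := ih x h1.2 (fun y hy => hO y (List.mem_cons_of_mem _ hy))
    rw [Th_cons_cons, this, List.getLast_cons_cons,
      STdl (hO x (by simp)) (hO h (by simp)) (by simpa using h1.1)]
    ring

private lemma ST_opp {u : ℤ × ℤ} (h : 0 < F0 u ∨ (F0 u = 0 ∧ 0 < u.2)) : S u - STSup (-u) = 3 := by
  obtain ⟨a, b⟩ := u
  unfold S STSup sec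
  simp only [F0, Prod.fst_neg, Prod.snd_neg] at *
  split_ifs <;> omega

private lemma ST_nbr {u v : ℤ × ℤ} (hadj : Adj u v) {e : ℕ} (hu : F0 u = 3 * (e : ℤ)) :
    u - v = (1, 0) ∨ u - v = (-1, 1) ∨ u - v = (0, -1) := by
  obtain ⟨a, b⟩ := u
  obtain ⟨x, y⟩ := v
  obtain ⟨h1, h2, h3⟩ := hadj
  simp only [hon, U, F0, Prod.mk_sub_mk, Prod.mk.injEq] at *
  omega

theorem rh_slit {T M e : ℕ} {τ : ℤ} {n : ℕ} {u v w : ℤ × ℤ} {r : List (ℤ × ℤ)} (h0 : 1 ≤ e ∨ 1 ≤ τ)
    (hP : IsSaw (Rh T M e τ) n (v :: w :: r)) (hadj : Adj u v) (huw : u ≠ w)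
    (hu : F0 u = 3 * (e : ℤ)) (hu2 : τ ≤ u.2) :
    (Tn (u :: v :: w :: r) = 0 ∧ u - v = (1, 0)) ∨ (Tn (u :: v :: w :: r) = 2 ∧ u - v = (-1, 1)) ∨
      (Tn (u :: v :: w :: r) = 4 ∧ u - v = (0, -1)) := by
  have hnu : ¬ Rh T M e τ u := fun h => h.2 ⟨hu, hu2⟩
  have hdom : Dom (Rh T M e τ) := Rh_dom h0
  obtain ⟨t, ht, hpt, h⟩ := exit_formula hdom hP hadj huw hnu
  have huo : u - o = u := by simp [o]
  have hou : o - u = -u := by simp [o]
  have hF : 0 < F0 u ∨ (F0 u = 0 ∧ 0 < u.2) := by omega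
  rcases h with ⟨rfl, h⟩ | ⟨t', rfl, hvo, h⟩
  · exfalso
    simp only [List.nil_append, List.cons.injEq] at ht
    obtain ⟨rfl, rfl, rfl⟩ := ht
    have h1 := hex_nbr hadj adj_o huw
    obtain ⟨a, b⟩ := u
    simp only [o, o', L, R, F0, Prod.mk_sub_mk, Prod.mk.injEq] at h1 hu
    omega
  · have hUC : UChain (v :: (t' ++ [o])) := by
      have h1 : HChain ((v :: (t' ++ [o])) ++ [o']) := by
        have h2 : (v :: (t' ++ [o])) ++ [o'] = v :: w :: r := by rw [ht]; simp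
        rw [h2]; exact hP.2.2.1
      exact HChain.U (List.isChain_append.1 h1).1
    have hw := STTh u (t' ++ [o]) v hUC (by
      intro x hx
      have hpx := hpt x (by simpa using hx)
      have hxu : x ≠ u := by rintro rfl; exact hnu hpx
      obtain ⟨⟨g1, -⟩, g2⟩ := hpx
      have hun := hadj.1
      clear h hP hdom ht hpt hx hadj hnu hUC
      obtain ⟨a, b⟩ := x
      obtain ⟨a', b'⟩ := u
      simp only [hon, STA, F0, Prod.mk_sub_mk, ne_eq, Prod.mk.injEq] at *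
      omega)
    have hgl : (v :: (t' ++ [o])).getLast (by simp) = o := by simp
    rw [hgl, hou] at hw
    have hv := hpt v (by simp)
    have hov : Off (v - o) := by
      have h1 := hdom.off v hv
      have h4 : ¬ (v.1 = 0 ∧ v.2 = 0) := fun h => hvo (Prod.ext h.1 h.2)
      simp only [slit, Off, o, Prod.fst_sub, Prod.snd_sub] at *
      omega
    have hou' : Off (u - o) := by
      simp only [Off, o, Prod.fst_sub, Prod.snd_sub, F0] at *
      omega
    have hd := dl_eq_S hov hou' (by simpa using hadj.2.2)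
    have hopp := ST_opp hF
    have hw' : Th u ((v :: t') ++ [o]) = STSup (v - u) - STSup (-u) := hw
    have hT : Tn (u :: v :: w :: r) = 3 + STSup (v - u) := by
      rw [h, hd, hw', huo]
      omega
    rcases ST_nbr hadj hu with e | e | e
    · left
      refine ⟨?_, e⟩
      rw [hT, vsub e]
      decide
    · right; left
      refine ⟨?_, e⟩
      rw [hT, vsub e]
      decide
    · right; right
      refine ⟨?_, e⟩
      rw [hT, vsub e]
      decide

theorem rh_exit {T M e : ℕ} {τ : ℤ} {n : ℕ} {u v w : ℤ × ℤ} {r : List (ℤ × ℤ)} (h0 : 1 ≤ e ∨ 1 ≤ τ)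
    (hP : IsSaw (Rh T M e τ) n (v :: w :: r)) (hadj : Adj u v) (huw : u ≠ w) (hu : ¬ Rh T M e τ u) :
    (Tn (u :: v :: w :: r) = 0 ∧ u - v = (1, 0)) ∨
    (Tn (u :: v :: w :: r) = 1 ∧ u - v = (0, 1) ∧ F1 v = 3 * (M : ℤ)) ∨
    (Tn (u :: v :: w :: r) = -1 ∧ u - v = (1, -1) ∧ F5 v = 3 * (M : ℤ)) ∨
    (Tn (u :: v :: w :: r) = 3 ∧ u - v = (-1, 0) ∧ F0 v = 0 ∧ 0 < v.2) ∨
    (Tn (u :: v :: w :: r) = -3 ∧ u - v = (-1, 0) ∧ F0 v = 0 ∧ v.2 < 0) ∨
    (Tn (u :: v :: w :: r) = 2 ∧ u - v = (-1, 1) ∧ F0 u = 3 * (e : ℤ) ∧ τ ≤ u.2) ∨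
    (Tn (u :: v :: w :: r) = 4 ∧ u - v = (0, -1) ∧ F0 u = 3 * (e : ℤ) ∧ τ ≤ u.2) := by
  have hPD : IsSaw (D (cc T M)) n (v :: w :: r) := hP.mono fun x hx => hx.1
  have hv : D (cc T M) v := hPD.head_mem
  by_cases hD : D (cc T M) u
  · -- a slit vertex
    have hs : F0 u = 3 * (e : ℤ) ∧ τ ≤ u.2 := by
      by_contra hcon
      exact hu ⟨hD, hcon⟩
    rcases rh_slit h0 hP hadj huw hs.1 hs.2 with ⟨h1, h2⟩ | ⟨h1, h2⟩ | ⟨h1, h2⟩
    · exact Or.inl ⟨h1, h2⟩
    · exact Or.inr (Or.inr (Or.inr (Or.inr (Or.inr (Or.inl ⟨h1, h2, hs⟩)))))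
    · exact Or.inr (Or.inr (Or.inr (Or.inr (Or.inr (Or.inr ⟨h1, h2, hs⟩)))))
  · have hk := exit_class hPD hadj huw hD
    have hF : 0 ≤ F0 v ∧ F0 v ≤ 3 * T + 1 ∧ F1 v ≤ 3 * M ∧ F5 v ≤ 3 * M := by
      obtain ⟨g0, g1, g2, g3, g4, g5, g6⟩ := hv
      simp only [cc, F3, F0] at *
      rcases lt_or_ge v.2 0 with h | h
      · have := g6 h; omega
      · have := g5 h; omega
    have hun := hadj.1
    have hvn := hadj.2.1
    generalize Tn (u :: v :: w :: r) = k at hk ⊢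
    clear hP hPD hu hD huw hv hadj
    obtain ⟨a, b⟩ := u
    obtain ⟨x, y⟩ := v
    simp only [ExitKind, slit, hon, cc, F0, F1, F2, F3, F4, F5, Prod.mk_sub_mk, Prod.mk.injEq] at *
    rcases hk with ⟨rfl, h1, h2, h3⟩ | ⟨rfl, h1, h2, h3⟩ | ⟨rfl, h1, h2, h3⟩ | ⟨rfl, h1, h2, h4, h3⟩ |
      ⟨rfl, h1, h2, h4, h3⟩ | ⟨rfl, h1, h2, h4, h3⟩ | ⟨rfl, h1, h2, h4, h3⟩ | ⟨rfl, h1, h3⟩ | ⟨rfl, h1, h3⟩ |
      ⟨rfl, h1, h3⟩ | ⟨rfl, h1, h3⟩
    · left; omega
    · right; left; omega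
    · right; right; left; omega
    · exfalso; omega
    · right; right; right; left; omega
    · exfalso; omega
    · right; right; right; right; left; omega
    · exfalso; omega
    · exfalso; omega
    · exfalso; omega
    · exfalso; omega

end Pool.Agent.HEP
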