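import Pool.Agent.GAP.SLim
import Pool.Agent.GAP.SRev

/-!
Project GAP, geometry, module SXi: THE SUM OVER THE POSITIONS OF THE SLIT.

PAPER PROOF. `fr_dlt`: `Row e (τ + (E W).2) W` implies `Row e τ W` if `(E W).2 < 0`. So `{AT, (E W).2 < 0, Row e τ}` is the disjoint union of `{AT, (E W).2 < 0, Row e (τ + (E W).2)}` (mass `X`, equal to the mass of
`{AT, 0 < (E W).2, Row e τ}` by `at_rev`) and `Dlt T e τ`. `lim_up`: `0.7 * FT + sE * X ≤ sE * (X + Dlt)`; `sE * X` is finite (`at_fin`): cancel.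
`dlt_br`: the same with `lim_dn`: `sE * (X + Dlt) ≤ sE * X + Br..`.
`dlt_sum`: for a word `W` with `AT T W`, `(E W).2 < 0`, `e ≤ T`, the row `F0 z = 3 e` is not empty (`W` starts at `F0 = 0` and visits the column `T ≥ e`; steps from a column `k` to `k + 1` lead to `F0 = 3 (k + 1)`: `split_last`/`cross_right`,
see `GPL_cross` in HEP/GPL) and finite; let `m` be the maximum of `z.2` on it. `Row e τ W ↔ m < τ`. So `Dlt T e τ W ↔ m < τ ∧ τ + (E W).2 ≤ m`: `(E W).2.natAbs` values of `τ`. Sum: exchange the sums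
(`ENNReal.tsum_comm`), `ms` as a sum over all words with `ind` (`GC1_ms` (private) in HEP/GC1: `ms y P = ∑' W, ind (P W) * y ^ (W.length + 1)`; copy).
`xi_le`: `dlt_sum` with `e = T` and `dlt_br`: `sE * Xi T ≤ ∑' τ, ms xE (fun W => Br T W ∧ τ ≤ (E W).2 + 1 ∧ (E W).2 ≤ τ) = 2 * ms xE (Br T)` (for each word two values of `τ`), and `2 ≤ 3 * sE` (`sin (3 π / 8) = cos (π / 8) ≥ 0.9`,
e.g. `Real.cos_pi_div_eight`).
`ft_sum`: `fr_dlt` and `dlt_sum`: `0.7 * ∑' τ, ms xE (FT T e τ) ≤ sE * Xi T ≤ 2 * ms xE (Br T)` (the bound before the division by `sE`), and `2 ≤ 4 * 0.7`. So keep the sharper form `sE * Xi T ≤ 2 * ms xE (Br T)` (`xi_le'`).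
`ft_le`: `Dlt T e τ W → AT T W`, `sE ≤ 1`, `1 ≤ 2 * 0.7`.
`disp_le`: `G * ms (AT T, G ≤ (E W).2) = G * ms (AT T, (E W).2 ≤ -G) ≤ Xi T ≤ 3 * ms xE (Br T)` (`at_refl`; `G ≤ natAbs` on this set; `1 ≤ G` so that `(E W).2 < 0`; `G = 0` is trivial).
-/

namespace Pool.Agent.HEP

open Pool.Agent.Hhelper14.SAW Pool.Agent.HHP
open scoped ENNReal

private lemma SXi_ms (y : ℝ≥0∞) (P : List Bool → Prop) :
    ms y P = ∑' W, ind (P W) * y ^ (W.length + 1) := by
  classical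
  unfold ms
  refine (tsum_subtype {W | P W} (fun W : List Bool => y ^ (W.length + 1))).trans
    (tsum_congr fun W => ?_)
  by_cases h : P W
  · rw [Set.indicator_of_mem (by exact h), ind_true h, one_mul]
  · rw [Set.indicator_of_notMem (by exact h), ind_false h, zero_mul]

private lemma SXi_mono {y : ℝ≥0∞} {P Q : List Bool → Prop} (h : ∀ W, P W → Q W) :
    ms y P ≤ ms y Q := by
  rw [SXi_ms, SXi_ms]
  exact ENNReal.tsum_le_tsum fun W => mul_le_mul_left (ind_mono (h W)) _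

private lemma SXi_add {y : ℝ≥0∞} {P Q R : List Bool → Prop} (h : ∀ W, P W ↔ Q W ∨ R W)
    (hd : ∀ W, Q W → ¬ R W) : ms y P = ms y Q + ms y R := by
  rw [SXi_ms, SXi_ms, SXi_ms, ← ENNReal.tsum_add]
  refine tsum_congr fun W => ?_
  by_cases hQ : Q W
  · rw [ind_true ((h W).2 (Or.inl hQ)), ind_true hQ, ind_false (hd W hQ), zero_mul, add_zero]
  · by_cases hR : R W
    · rw [ind_true ((h W).2 (Or.inr hR)), ind_true hR, ind_false hQ, zero_mul, zero_add]
    · have hP : ¬ P W := fun hp => ((h W).1 hp).elim hQ hR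
      rw [ind_false hP, ind_false hQ, ind_false hR, zero_mul, add_zero]

/-- the mass which cancels -/
private lemma SXi_split (T e : ℕ) (τ : ℤ) :
    ms xE (fun W => AT T W ∧ (E W).2 < 0 ∧ Row e τ W) =
      ms xE (fun W => AT T W ∧ (E W).2 < 0 ∧ Row e (τ + (E W).2) W) + ms xE (Dlt T e τ) := by
  apply SXi_add
  · intro W
    unfold Dlt
    constructor
    · rintro ⟨h1, h2, h3⟩
      by_cases h4 : Row e (τ + (E W).2) W
      · exact Or.inl ⟨h1, h2, h4⟩
      · exact Or.inr ⟨h1, h2, h3, h4⟩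
    · rintro (⟨h1, h2, h3⟩ | ⟨h1, h2, h3, -⟩)
      · refine ⟨h1, h2, fun z hz hz' => ?_⟩
        have := h3 z hz hz'
        omega
      · exact ⟨h1, h2, h3⟩
  · rintro W ⟨-, -, h⟩ ⟨-, -, -, h'⟩
    exact h' h

private lemma SXi_fin (T e : ℕ) (τ : ℤ) :
    sE * ms xE (fun W => AT T W ∧ (E W).2 < 0 ∧ Row e (τ + (E W).2) W) ≠ ⊤ := by
  refine ENNReal.mul_ne_top ENNReal.ofReal_ne_top ?_
  refine ne_top_of_le_ne_top (b := 3) (by simp) ?_
  exact (SXi_mono fun W h => h.1).trans (at_fin T)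

private lemma SXi_row {T e : ℕ} {W : List Bool} (he : e ≤ T) (h : AT T W) :
    ∃ z ∈ V W, F0 z = 3 * (e : ℤ) := by
  obtain ⟨-, -, ⟨z, hz, hz'⟩, h0, -⟩ := h
  rcases Nat.eq_zero_or_pos e with rfl | hpos
  · exact ⟨(0, 0), o_mem W, by simp [F0]⟩
  · have he' : (e : ℤ) ≤ T := by exact_mod_cast he
    have hp' : (1 : ℤ) ≤ e := by exact_mod_cast hpos
    rcases split_last (fun z => 3 * (e : ℤ) ≤ F0 z) (W := W) ⟨z, hz, by omega⟩ with
      h3 | ⟨P, b, Q, rfl, h3, h4⟩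
    · omega
    · have h5 := cross_left (gd_std P) h3 (not_le.1 (h4 _ (head_mem _ _ _)))
      refine ⟨E P, ?_, h5.2.1⟩
      rw [V_append]
      exact List.mem_append_left _ (E_mem P)

private lemma SXi_max {T e : ℕ} {W : List Bool} (he : e ≤ T) (h : AT T W) :
    ∃ m : ℤ, ∀ τ : ℤ, Row e τ W ↔ m < τ := by
  classical
  obtain ⟨z, hz, hz'⟩ := SXi_row he h
  obtain ⟨w, hw, hmax⟩ := Finset.exists_max_image
    ((V W).toFinset.filter fun z => F0 z = 3 * (e : ℤ)) (fun z => z.2)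
    ⟨z, by rw [Finset.mem_filter, List.mem_toFinset]; exact ⟨hz, hz'⟩⟩
  rw [Finset.mem_filter, List.mem_toFinset] at hw
  refine ⟨w.2, fun τ => ⟨fun h => h w hw.1 hw.2, fun h z hz hz' => ?_⟩⟩
  have := hmax z (by rw [Finset.mem_filter, List.mem_toFinset]; exact ⟨hz, hz'⟩)
  omega

private lemma SXi_count (p : ℤ → Prop) (a b : ℤ) (h : ∀ τ, p τ ↔ a < τ ∧ τ ≤ b) :
    ∑' τ : ℤ, ind (p τ) = ((b - a).toNat : ℝ≥0∞) := by
  classical
  rw [tsum_eq_sum (s := Finset.Ioc a b)]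
  · rw [Finset.sum_congr rfl (g := fun _ => (1 : ℝ≥0∞)), Finset.sum_const, Int.card_Ioc]
    · simp
    · intro τ hτ
      rw [Finset.mem_Ioc] at hτ
      exact ind_true ((h τ).2 hτ)
  · intro τ hτ
    rw [Finset.mem_Ioc] at hτ
    exact ind_false fun hp => hτ ((h τ).1 hp)

private lemma SXi_exch (P : ℤ → List Bool → Prop) :
    ∑' τ : ℤ, ms xE (P τ) = ∑' W : List Bool, (∑' τ : ℤ, ind (P τ W)) * xE ^ (W.length + 1) := by
  have h1 : ∀ τ : ℤ, ms xE (P τ) = ∑' W : List Bool, ind (P τ W) * xE ^ (W.length + 1) :=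
    fun τ => SXi_ms _ _
  rw [tsum_congr h1, ENNReal.tsum_comm]
  exact tsum_congr fun W => ENNReal.tsum_mul_right

private lemma SXi_sE : 2 ≤ 3 * sE := by
  have h1 : (2 : ℝ) / 3 ≤ Real.sin (3 * (Real.pi / 8)) := by
    have h2 : Real.sin (Real.pi / 4) ≤ Real.sin (3 * (Real.pi / 8)) := by
      apply Real.sin_le_sin_of_le_of_le_pi_div_two
      · linarith [Real.pi_pos]
      · linarith [Real.pi_pos]
      · linarith [Real.pi_pos]
    rw [Real.sin_pi_div_four] at h2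
    have h3 : (4 : ℝ) / 3 ≤ √2 := by
      apply Real.le_sqrt_of_sq_le
      norm_num
    linarith
  unfold sE
  have h2 : (3 : ℝ≥0∞) = ENNReal.ofReal 3 := by norm_num
  have h3 : (2 : ℝ≥0∞) = ENNReal.ofReal 2 := by norm_num
  rw [h2, h3, ← ENNReal.ofReal_mul (by norm_num)]
  exact ENNReal.ofReal_le_ofReal (by linarith)

private lemma SXi_sE1 : sE ≤ 1 := by
  unfold sE
  rw [← ENNReal.ofReal_one]
  exact ENNReal.ofReal_le_ofReal (Real.sin_le_one _)

private lemma SXi_div {a b : ℝ≥0∞} {c : ℝ} {n : ℝ≥0∞} {k : ℝ} (hc : 0 < c)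
    (h : ENNReal.ofReal c * a ≤ n * b) (hn : n ≤ ENNReal.ofReal (c * k)) (_hk : 0 ≤ k) :
    a ≤ ENNReal.ofReal k * b := by
  have h1 : ENNReal.ofReal c * a ≤ ENNReal.ofReal c * (ENNReal.ofReal k * b) := by
    refine h.trans ?_
    rw [← mul_assoc, ← ENNReal.ofReal_mul hc.le]
    exact mul_le_mul_left hn _
  have hc0 : ENNReal.ofReal c ≠ 0 := by
    rw [ne_eq, ENNReal.ofReal_eq_zero]
    exact not_le.2 hc
  exact (ENNReal.mul_le_mul_iff_right hc0 ENNReal.ofReal_ne_top).1 h1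

/-- First moment of the displacement of the lower arcs of depth `T`. -/
noncomputable def Xi (T : ℕ) : ℝ≥0∞ :=
  ∑' W : List Bool, ind (AT T W ∧ (E W).2 < 0) * (((E W).2.natAbs : ℝ≥0∞) * xE ^ (W.length + 1))

theorem fr_dlt (T e : ℕ) (τ : ℤ) (he : e ≤ T) :
    ENNReal.ofReal 0.7 * ms xE (FT T e τ) ≤ sE * ms xE (Dlt T e τ) := by
  have h := lim_up T e τ he
  rw [SXi_split, at_rev, mul_add, add_comm] at h
  exact (ENNReal.add_le_add_iff_left (SXi_fin T e τ)).1 h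

theorem dlt_br (T : ℕ) (τ : ℤ) :
    sE * ms xE (Dlt T T τ) ≤ ms xE (fun W => Br T W ∧ τ ≤ (E W).2 + 1 ∧ (E W).2 ≤ τ) := by
  have h := lim_dn T τ
  rw [SXi_split, at_rev, mul_add] at h
  exact (ENNReal.add_le_add_iff_left (SXi_fin T T τ)).1 h

theorem dlt_sum (T e : ℕ) (he : e ≤ T) : ∑' τ : ℤ, ms xE (Dlt T e τ) = Xi T := by
  rw [SXi_exch]
  unfold Xi
  refine tsum_congr fun W => ?_
  rw [← mul_assoc]
  congr 1
  by_cases h : AT T W ∧ (E W).2 < 0
  · rw [ind_true h, one_mul]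
    obtain ⟨m, hm⟩ := SXi_max he h.1
    rw [SXi_count _ m (m - (E W).2)]
    · congr 1
      have := h.2
      omega
    · intro τ
      unfold Dlt
      rw [hm, hm]
      constructor
      · rintro ⟨-, -, h1, h2⟩
        constructor <;> omega
      · rintro ⟨h1, h2⟩
        exact ⟨h.1, h.2, h1, by omega⟩
  · rw [ind_false h, zero_mul]
    rw [ENNReal.tsum_eq_zero]
    intro τ
    exact ind_false fun hd => h ⟨hd.1, hd.2.1⟩

theorem xi_le' (T : ℕ) : sE * Xi T ≤ 2 * ms xE (Br T) := by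
  rw [← dlt_sum T T le_rfl, ← ENNReal.tsum_mul_left]
  refine (ENNReal.tsum_le_tsum fun τ => dlt_br T τ).trans (le_of_eq ?_)
  rw [SXi_exch, SXi_ms, ← ENNReal.tsum_mul_left]
  refine tsum_congr fun W => ?_
  rw [← mul_assoc]
  congr 1
  by_cases h : Br T W
  · rw [ind_true h, mul_one, SXi_count _ ((E W).2 - 1) ((E W).2 + 1)]
    · have : ((E W).2 + 1 - ((E W).2 - 1)).toNat = 2 := by omega
      rw [this]
      rfl
    · intro τ
      constructor
      · rintro ⟨-, h1, h2⟩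
        constructor <;> omega
      · rintro ⟨h1, h2⟩
        exact ⟨h, by omega, by omega⟩
  · rw [ind_false h, mul_zero, ENNReal.tsum_eq_zero]
    intro τ
    exact ind_false fun hd => h hd.1

theorem xi_le (T : ℕ) : Xi T ≤ 3 * ms xE (Br T) := by
  have h1 := xi_le' T
  have h2 : 2 * Xi T ≤ 2 * (3 * ms xE (Br T)) := by
    calc 2 * Xi T ≤ 3 * sE * Xi T := mul_le_mul_left SXi_sE _
      _ = 3 * (sE * Xi T) := mul_assoc _ _ _
      _ ≤ 3 * (2 * ms xE (Br T)) := mul_le_mul_right h1 _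
      _ = 2 * (3 * ms xE (Br T)) := by ring
  exact (ENNReal.mul_le_mul_iff_right two_ne_zero (by simp)).1 h2

theorem ft_sum (T e : ℕ) (he : e ≤ T) : ∑' τ : ℤ, ms xE (FT T e τ) ≤ 4 * ms xE (Br T) := by
  have h1 : ENNReal.ofReal 0.7 * ∑' τ : ℤ, ms xE (FT T e τ) ≤ 2 * ms xE (Br T) := by
    rw [← ENNReal.tsum_mul_left]
    refine (ENNReal.tsum_le_tsum fun τ => fr_dlt T e τ he).trans ?_
    rw [ENNReal.tsum_mul_left, dlt_sum T e he]
    exact xi_le' T
  have h2 := SXi_div (k := 4) (by norm_num) h1 (by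
    have h3 : (2 : ℝ≥0∞) = ENNReal.ofReal 2 := by norm_num
    rw [h3]
    exact ENNReal.ofReal_le_ofReal (by norm_num)) (by norm_num)
  have h4 : ENNReal.ofReal 4 = 4 := by norm_num
  rwa [h4] at h2

theorem ft_le (T e : ℕ) (τ : ℤ) (he : e ≤ T) : ms xE (FT T e τ) ≤ 2 * ms xE (AT T) := by
  have h1 : ENNReal.ofReal 0.7 * ms xE (FT T e τ) ≤ 1 * ms xE (AT T) := by
    refine (fr_dlt T e τ he).trans (mul_le_mul' SXi_sE1 (SXi_mono fun W h => h.1))
  have h2 := SXi_div (k := 2) (by norm_num) h1 (by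
    rw [← ENNReal.ofReal_one]
    exact ENNReal.ofReal_le_ofReal (by norm_num)) (by norm_num)
  have h4 : ENNReal.ofReal 2 = 2 := by norm_num
  rwa [h4] at h2

theorem disp_le (T G : ℕ) : (G : ℝ≥0∞) * ms xE (fun W => AT T W ∧ (G : ℤ) ≤ (E W).2) ≤ 3 * ms xE (Br T) := by
  rcases Nat.eq_zero_or_pos G with rfl | hG
  · simp
  rw [at_refl]
  refine le_trans ?_ (xi_le T)
  rw [SXi_ms, ← ENNReal.tsum_mul_left]
  unfold Xi
  refine ENNReal.tsum_le_tsum fun W => ?_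
  by_cases h : AT T W ∧ (E W).2 ≤ -(G : ℤ)
  · have h2 : AT T W ∧ (E W).2 < 0 := ⟨h.1, by have := h.2; omega⟩
    rw [ind_true h, ind_true h2, one_mul, one_mul]
    refine mul_le_mul_left ?_ _
    have h3 : G ≤ (E W).2.natAbs := by
      have := h.2
      omega
    exact_mod_cast h3
  · rw [ind_false h, zero_mul, mul_zero]
    exact zero_le

end Pool.Agent.HEP
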